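import Mathlib
import Pool.Agent.Lib.MP_fe8e9b_al_U.Defs

/-!
# MP_fe8e9b_al, iterated wreath products with several orbits: definitions
-/

set_option autoImplicit false

open scoped BigOperators

namespace Pool.Agent.MPfe8e9bT

open Pool.Agent.MPfe8e9b Pool.Agent.MPfe8e9bA Pool.Agent.MPfe8e9bW Pool.Agent.MPfe8e9bV
  Pool.Agent.MPfe8e9bU

/-- Coloured families of transitive actions: for every `i` some element acts nontrivially on `X i`
and trivially on all the other sets `X j` of the same colour. -/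
def Col {P I : Type} [Group P] {X : I → Type} {r : ℕ} (χ : I → Fin r)
    (α : ∀ i, P →* Equiv.Perm (X i)) : Prop :=
  (∀ i, ∀ x y : X i, ∃ p, α i p x = y) ∧
    ∀ i, ∃ p, (∀ j, j ≠ i → χ j = χ i → α j p = 1) ∧ α i p ≠ 1

/-- The subgroup of the elements which act trivially on all `X j`, `j ≠ i`, of the colour of
`i`. -/
def Kc {P I : Type} [Group P] {X : I → Type} {r : ℕ} (χ : I → Fin r)
    (α : ∀ i, P →* Equiv.Perm (X i)) (i : I) : Subgroup P where
  carrier := {p | ∀ j, j ≠ i → χ j = χ i → α j p = 1}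
  mul_mem' := fun {a b} ha hb j hj hc => by rw [map_mul, ha j hj hc, hb j hj hc, one_mul]
  one_mem' := fun j _ _ => map_one _
  inv_mem' := fun {a} ha j hj hc => by rw [map_inv, ha j hj hc, inv_one]

/-- The groups which are obtained in at most `h` steps. -/
inductive Tc (k m r : ℕ) (κ : ℝ) : ℕ → (G : Type) → Group G → Prop
  | base (h : ℕ) (G : Type) (inst : Group G) (hG : PE k κ G) (hw : Wd m G) :
      Tc k m r κ h G inst
  | step (h : ℕ) (P : Type) (instP : Group P) (hP : PE k κ P) (hw : Wd m P) (I : Type)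
      (hI : Finite I) (X : I → Type) (hX : ∀ i, Finite (X i))
      (h2 : ∀ i, 2 ≤ Nat.card (X i)) (χ : I → Fin r) (α : ∀ i, P →* Equiv.Perm (X i))
      (hα : Col χ α) (G : I → Type) (instG : ∀ i, Group (G i))
      (hG : ∀ i, Tc k m r κ h (G i) (instG i)) :
      Tc k m r κ (h + 1) (Wr α G) inferInstance
  | iso (h : ℕ) (G H : Type) (instG : Group G) (instH : Group H) (e : G ≃* H)
      (hG : Tc k m r κ h G instG) : Tc k m r κ h H instH

/-- A vector with the letters `y 0, …, y (q - 1)` and `1`, with good pair frequencies for the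
action of a group `K` (which may have many orbits). -/
def Frp {K X : Type} [Group K] [Fintype K] [Fintype X] (β : K →* Equiv.Perm X) {G : Type}
    [Group G] {q : ℕ} (y : Fin q → G) (Y : X → G) : Prop :=
  ∃ lam : X → Option (Fin q), (∀ x, Y x = (lam x).elim 1 y) ∧
    (∀ j, 1 / (4 * (q : ℝ)) ≤ mn (fun x => ind (lam x = some j))) ∧
    1 / 4 ≤ mn (fun x => ind (lam x = none)) ∧
    ∀ j, 1 / (16 * (q : ℝ)) ≤
      mn (fun p : X × K => ind (lam p.1 = some j ∧ lam ((β p.2)⁻¹ p.1) = none))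

theorem Frp.frq {K X : Type} [Group K] [Fintype K] [Fintype X] {β : K →* Equiv.Perm X}
    {G : Type} [Group G] {q : ℕ} {y : Fin q → G} {Y : X → G} (h : Frp β y Y) : Frq y Y := by
  obtain ⟨lam, h1, h2, h3, -⟩ := h
  exact ⟨lam, h1, h2, h3⟩

/-- A dense vector with relative error `ε`. -/
def DnsE {K X : Type} [Group K] [Fintype K] [Fintype X] (ε : ℝ) (α : K →* Equiv.Perm X)
    {G : Type} [Group G] {q : ℕ} (y : Fin q → G) (w : ℕ) (Y : X → G) : Prop :=
  ∃ ω : X → Bool × Fin q, (∀ x, Y x = if (ω x).1 = true then y (ω x).2 else 1) ∧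
    ∀ B : Finset X, B.card ≤ w → ∀ π : X → Bool × Fin q,
      |mn (fun σ : K => ind (∀ x ∈ B, ω ((α σ)⁻¹ x) = π x)) - ((2 * (q : ℝ)) ^ B.card)⁻¹| ≤
        ε * ((2 * (q : ℝ)) ^ B.card)⁻¹

/-- Vectors with all the properties: `Y (inl false)` has good pair frequencies for `K`,
`Y (inl true)` is dense, and `Y (inr ((false, e), j))`, `Y (inr ((true, e), j))` are the pairs of
the level `e`. -/
def GoodC {P X : Type} [Group P] [Fintype P] [Fintype X] (α : P →* Equiv.Perm X)
    (K : Subgroup P) [Fintype K] {G : Type} [Group G] [Fintype G] (ε : ℝ) (D M : ℕ)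
    (Y : TI M → X → G) : Prop :=
  ∃ (q w : ℕ) (y : Fin q → G), 0 < q ∧ Mix y (1 / 100) ∧
    Frp (α.comp K.subtype) y (Y (Sum.inl false)) ∧ DnsE ε α y w (Y (Sum.inl true)) ∧
    ∀ a : ℕ, w < 32 ^ (a + 1) → 32 ^ a ≤ Fintype.card X →
      ∃ e : Fin 2, LvlM α y (1 / ((D : ℝ) * 2 ^ a))
        (fun j => Y (Sum.inr ((false, e), j))) (fun j => Y (Sum.inr ((true, e), j)))

/-- The relative error of the dense vectors. -/
noncomputable def eps0 : ℝ := mu (1 / 1024) / 2 ^ 15

/-- The commutator width of the towers. -/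
def wdt (k m : ℕ) : ℕ := 2 * (5 * k + m + 1)

end Pool.Agent.MPfe8e9bT
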