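import Mathlib
import Pool.Agent.Lib.MP_fe8e9b_al_T.Defs
import Pool.Agent.Lib.MP_fe8e9b_al_V.DnI
import Pool.Agent.Lib.MP_fe8e9b_al_V.FamS

/-!
# MP_fe8e9b_al, iterated wreath products with several orbits: the last step of the dense case
-/

set_option autoImplicit false

open scoped BigOperators

namespace Pool.Agent.MPfe8e9bT

open Pool.Agent.MPfe8e9b Pool.Agent.MPfe8e9bA Pool.Agent.MPfe8e9bW Pool.Agent.MPfe8e9bV
  Pool.Agent.MPfe8e9bU

/-- The mean over the patterns, general letters.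

Proof. As `dni_mean` in V/DnI (`Equiv.funSplitAt` at `x₀`): the sum is
`∑ π', ρ (dniE G i (d π')) (∑ o, ρ (sgl G i x₀ (a x₀ o)) v)`, and there are
`(2 q) ^ (card A - 1)` functions `π'`. -/
theorem dnf_mean {I : Type} {X : I → Type} (G : I → Type) [∀ i, Group (G i)] (i : I)
    [DecidableEq (X i)] {q : ℕ} (hq : 0 < q) (a : X i → Bool × Fin q → G i) {V : Type}
    [NormedAddCommGroup V] [InnerProductSpace ℂ V]
    (ρ : (∀ i, X i → G i) →* (V ≃ₗᵢ[ℂ] V)) (v : V) (A : Finset (X i)) (x₀ : X i) (hx₀ : x₀ ∈ A) :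
    ‖∑ π : A → Bool × Fin q,
      ρ (dniE G i (fun x => if h : x ∈ A then a x (π ⟨x, h⟩) else 1)) v‖ * (2 * (q : ℝ)) ≤
      (2 * (q : ℝ)) ^ A.card * ‖∑ o : Bool × Fin q, ρ (sgl G i x₀ (a x₀ o)) v‖ := by
  let z₀ : A := ⟨x₀, hx₀⟩
  let Ω := Bool × Fin q
  let E := Equiv.funSplitAt z₀ Ω
  let o₀ : Ω := (true, ⟨0, hq⟩)
  let d : ({j : A // j ≠ z₀} → Ω) → X i → G i := fun π' x =>
    if x = x₀ then 1 else (if h : x ∈ A then a x ((E.symm (o₀, π')) ⟨x, h⟩) else 1)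
  have hE : ∀ (o : Ω) (π' : {j : A // j ≠ z₀} → Ω),
      dniE (X := X) G i (fun x => if h : x ∈ A then a x ((E.symm (o, π')) ⟨x, h⟩) else 1) =
        dniE G i (d π') * sgl G i x₀ (a x₀ o) := by
    intro o π'
    have h1 : sgl G i x₀ (a x₀ o) = dniE (X := X) G i (Pi.mulSingle x₀ (a x₀ o)) := by
      unfold sgl dniE
      simp only [MonoidHom.comp_apply, MonoidHom.mulSingle_apply]
      funext j x
      by_cases hj : j = i
      · subst hj
        by_cases hx : x = x₀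
        · subst hx
          simp
        · simp [Pi.mulSingle_eq_of_ne, hx]
      · simp [Pi.mulSingle_eq_of_ne, hj]
    rw [h1, ← map_mul]
    congr 1
    funext x
    rw [Pi.mul_apply]
    by_cases hx : x = x₀
    · subst hx
      rw [Pi.mulSingle_eq_same, dif_pos hx₀]
      simp [d, E, Equiv.funSplitAt, z₀]
    · rw [Pi.mulSingle_eq_of_ne hx, mul_one]
      simp only [d, if_neg hx]
      by_cases hxA : x ∈ A
      · rw [dif_pos hxA, dif_pos hxA]
        have hne : (⟨x, hxA⟩ : A) ≠ z₀ := fun h => hx (congrArg Subtype.val h)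
        simp [E, Equiv.funSplitAt, hne]
      · rw [dif_neg hxA, dif_neg hxA]
  have h1 : ∑ π : A → Ω, ρ (dniE G i (fun x => if h : x ∈ A then a x (π ⟨x, h⟩) else 1)) v =
      ∑ π' : {j : A // j ≠ z₀} → Ω, ρ (dniE G i (d π')) (∑ o : Ω, ρ (sgl G i x₀ (a x₀ o)) v) := by
    rw [← E.symm.sum_comp, Fintype.sum_prod_type, Finset.sum_comm]
    refine Finset.sum_congr rfl fun π' _ => ?_
    rw [map_sum]
    refine Finset.sum_congr rfl fun o _ => ?_
    rw [hE, map_mul]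
    rfl
  have h3 : (2 * q) ^ A.card = 2 * q * Fintype.card ({j : A // j ≠ z₀} → Ω) := by
    have h4 := Fintype.card_congr E
    rw [Fintype.card_prod, Fintype.card_fun, Fintype.card_coe, Fintype.card_prod,
      Fintype.card_bool, Fintype.card_fin] at h4
    exact h4
  have h4 : (2 * (q : ℝ)) ^ A.card = 2 * q * Fintype.card ({j : A // j ≠ z₀} → Ω) := by
    exact_mod_cast h3
  have h5 : ‖∑ π : A → Ω, ρ (dniE G i (fun x => if h : x ∈ A then a x (π ⟨x, h⟩) else 1)) v‖ ≤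
      Fintype.card ({j : A // j ≠ z₀} → Ω) * ‖∑ o : Ω, ρ (sgl G i x₀ (a x₀ o)) v‖ := by
    rw [h1]
    refine (norm_sum_le _ _).trans (le_of_eq ?_)
    rw [Finset.sum_congr rfl fun π' _ => LinearIsometryEquiv.norm_map _ _, Finset.sum_const,
      Finset.card_univ, nsmul_eq_mul]
  rw [h4]
  have h6 : (0 : ℝ) ≤ 2 * (q : ℝ) := by positivity
  calc _ ≤ Fintype.card ({j : A // j ≠ z₀} → Ω) *
        ‖∑ o : Ω, ρ (sgl G i x₀ (a x₀ o)) v‖ * (2 * (q : ℝ)) := mul_le_mul_of_nonneg_right h5 h6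
    _ = _ := by ring

private theorem dnf_re {V : Type} [NormedAddCommGroup V] [InnerProductSpace ℂ V]
    (U : V ≃ₗᵢ[ℂ] V) (v : V) :
    RCLike.re (inner ℂ (U v) v : ℂ) = ‖v‖ ^ 2 - ‖U v - v‖ ^ 2 / 2 := by
  have h := @norm_sub_sq ℂ V _ _ _ (U v) v
  rw [LinearIsometryEquiv.norm_map] at h
  linarith

/-- The norm of half of the identity plus half of a mean of unitaries.

Proof. `T = 1/2 + C/2`, `C v = mn_l U l v`: `‖T v‖ ^ 2 = ‖v‖ ^ 2 / 4 + re ⟨C v, v⟩ / 2 + ‖C v‖ ^ 2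
/ 4`, `‖C v‖ ≤ ‖v‖` and `re ⟨U l v, v⟩ = ‖v‖ ^ 2 - ‖U l v - v‖ ^ 2 / 2`. The sum over `Bool × Fin
q` of `U` (for `true`) and `1` (for `false`) is `2 q T v`. -/
theorem dnf_half {V : Type} [NormedAddCommGroup V] [InnerProductSpace ℂ V] {q : ℕ} (hq : 0 < q)
    (U : Fin q → (V ≃ₗᵢ[ℂ] V)) (v : V) :
    ‖∑ o : Bool × Fin q, (if o.1 = true then U o.2 v else v)‖ ^ 2 ≤
      (2 * (q : ℝ)) ^ 2 * (‖v‖ ^ 2 - mn (fun l => ‖U l v - v‖ ^ 2) / 4) := by
  have hq' : (0 : ℝ) < q := by exact_mod_cast hq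
  have h1 : ∑ o : Bool × Fin q, (if o.1 = true then U o.2 v else v) =
      ∑ l, U l v + ∑ _l : Fin q, v := by
    rw [Fintype.sum_prod_type, Fintype.sum_bool]
    simp
  have h2 : ∑ _l : Fin q, v = (q : ℂ) • v := by
    rw [Finset.sum_const, Finset.card_univ, Fintype.card_fin, ← Nat.cast_smul_eq_nsmul ℂ]
  have h3 : ‖∑ l, U l v‖ ≤ q * ‖v‖ := by
    refine (norm_sum_le _ _).trans (le_of_eq ?_)
    rw [Finset.sum_congr rfl fun l _ => LinearIsometryEquiv.norm_map _ _, Finset.sum_const,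
      Finset.card_univ, Fintype.card_fin, nsmul_eq_mul]
  have h4 : RCLike.re (inner ℂ (∑ l, U l v) v : ℂ) =
      q * ‖v‖ ^ 2 - (∑ l, ‖U l v - v‖ ^ 2) / 2 := by
    rw [sum_inner, map_sum, Finset.sum_congr rfl fun l _ => dnf_re (U l) v,
      Finset.sum_sub_distrib, Finset.sum_const, Finset.card_univ, Fintype.card_fin,
      nsmul_eq_mul, ← Finset.sum_div]
  have h5 : RCLike.re (inner ℂ (∑ l, U l v) ((q : ℂ) • v) : ℂ) =
      q * (q * ‖v‖ ^ 2 - (∑ l, ‖U l v - v‖ ^ 2) / 2) := by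
    rw [← h4, inner_smul_right]
    exact RCLike.re_ofReal_mul (K := ℂ) (q : ℝ) _
  have h6 := @norm_add_sq ℂ V _ _ _ (∑ l, U l v) ((q : ℂ) • v)
  rw [h5, norm_smul, Complex.norm_natCast] at h6
  have h7 : ‖∑ l, U l v‖ ^ 2 ≤ (q * ‖v‖) ^ 2 := pow_le_pow_left₀ (norm_nonneg _) h3 2
  have h8 : mn (fun l => ‖U l v - v‖ ^ 2) = (q : ℝ)⁻¹ * ∑ l, ‖U l v - v‖ ^ 2 := by
    rw [mn, Fintype.card_fin]
  rw [h1, h2, h6, h8]
  have h9 : (2 * (q : ℝ)) ^ 2 * (‖v‖ ^ 2 - (q : ℝ)⁻¹ * (∑ l, ‖U l v - v‖ ^ 2) / 4) =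
      4 * (q * ‖v‖) ^ 2 - q * ∑ l, ‖U l v - v‖ ^ 2 := by
    field_simp
    ring
  rw [h9]
  nlinarith

/-- The last step of the dense case.

Proof. Let `(T, W, H)` be the family. For `t` and `g : P` let
`E = cm (wrAct α G g Y) (W t)`. `E j = 1` for `j ≠ i`; the mean over `(g, t)` of
`‖ρ E v - v‖ ^ 2` is at most `8 B' + 8 B` (`fams_norm`, `fams_sq`, `mn_prod`). Fix `t`,
`u x = W t i x`. Since `v` is fixed at the coordinates `x ∉ A` (and `E j = 1`),
`ρ E v = ρ (dniE G i e) v` with `e x = a x (ω (g⁻¹ x))` for `x ∈ A`, `e x = 1` otherwise, where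
`a x (true, l) = cm (y l) (u x)`, `a x (false, l) = 1` (see `dni_local` or the like in V/DnI).
The mean over `g` is `∑ π, p π • ρ (dniE …) v` over the patterns `π : A → Bool × Fin q`, where
`|p π - (2 q) ^ (- card A)| ≤ ε (2 q) ^ (- card A)` (`hY`, as in V/DnI but with the group `P`
itself; extend `π` to `X i`), so its norm is at most
`(2 q) ^ (- card A) ‖∑ π, ρ (dniE …) v‖ + ε ‖v‖ ≤ (2 q)⁻¹ ‖∑ o, ρ (sgl G i x₀ (a x₀ o)) v‖ + ε ‖v‖`
(`dnf_mean`) `=: s + ε ‖v‖` with `s ^ 2 ≤ ‖v‖ ^ 2 - d t / 4`,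
`d t = mn_l ‖ρ (sgl G i x₀ (cm (y l) (u x₀))) v - v‖ ^ 2` (`dnf_half`). Hence
`mn_g ‖ρ E v - v‖ ^ 2 = 2 ‖v‖ ^ 2 - 2 re ⟨mn_g ρ E v, v⟩ ≥ 2 ‖v‖ ^ 2 - 2 ‖v‖ s - 2 ε ‖v‖ ^ 2 ≥
‖v‖ ^ 2 - s ^ 2 - 2 ε ‖v‖ ^ 2 ≥ d t / 4 - 2 ε ‖v‖ ^ 2`. The mean over `t`: `d t = F (u x₀)` with
`F = cav y (fun u => ‖ρ (sgl G i x₀ u) v - v‖ ^ 2) ≥ 0`, so
`mn_t d t ≥ mn_t ind (x₀ ∈ H t) * F (W t i x₀) ≥ w₀ * Ψ F ≥ w₀ * m * ‖v‖ ^ 2`. -/
theorem dnf_end {P I : Type} [Group P] [Fintype P] [Finite I] {X : I → Type}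
    [∀ i, Fintype (X i)] (α : ∀ i, P →* Equiv.Perm (X i)) (G : I → Type) [∀ i, Group (G i)]
    (i : I) {q : ℕ} (hq : 0 < q) (y : Fin q → G i) (w : ℕ) (Y : ∀ i, X i → G i) {ε : ℝ}
    (hY : DnsE ε (α i) y w (Y i)) {V : Type} [NormedAddCommGroup V] [InnerProductSpace ℂ V]
    (ρ : (∀ i, X i → G i) →* (V ≃ₗᵢ[ℂ] V)) (v : V) (A : Finset (X i)) (hAw : A.card ≤ w)
    (hfix : ∀ x, x ∉ A → ∀ a, ρ (sgl G i x a) v = v) {Ψ : (G i → ℝ) → ℝ} {B w₀ p : ℝ}
    (hF : Fam G ρ v i A Ψ B w₀ p) (hw₀ : 0 ≤ w₀) (x₀ : X i) (hx₀ : x₀ ∈ A) (m : ℝ)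
    (hm : m * ‖v‖ ^ 2 ≤ Ψ (cav y (fun u => ‖ρ (sgl G i x₀ u) v - v‖ ^ 2))) (B' : ℝ)
    (hB' : mn (fun g : P => ‖ρ (wrAct α G g Y) v - v‖ ^ 2) ≤ B') :
    (w₀ * m / 4 - 2 * ε) * ‖v‖ ^ 2 ≤ 8 * B' + 8 * B := by
  classical
  obtain ⟨T, iT, nT, W, H, h1, h2, h3, h4, h5⟩ := hF
  obtain ⟨ω, hω, hd⟩ := hY
  have hq' : (0 : ℝ) < q := by exact_mod_cast hq
  set N : ℝ := (Fintype.card P : ℝ) with hNdef
  have hN : 0 < N := by
    rw [hNdef]
    exact_mod_cast Fintype.card_pos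
  set M : ℝ := (2 * (q : ℝ)) ^ A.card with hMdef
  have hM : 0 < M := by
    rw [hMdef]
    positivity
  have key : ∀ t : T, mn (fun l => ‖ρ (sgl G i x₀ (cm (y l) (W t i x₀))) v - v‖ ^ 2) / 4 -
      2 * ε * ‖v‖ ^ 2 ≤ mn (fun g : P => ‖ρ (cm (wrAct α G g Y) (W t)) v - v‖ ^ 2) := by
    intro t
    set a : X i → Bool × Fin q → G i := fun x o =>
      if o.1 = true then cm (y o.2) (W t i x) else 1 with ha
    set F : (A → Bool × Fin q) → V := fun π =>
      ρ (dniE G i (fun x => if h : x ∈ A then a x (π ⟨x, h⟩) else 1)) v with hF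
    let pt : P → A → Bool × Fin q := fun g x => ω ((α i g)⁻¹ x.1)
    have e1 : ∀ g : P, ρ (cm (wrAct α G g Y) (W t)) v = F (pt g) := by
      intro g
      have e2 : cm (wrAct α G g Y) (W t) = dniE G i (cm (wrAct α G g Y) (W t) i) := by
        funext j
        by_cases hj : j = i
        · subst hj
          rw [dni_same]
        · rw [dni_ne G i _ j hj]
          change cm (wrAct α G g Y j) (W t j) = 1
          rw [h1 t j hj]
          exact cm_one_right _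
      rw [e2]
      refine dni_congr G ρ v i A hfix _ _ fun x hx => ?_
      rw [dif_pos hx]
      change cm (wrAct α G g Y i x) (W t i x) = a x (pt g ⟨x, hx⟩)
      rw [wrAct_apply, hω]
      by_cases ho : (ω ((α i g)⁻¹ x)).1 = true
      · simp only [ha, pt, if_pos ho]
      · simp only [ha, pt, if_neg ho]
        exact cm_one_left _
    let c : (A → Bool × Fin q) → ℝ := fun π => ∑ g : P, ind (∀ x : A, pt g x = π x)
    have e3 : ∑ g : P, F (pt g) = ∑ π, (c π : ℂ) • F π := by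
      have e4 : ∀ g, F (pt g) = ∑ π, ((ind (∀ x : A, pt g x = π x) : ℝ) : ℂ) • F π := by
        intro g
        rw [Finset.sum_eq_single (pt g)]
        · rw [ind_true fun _ => rfl, Complex.ofReal_one, one_smul]
        · intro π _ hπ
          rw [ind_false, Complex.ofReal_zero, zero_smul]
          intro h
          exact hπ (funext fun x => (h x).symm)
        · intro h
          exact absurd (Finset.mem_univ _) h
      rw [Finset.sum_congr rfl fun g _ => e4 g, Finset.sum_comm]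
      refine Finset.sum_congr rfl fun π _ => ?_
      rw [← Finset.sum_smul]
      simp only [c, Complex.ofReal_sum]
    have hc : ∀ π, |c π - N * M⁻¹| ≤ N * (ε * M⁻¹) := by
      intro π
      have e5 := hd A hAw (fun x => if h : x ∈ A then π ⟨x, h⟩ else (true, ⟨0, hq⟩))
      have e6 : ∀ g : P, ind (∀ x ∈ A, ω ((α i g)⁻¹ x) =
          if h : x ∈ A then π ⟨x, h⟩ else (true, ⟨0, hq⟩)) = ind (∀ x : A, pt g x = π x) := by
        intro g
        refine congrArg ind (propext ⟨fun h x => ?_, fun h x hx => ?_⟩)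
        · have := h x.1 x.2
          rw [dif_pos x.2] at this
          exact this
        · rw [dif_pos hx]
          exact h ⟨x, hx⟩
      simp only [e6] at e5
      have e7 : c π = N * mn (fun g : P => ind (∀ x : A, pt g x = π x)) := by
        rw [mn, ← mul_assoc, mul_inv_cancel₀ hN.ne', one_mul]
      rw [e7, ← mul_sub, abs_mul, abs_of_pos hN]
      exact mul_le_mul_of_nonneg_left e5 hN.le
    have e8 : ∑ π, (c π : ℂ) • F π = ((N * M⁻¹ : ℝ) : ℂ) • ∑ π, F π +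
        ∑ π, ((c π - N * M⁻¹ : ℝ) : ℂ) • F π := by
      rw [Finset.smul_sum, ← Finset.sum_add_distrib]
      refine Finset.sum_congr rfl fun π _ => ?_
      rw [← add_smul, ← Complex.ofReal_add]
      congr 2
      ring
    set s : ℝ := (2 * (q : ℝ))⁻¹ * ‖∑ o : Bool × Fin q, ρ (sgl G i x₀ (a x₀ o)) v‖ with hs
    have hs0 : 0 ≤ s := by
      rw [hs]
      positivity
    have e9 : ‖((N * M⁻¹ : ℝ) : ℂ) • ∑ π, F π‖ ≤ N * s := by
      have e10 := dnf_mean G i hq a ρ v A x₀ hx₀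
      rw [norm_smul, Complex.norm_real, Real.norm_eq_abs, abs_of_pos (by positivity)]
      have e11 : ‖∑ π, F π‖ ≤ M * s := by
        rw [hs, ← mul_assoc, mul_comm M, mul_assoc, le_inv_mul_iff₀ (by positivity), mul_comm]
        exact e10
      calc N * M⁻¹ * ‖∑ π, F π‖ ≤ N * M⁻¹ * (M * s) :=
            mul_le_mul_of_nonneg_left e11 (by positivity)
        _ = N * s := by
            field_simp
    have e12 : ‖∑ π, ((c π - N * M⁻¹ : ℝ) : ℂ) • F π‖ ≤ N * ε * ‖v‖ := by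
      refine (norm_sum_le _ _).trans ?_
      calc ∑ π, ‖((c π - N * M⁻¹ : ℝ) : ℂ) • F π‖
          ≤ ∑ _π : A → Bool × Fin q, N * (ε * M⁻¹) * ‖v‖ := by
            refine Finset.sum_le_sum fun π _ => ?_
            rw [norm_smul, Complex.norm_real, Real.norm_eq_abs]
            have h7 : ‖F π‖ = ‖v‖ := LinearIsometryEquiv.norm_map _ _
            rw [h7]
            exact mul_le_mul_of_nonneg_right (hc π) (norm_nonneg _)
        _ = N * ε * ‖v‖ := by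
            have h8 : (Fintype.card (A → Bool × Fin q) : ℝ) = M := by
              rw [Fintype.card_fun, Fintype.card_coe, Fintype.card_prod, Fintype.card_bool,
                Fintype.card_fin]
              push_cast
              rfl
            rw [Finset.sum_const, Finset.card_univ, nsmul_eq_mul, h8]
            field_simp
    have e13 : ‖∑ g : P, F (pt g)‖ ≤ N * s + N * ε * ‖v‖ := by
      rw [e3, e8]
      exact (norm_add_le _ _).trans (add_le_add e9 e12)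
    have e14 : ∑ g : P, ‖ρ (cm (wrAct α G g Y) (W t)) v - v‖ ^ 2 =
        2 * N * ‖v‖ ^ 2 - 2 * RCLike.re (inner ℂ (∑ g : P, F (pt g)) v : ℂ) := by
      rw [sum_inner, map_sum, Finset.mul_sum]
      have e15 : ∀ g : P, ‖ρ (cm (wrAct α G g Y) (W t)) v - v‖ ^ 2 =
          2 * ‖v‖ ^ 2 - 2 * RCLike.re (inner ℂ (F (pt g)) v : ℂ) := by
        intro g
        rw [← e1 g, dnf_re]
        ring
      rw [Finset.sum_congr rfl fun g _ => e15 g, Finset.sum_sub_distrib, Finset.sum_const,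
        Finset.card_univ, nsmul_eq_mul]
      ring
    have e16 : RCLike.re (inner ℂ (∑ g : P, F (pt g)) v : ℂ) ≤
        (N * s + N * ε * ‖v‖) * ‖v‖ :=
      (re_inner_le_norm _ _).trans (mul_le_mul_of_nonneg_right e13 (norm_nonneg _))
    have e17 : s ^ 2 ≤ ‖v‖ ^ 2 -
        mn (fun l => ‖ρ (sgl G i x₀ (cm (y l) (W t i x₀))) v - v‖ ^ 2) / 4 := by
      have e18 := dnf_half hq (fun l => ρ (sgl G i x₀ (cm (y l) (W t i x₀)))) v
      have e19 : ∑ o : Bool × Fin q, (if o.1 = true then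
          (fun l => ρ (sgl G i x₀ (cm (y l) (W t i x₀)))) o.2 v else v) =
          ∑ o : Bool × Fin q, ρ (sgl G i x₀ (a x₀ o)) v := by
        refine Finset.sum_congr rfl fun o _ => ?_
        by_cases ho : o.1 = true
        · simp only [ha, if_pos ho]
        · simp only [ha, if_neg ho, map_one]
          rfl
      rw [e19] at e18
      rw [hs, mul_pow, inv_pow, inv_mul_le_iff₀ (by positivity)]
      exact e18
    change _ ≤ (Fintype.card P : ℝ)⁻¹ * ∑ g : P, ‖ρ (cm (wrAct α G g Y) (W t)) v - v‖ ^ 2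
    rw [e14, ← hNdef]
    have e20 : 2 * ‖v‖ ^ 2 - 2 * ((s + ε * ‖v‖) * ‖v‖) ≤
        N⁻¹ * (2 * N * ‖v‖ ^ 2 - 2 * RCLike.re (inner ℂ (∑ g : P, F (pt g)) v : ℂ)) := by
      rw [le_inv_mul_iff₀ hN]
      nlinarith
    refine le_trans ?_ e20
    nlinarith [sq_nonneg (‖v‖ - s)]
  have k1 : mn (fun t : T => mn (fun g : P => ‖ρ (cm (wrAct α G g Y) (W t)) v - v‖ ^ 2)) ≤
      8 * B' + 8 * B := by
    rw [mn_comm]
    have k2 : mn (fun g : P => mn (fun t : T =>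
        ‖ρ (cm (wrAct α G g Y) (W t)) v - v‖ ^ 2)) ≤
        mn (fun g : P => mn (fun t : T =>
          8 * ‖ρ (wrAct α G g Y) v - v‖ ^ 2 + 8 * ‖ρ (W t) v - v‖ ^ 2)) :=
      mn_mono fun g => mn_mono fun t => fams_sq (norm_nonneg _) (fams_norm ρ v _ _)
    refine k2.trans ?_
    have k3 : ∀ g : P, mn (fun t : T =>
          8 * ‖ρ (wrAct α G g Y) v - v‖ ^ 2 + 8 * ‖ρ (W t) v - v‖ ^ 2) =
        8 * ‖ρ (wrAct α G g Y) v - v‖ ^ 2 + 8 * mn (fun t : T => ‖ρ (W t) v - v‖ ^ 2) := by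
      intro g
      rw [mn_add, mn_const, mn_mul_left]
    simp only [k3]
    rw [mn_add, mn_const, mn_mul_left]
    linarith
  have k4 : mn (fun t : T => mn (fun l => ‖ρ (sgl G i x₀ (cm (y l) (W t i x₀))) v - v‖ ^ 2) / 4 -
      2 * ε * ‖v‖ ^ 2) ≤ 8 * B' + 8 * B := (mn_mono key).trans k1
  rw [mn_sub, mn_const] at k4
  have k5 : mn (fun t : T =>
      mn (fun l => ‖ρ (sgl G i x₀ (cm (y l) (W t i x₀))) v - v‖ ^ 2) / 4) =
      mn (fun t : T => mn (fun l => ‖ρ (sgl G i x₀ (cm (y l) (W t i x₀))) v - v‖ ^ 2)) / 4 := by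
    simp only [div_eq_mul_inv]
    rw [mn_mul_right]
  rw [k5] at k4
  have k6 := h4 x₀ hx₀ (cav y (fun u => ‖ρ (sgl G i x₀ u) v - v‖ ^ 2))
    (fun u => mn_nonneg fun l => sq_nonneg _)
  have k7 : mn (fun t : T => ind (x₀ ∈ H t) *
      cav y (fun u => ‖ρ (sgl G i x₀ u) v - v‖ ^ 2) (W t i x₀)) ≤
      mn (fun t : T => mn (fun l => ‖ρ (sgl G i x₀ (cm (y l) (W t i x₀))) v - v‖ ^ 2)) :=
    mn_mono fun t => by
      have k8 : 0 ≤ mn (fun l => ‖ρ (sgl G i x₀ (cm (y l) (W t i x₀))) v - v‖ ^ 2) :=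
        mn_nonneg fun l => sq_nonneg _
      exact mul_le_of_le_one_left k8 (ind_le_one _)
  have k9 := mul_le_mul_of_nonneg_left hm hw₀
  have k10 : (w₀ * m / 4 - 2 * ε) * ‖v‖ ^ 2 = w₀ * (m * ‖v‖ ^ 2) / 4 - 2 * ε * ‖v‖ ^ 2 := by
    ring
  rw [k10]
  linarith

end Pool.Agent.MPfe8e9bT
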