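import Mathlib
import Pool.Agent.Lib.MP_fe8e9b_al_T.Defs
import Pool.Agent.Lib.MP_fe8e9b_al_V.FamZ
import Pool.Agent.Lib.MP_fe8e9b_al_V.FamS
import Pool.Agent.Lib.MP_fe8e9b_al_V.FamE
import Pool.Agent.Lib.MP_fe8e9b_al_V.Fam5

/-!
# MP_fe8e9b_al, iterated wreath products with several orbits: families for one transitive action
-/

set_option autoImplicit false

open scoped BigOperators

namespace Pool.Agent.MPfe8e9bT

open Pool.Agent.MPfe8e9b Pool.Agent.MPfe8e9bA Pool.Agent.MPfe8e9bW Pool.Agent.MPfe8e9bV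
  Pool.Agent.MPfe8e9bU

/-- the letters of a quotient of translates -/
theorem famc_val {I P : Type} [Group P] {X : I → Type}
    (α : ∀ i, P →* Equiv.Perm (X i)) (G : I → Type) [∀ i, Group (G i)] (i : I)
    (Y : ∀ i, X i → G i) (g κ : P) (x : X i) :
    (wrAct α G g Y * (wrAct α G (g * κ) Y)⁻¹) i x =
      Y i ((α i g)⁻¹ x) * (Y i ((α i κ)⁻¹ ((α i g)⁻¹ x)))⁻¹ := by
  have h : (α i (g * κ))⁻¹ x = (α i κ)⁻¹ ((α i g)⁻¹ x) := by
    rw [map_mul, mul_inv_rev]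
    rfl
  rw [← h]
  rfl

/-- the mean displacement of the quotients -/
theorem famc_mean {P M V : Type} [Group P] [Fintype P] [Group M] [NormedAddCommGroup V]
    [InnerProductSpace ℂ V] (K : Subgroup P) [Fintype K] (w : P → M) (ρ : M →* (V ≃ₗᵢ[ℂ] V))
    (v : V) (δ : ℝ) (hδ : mn (fun g : P => ‖ρ (w g) v - v‖ ^ 2) ≤ δ) :
    mn (fun t : P × K => ‖ρ (w t.1 * (w (t.1 * (t.2 : P)))⁻¹) v - v‖ ^ 2) ≤ 4 * δ := by
  have hd : ∀ t : P × K, ‖ρ (w t.1 * (w (t.1 * (t.2 : P)))⁻¹) v - v‖ ^ 2 ≤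
      2 * ‖ρ (w t.1) v - v‖ ^ 2 + 2 * ‖ρ (w (t.1 * (t.2 : P))) v - v‖ ^ 2 :=
    fun t => famz_disp ρ _ _ v
  refine (mn_mono hd).trans ?_
  generalize hf : (fun g : P => ‖ρ (w g) v - v‖ ^ 2) = f at hδ
  have hf' : ∀ g : P, ‖ρ (w g) v - v‖ ^ 2 = f g := fun g => congrFun hf g
  simp only [hf']
  rw [mn_add, mn_mul_left, mn_mul_left, mn_prod, mn_prod]
  have h1 : mn (fun t : P => mn (fun _ : K => f t)) ≤ δ := by
    refine le_trans (mn_mono (fun t => ?_)) hδ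
    exact (mn_const _).le
  have h2 : mn (fun t : P => mn (fun s : K => f (t * (s : P)))) ≤ δ := by
    rw [mn_comm]
    refine mn_le fun s => ?_
    exact (le_of_eq (mn_equiv (Equiv.mulRight (s : P)) f)).trans hδ
  have h3 : 2 * mn (fun t : P => mn (fun _ : K => f t)) +
      2 * mn (fun t : P => mn (fun s : K => f (t * (s : P)))) ≤ 4 * δ := by linarith
  exact h3

/-- The first family.

Proof. As `fam_zero` in V/FamZ, with `T = P × K`,
`W (g, κ) = wrAct α G g Y * (wrAct α G (g * κ) Y)⁻¹`, `H = univ`. For `j ≠ i`: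
`(wrAct α G (g * κ) Y) j x = Y j ((α j κ)⁻¹ ((α j g)⁻¹ x)) = Y j ((α j g)⁻¹ x)` (`hK`), so
`W j = 1`. The mean of the squares of the displacements is at most `2 δ + 2 δ` (for fixed `κ`,
`g ↦ g * κ` is a bijection). At `x`: `W (g, κ) i x = Y i x' * (Y i (κ⁻¹ x'))⁻¹`, `x' = g⁻¹ x`; it
is `y j` if `lam x' = some j` and `lam (κ⁻¹ x') = none`. For fixed `κ`, `mn_tr` (over `g`) replaces
`x'` by a uniform point; by the pair frequencies the sum over `j` is at least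
`∑ j, 1 / (16 q) * F (y j)`. -/
theorem fam_zero_c {P I : Type} [Group P] [Fintype P] {X : I → Type} [∀ i, Fintype (X i)]
    (α : ∀ i, P →* Equiv.Perm (X i)) (i : I) (htr : ∀ x y : X i, ∃ p, α i p x = y)
    (K : Subgroup P) [Fintype K] (G : I → Type) [∀ i, Group (G i)]
    {q : ℕ} (hq : 0 < q) (y : Fin q → G i) (Y : ∀ i, X i → G i)
    (hK : ∀ κ ∈ K, ∀ j, j ≠ i → ∀ x, Y j ((α j κ)⁻¹ x) = Y j x)
    (hY : Frp ((α i).comp K.subtype) y (Y i)) {V : Type}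
    [NormedAddCommGroup V] [InnerProductSpace ℂ V] (ρ : (∀ i, X i → G i) →* (V ≃ₗᵢ[ℂ] V)) (v : V)
    (δ : ℝ) (hδ : mn (fun g : P => ‖ρ (wrAct α G g Y) v - v‖ ^ 2) ≤ δ) (A : Finset (X i)) :
    Fam G ρ v i A (fun F => mn (fun j => F (y j))) (4 * δ) (1 / 16) 1 := by
  classical
  obtain ⟨lam, hlam, -, -, hj⟩ := hY
  refine ⟨P × K, inferInstance, inferInstance,
    fun t => wrAct α G t.1 Y * (wrAct α G (t.1 * (t.2 : P)) Y)⁻¹, fun _ => Finset.univ,
    ?_, ?_, ?_, ?_, ?_⟩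
  · rintro ⟨g, κ⟩ j hji
    funext x
    refine (famc_val α G j Y g κ x).trans ?_
    rw [hK κ κ.2 j hji, mul_inv_cancel]
    rfl
  · intro t x hx
    exact absurd (Finset.mem_univ _) hx
  · exact famc_mean K (fun g => wrAct α G g Y) ρ v δ hδ
  · intro x _ F hF
    have hY' : ∀ t : P × K, ∑ j, ind (lam ((α i t.1)⁻¹ x) = some j) *
        (ind (lam ((α i (t.2 : P))⁻¹ ((α i t.1)⁻¹ x)) = none) * F (y j)) ≤
        ind (x ∈ (Finset.univ : Finset (X i))) *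
          F ((wrAct α G t.1 Y * (wrAct α G (t.1 * (t.2 : P)) Y)⁻¹) i x) := by
      intro t
      rw [ind_true (Finset.mem_univ _), one_mul, famc_val, hlam, hlam]
      exact famz_lab y _ _ F hF
    refine le_trans ?_ (mn_mono hY')
    rw [mn_sum]
    have hterm : ∀ j : Fin q, 1 / (16 * (q : ℝ)) * F (y j) ≤
        mn (fun t : P × K => ind (lam ((α i t.1)⁻¹ x) = some j) *
          (ind (lam ((α i (t.2 : P))⁻¹ ((α i t.1)⁻¹ x)) = none) * F (y j))) := by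
      intro j
      rw [mn_prod, mn_comm]
      have h1 : ∀ κ : K, mn (fun g : P => ind (lam ((α i g)⁻¹ x) = some j) *
          (ind (lam ((α i (κ : P))⁻¹ ((α i g)⁻¹ x)) = none) * F (y j))) =
          mn (fun x' : X i => ind (lam x' = some j) *
            (ind (lam ((α i (κ : P))⁻¹ x') = none) * F (y j))) := fun κ =>
        mn_tr (α i) htr x (fun x' => ind (lam x' = some j) *
          (ind (lam ((α i (κ : P))⁻¹ x') = none) * F (y j)))
      have h2 : mn (fun κ : K => mn (fun g : P => ind (lam ((α i g)⁻¹ x) = some j) *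
          (ind (lam ((α i (κ : P))⁻¹ ((α i g)⁻¹ x)) = none) * F (y j)))) =
          mn (fun κ : K => mn (fun x' : X i => ind (lam x' = some j) *
            (ind (lam ((α i (κ : P))⁻¹ x') = none) * F (y j)))) := congrArg mn (funext h1)
      have h3 : mn (fun x' : X i => mn (fun κ : K => ind (lam x' = some j) *
            (ind (lam ((α i (κ : P))⁻¹ x') = none) * F (y j)))) =
          mn (fun p : X i × K => ind (lam p.1 = some j ∧
            lam ((((α i).comp K.subtype) p.2)⁻¹ p.1) = none)) * F (y j) := by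
        rw [mn_prod, ← mn_mul_right]
        refine congrArg mn (funext fun x' => ?_)
        rw [← mn_mul_right]
        refine congrArg mn (funext fun κ => ?_)
        change _ = ind (lam x' = some j ∧ lam ((α i (κ : P))⁻¹ x') = none) * F (y j)
        rw [ind_and, mul_assoc]
      refine le_of_le_of_eq ?_ (h2.trans ((mn_comm _).trans h3)).symm
      exact mul_le_mul_of_nonneg_right (hj j) (hF _)
    refine le_trans (le_of_eq ?_) (Finset.sum_le_sum fun j _ => hterm j)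
    rw [← Finset.mul_sum]
    change 1 / 16 * ((Fintype.card (Fin q) : ℝ)⁻¹ * ∑ j, F (y j)) = _
    rw [Fintype.card_fin]
    have hq' : (q : ℝ) ≠ 0 := by exact_mod_cast hq.ne'
    field_simp
  · intro x _ x' _ _
    exact mn_le fun t => ind_le_one _

/-- One step.

Proof. `fam_step` of V/FamS uses `hα` only through the transitivity on `X i`; copy the proof. -/
theorem fam_step_c {P I : Type} [Group P] [Fintype P] {X : I → Type} [∀ i, Fintype (X i)]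
    (α : ∀ i, P →* Equiv.Perm (X i)) (i : I) (htr : ∀ x y : X i, ∃ p, α i p x = y)
    (G : I → Type) [∀ i, Group (G i)]
    (A : Finset (X i)) {V : Type} [NormedAddCommGroup V] [InnerProductSpace ℂ V]
    (ρ : (∀ i, X i → G i) →* (V ≃ₗᵢ[ℂ] V)) (v : V) {Ψ : (G i → ℝ) → ℝ} {B w p : ℝ}
    (hF : Fam G ρ v i A Ψ B w p) {r : ℕ} (c : Fin r → G i) (Y : ∀ i, X i → G i)
    (U : Finset (X i)) (l : X i → Fin r) (hU1 : ∀ x ∈ U, Y i x = c (l x))
    (hU2 : ∀ x, x ∉ U → Y i x = 1) (θ : ℝ) (hθ : 0 ≤ θ)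
    (hl : ∀ m, θ / (2 * r) ≤ mn (fun x => ind (x ∈ U ∧ l x = m)))
    (hp : ∀ x x' : X i, x ≠ x' →
      mn (fun g : P => ind ((α i g)⁻¹ x ∈ U ∧ (α i g)⁻¹ x' ∈ U)) ≤ 2 * θ ^ 2)
    (B' : ℝ) (hB' : mn (fun g : P => ‖ρ (wrAct α G g Y) v - v‖ ^ 2) ≤ B') :
    Fam G ρ v i A (fun F => Ψ (cav c F)) (8 * B' + 8 * B) (θ / 2 * w) (2 * θ ^ 2 * p) := by
  classical
  obtain ⟨T, iT, nT, W, H, h1, h2, h3, h4, h5⟩ := hF
  refine ⟨P × T, inferInstance, inferInstance, fun s => cm (wrAct α G s.1 Y) (W s.2),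
    fun s => (H s.2).filter (fun x => (α i s.1)⁻¹ x ∈ U), ?_, ?_, ?_, ?_, ?_⟩
  · rintro ⟨g, t⟩ j hj
    funext x
    change cm (wrAct α G g Y j x) (W t j x) = 1
    rw [h1 t j hj]
    exact cm_one_right _
  · rintro ⟨g, t⟩ x hx
    change cm (wrAct α G g Y i x) (W t i x) = 1
    by_cases h : x ∈ H t
    · have h' : (α i g)⁻¹ x ∉ U := fun h' => hx (Finset.mem_filter.2 ⟨h, h'⟩)
      rw [wrAct_apply, hU2 _ h']
      exact cm_one_left _
    · rw [h2 t x h]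
      exact cm_one_right _
  · rw [mn_prod]
    have e1 : mn (fun g : P => mn (fun t : T =>
        ‖ρ (cm (wrAct α G g Y) (W t)) v - v‖ ^ 2)) ≤
        mn (fun g : P => mn (fun t : T =>
          8 * ‖ρ (wrAct α G g Y) v - v‖ ^ 2 + 8 * ‖ρ (W t) v - v‖ ^ 2)) :=
      mn_mono fun g => mn_mono fun t => fams_sq (norm_nonneg _) (fams_norm ρ v _ _)
    refine e1.trans ?_
    have e2 : ∀ g : P, mn (fun t : T =>
          8 * ‖ρ (wrAct α G g Y) v - v‖ ^ 2 + 8 * ‖ρ (W t) v - v‖ ^ 2) =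
        8 * ‖ρ (wrAct α G g Y) v - v‖ ^ 2 + 8 * mn (fun t : T => ‖ρ (W t) v - v‖ ^ 2) := by
      intro g
      rw [mn_add, mn_const, mn_mul_left]
    simp only [e2]
    rw [mn_add, mn_const, mn_mul_left]
    linarith
  · intro x hx F hF0
    have e1 : mn (fun s : P × T => ind (x ∈ (H s.2).filter (fun x => (α i s.1)⁻¹ x ∈ U)) *
        F ((cm (wrAct α G s.1 Y) (W s.2)) i x)) =
        mn (fun t : T => ind (x ∈ H t) * mn (fun y : X i => ind (y ∈ U) *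
          F (cm (Y i y) (W t i x)))) := by
      rw [mn_prod, mn_comm]
      congr 1
      funext t
      rw [← mn_tr (α i) htr x (fun y => ind (y ∈ U) * F (cm (Y i y) (W t i x))), ← mn_mul_left]
      congr 1
      funext g
      change ind (x ∈ (H t).filter (fun x => (α i g)⁻¹ x ∈ U)) *
        F (cm (Y i ((α i g)⁻¹ x)) (W t i x)) = _
      rw [Finset.mem_filter, ind_and, mul_assoc]
    rw [e1]
    have e2 := h4 x hx (cav c F) (fun u => mn_nonneg fun m => hF0 _)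
    have e3 : mn (fun t : T => ind (x ∈ H t) * (θ / 2 * cav c F (W t i x))) ≤
        mn (fun t : T => ind (x ∈ H t) * mn (fun y : X i => ind (y ∈ U) *
          F (cm (Y i y) (W t i x)))) :=
      mn_mono fun t => mul_le_mul_of_nonneg_left
        (fams_low c (Y i) U l hU1 θ hl F hF0 (W t i x)) (ind_nonneg _)
    refine le_trans ?_ e3
    have e4 : mn (fun t : T => ind (x ∈ H t) * (θ / 2 * cav c F (W t i x))) =
        θ / 2 * mn (fun t : T => ind (x ∈ H t) * cav c F (W t i x)) := by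
      rw [← mn_mul_left]
      congr 1
      funext t
      ring
    rw [e4, mul_assoc]
    exact mul_le_mul_of_nonneg_left e2 (by linarith)
  · intro x hx x' hx' hne
    have e1 : mn (fun s : P × T => ind (x ∈ (H s.2).filter (fun x => (α i s.1)⁻¹ x ∈ U) ∧
        x' ∈ (H s.2).filter (fun x => (α i s.1)⁻¹ x ∈ U))) =
        mn (fun g : P => ind ((α i g)⁻¹ x ∈ U ∧ (α i g)⁻¹ x' ∈ U)) *
        mn (fun t : T => ind (x ∈ H t ∧ x' ∈ H t)) := by
      rw [mn_prod, ← mn_mul_right]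
      congr 1
      funext g
      rw [← mn_mul_left]
      congr 1
      funext t
      change ind (x ∈ (H t).filter (fun x => (α i g)⁻¹ x ∈ U) ∧
        x' ∈ (H t).filter (fun x => (α i g)⁻¹ x ∈ U)) = _
      rw [Finset.mem_filter, Finset.mem_filter, ← ind_and]
      congr 1
      apply propext
      tauto
    rw [e1]
    have e2 := hp x x' hne
    have e3 := h5 x hx x' hx' hne
    have e4 : 0 ≤ mn (fun t : T => ind (x ∈ H t ∧ x' ∈ H t)) :=
      mn_nonneg fun t => ind_nonneg _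
    exact mul_le_mul e2 e3 e4 (by positivity)

/-- Five steps.

Proof. As `fam_five` in V/Fam5, with `fam_zero_c`, `fam_step_c`, `fam_end`. -/
theorem fam_five_c {P I : Type} [Group P] [Fintype P] [Finite I] {X : I → Type}
    [∀ i, Fintype (X i)] (α : ∀ i, P →* Equiv.Perm (X i)) (i : I)
    (htr : ∀ x y : X i, ∃ p, α i p x = y) (K : Subgroup P) [Fintype K]
    (G : I → Type) [∀ i, Group (G i)]
    {q : ℕ} (hq : 0 < q) (y : Fin q → G i) (Y₀ : ∀ i, X i → G i)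
    (hK : ∀ κ ∈ K, ∀ j, j ≠ i → ∀ x, Y₀ j ((α j κ)⁻¹ x) = Y₀ j x)
    (hY₀ : Frp ((α i).comp K.subtype) y (Y₀ i))
    {r : ℕ} (c : Fin r → G i) (Y : ∀ i, X i → G i)
    (U : Finset (X i)) (l : X i → Fin r) (hU1 : ∀ x ∈ U, Y i x = c (l x))
    (hU2 : ∀ x, x ∉ U → Y i x = 1) (θ : ℝ) (hθ : 0 ≤ θ)
    (hl : ∀ m, θ / (2 * r) ≤ mn (fun x => ind (x ∈ U ∧ l x = m)))
    (hp : ∀ x x' : X i, x ≠ x' →
      mn (fun g : P => ind ((α i g)⁻¹ x ∈ U ∧ (α i g)⁻¹ x' ∈ U)) ≤ 2 * θ ^ 2)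
    {V : Type} [NormedAddCommGroup V] [InnerProductSpace ℂ V]
    (ρ : (∀ i, X i → G i) →* (V ≃ₗᵢ[ℂ] V)) (v : V) (A : Finset (X i))
    (hfix : ∀ x, x ∉ A → ∀ a, ρ (sgl G i x a) v = v) (δ : ℝ)
    (hδ₀ : mn (fun g : P => ‖ρ (wrAct α G g Y₀) v - v‖ ^ 2) ≤ δ * ‖v‖ ^ 2)
    (hδ : mn (fun g : P => ‖ρ (wrAct α G g Y) v - v‖ ^ 2) ≤ 16 * (δ * ‖v‖ ^ 2)) (m : ℝ)
    (hm : ∀ x ∈ A, m * ‖v‖ ^ 2 ≤
      mn (fun j => (cav c)^[5] (fun u => ‖ρ (sgl G i x u) v - v‖ ^ 2) (y j))) :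
    (A.card : ℝ) * ((θ / 2) ^ 5 / 16 * m - 4 * (A.card : ℝ) * (2 * θ ^ 2) ^ 5) * ‖v‖ ^ 2 ≤
      10 ^ 6 * (δ * ‖v‖ ^ 2) := by
  classical
  have hpos : 0 ≤ δ * ‖v‖ ^ 2 := (mn_nonneg fun g => sq_nonneg _).trans hδ₀
  have f0 := fam_zero_c α i htr K G hq y Y₀ hK hY₀ ρ v (δ * ‖v‖ ^ 2) hδ₀ A
  have f1 := fam_step_c α i htr G A ρ v f0 c Y U l hU1 hU2 θ hθ hl hp (16 * (δ * ‖v‖ ^ 2)) hδ
  have f2 := fam_step_c α i htr G A ρ v f1 c Y U l hU1 hU2 θ hθ hl hp (16 * (δ * ‖v‖ ^ 2)) hδ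
  have f3 := fam_step_c α i htr G A ρ v f2 c Y U l hU1 hU2 θ hθ hl hp (16 * (δ * ‖v‖ ^ 2)) hδ
  have f4 := fam_step_c α i htr G A ρ v f3 c Y U l hU1 hU2 θ hθ hl hp (16 * (δ * ‖v‖ ^ 2)) hδ
  have f5 := fam_step_c α i htr G A ρ v f4 c Y U l hU1 hU2 θ hθ hl hp (16 * (δ * ‖v‖ ^ 2)) hδ
  have hE := fam_end G ρ v i A hfix f5 (by positivity) (by positivity) m hm
  have e1 : θ / 2 * (θ / 2 * (θ / 2 * (θ / 2 * (θ / 2 * (1 / 16))))) = (θ / 2) ^ 5 / 16 := by ring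
  have e2 : 2 * θ ^ 2 * (2 * θ ^ 2 * (2 * θ ^ 2 * (2 * θ ^ 2 * (2 * θ ^ 2 * 1)))) =
      (2 * θ ^ 2) ^ 5 := by ring
  rw [e1, e2] at hE
  refine hE.trans ?_
  generalize δ * ‖v‖ ^ 2 = d at hpos ⊢
  linarith

end Pool.Agent.MPfe8e9bT
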