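import Mathlib
import Pool.Agent.Lib.MP_fe8e9b_al_T.FamC
import Pool.Agent.Lib.MP_fe8e9b_al_T.DnF

/-!
# MP_fe8e9b_al, iterated wreath products with several orbits: the dense case
-/

set_option autoImplicit false

open scoped BigOperators

namespace Pool.Agent.MPfe8e9bT

open Pool.Agent.MPfe8e9b Pool.Agent.MPfe8e9bA Pool.Agent.MPfe8e9bW Pool.Agent.MPfe8e9bV
  Pool.Agent.MPfe8e9bU

/-- The letters of a dense vector.

Proof. `hY` for `B = {x}` (`card X > 0`), `mn_tr`: the frequency is at least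
`(1 - ε) / (2 q) ≥ 3 / (8 q)`. -/
theorem dnc_freq {P X : Type} [Group P] [Fintype P] [Fintype X] (α : P →* Equiv.Perm X)
    (htr : ∀ x y : X, ∃ p, α p x = y) {q w : ℕ} (hw : 0 < w) {ε : ℝ} (hε : ε ≤ 1 / 4)
    (ω : X → Bool × Fin q)
    (h : ∀ B : Finset X, B.card ≤ w → ∀ π : X → Bool × Fin q,
      |mn (fun σ : P => ind (∀ x ∈ B, ω ((α σ)⁻¹ x) = π x)) - ((2 * (q : ℝ)) ^ B.card)⁻¹| ≤
        ε * ((2 * (q : ℝ)) ^ B.card)⁻¹) (x₀ : X) (o : Bool × Fin q) :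
    3 / 4 / (2 * (q : ℝ)) ≤ mn (fun x => ind (ω x = o)) := by
  classical
  have h1 := h {x₀} (by rw [Finset.card_singleton]; exact hw) (fun _ => o)
  rw [Finset.card_singleton, pow_one] at h1
  have h2 : mn (fun σ : P => ind (∀ x ∈ ({x₀} : Finset X), ω ((α σ)⁻¹ x) = o)) =
      mn (fun x => ind (ω x = o)) := by
    rw [← mn_tr α htr x₀ (fun x => ind (ω x = o))]
    refine congrArg mn (funext fun σ => congrArg ind (propext ?_))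
    exact ⟨fun hx => hx x₀ (Finset.mem_singleton_self x₀), fun hx x hx' => by
      rw [Finset.mem_singleton.1 hx']
      exact hx⟩
  rw [h2] at h1
  have h3 : 0 ≤ (2 * (q : ℝ))⁻¹ := by positivity
  have h4 := (abs_le.1 h1).1
  have h5 : ε * (2 * (q : ℝ))⁻¹ ≤ 1 / 4 * (2 * (q : ℝ))⁻¹ := mul_le_mul_of_nonneg_right hε h3
  rw [div_eq_mul_inv (3 / 4 : ℝ)]
  linarith

/-- The dense case.

Proof. `0 < card A ≤ w`. `fam_zero_c` for `Y₀` with `δ`, then four times `fam_step_c` with the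
vector `Y₁`, `c = y`, `U = {x | (ω x).1 = true}`, `l x = (ω x).2`, `θ = 3/4` (`dnc_freq`; the pair
bound is trivial since `2 * (3/4) ^ 2 ≥ 1`), `B' = δ`: `B` is `4 δ`, `40 δ`, `328 δ`, `2632 δ`,
`21064 δ`, the weight is `(3/8) ^ 4 / 16`, the functional is `F ↦ mn_j (cav y)^[4] F (y j)`. Then
`dnf_end` for `Y₁` and a point `x₀ ∈ A` (`(cav y)^[4] (cav y f) = (cav y)^[5] f`):
`((3/8) ^ 4 / 64 * m - 2 ε) ‖v‖ ^ 2 ≤ 8 δ + 8 * 21064 δ ≤ 10 ^ 6 δ` and `(3/8) ^ 4 / 64 ≥ 1 / 2 ^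
12` (`m ≥ 0`). -/
theorem dns_case {P I : Type} [Group P] [Fintype P] [Finite I] {X : I → Type}
    [∀ i, Fintype (X i)] (α : ∀ i, P →* Equiv.Perm (X i)) (i : I)
    (htr : ∀ x y : X i, ∃ p, α i p x = y) (K : Subgroup P) [Fintype K]
    (G : I → Type) [∀ i, Group (G i)]
    {q : ℕ} (hq : 0 < q) (y : Fin q → G i) (Y₀ : ∀ i, X i → G i)
    (hK : ∀ κ ∈ K, ∀ j, j ≠ i → ∀ x, Y₀ j ((α j κ)⁻¹ x) = Y₀ j x)
    (hY₀ : Frp ((α i).comp K.subtype) y (Y₀ i)) (w : ℕ) (Y₁ : ∀ i, X i → G i) {ε : ℝ}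
    (hε : ε ≤ 1 / 4) (hY₁ : DnsE ε (α i) y w (Y₁ i))
    {V : Type} [NormedAddCommGroup V] [InnerProductSpace ℂ V]
    (ρ : (∀ i, X i → G i) →* (V ≃ₗᵢ[ℂ] V)) (v : V) (A : Finset (X i)) (hA : A.Nonempty)
    (hAw : A.card ≤ w) (hfix : ∀ x, x ∉ A → ∀ a, ρ (sgl G i x a) v = v) (δ : ℝ)
    (hδ₀ : mn (fun g : P => ‖ρ (wrAct α G g Y₀) v - v‖ ^ 2) ≤ δ)
    (hδ₁ : mn (fun g : P => ‖ρ (wrAct α G g Y₁) v - v‖ ^ 2) ≤ δ) (m : ℝ) (hm0 : 0 ≤ m)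
    (hm : ∀ x ∈ A, m * ‖v‖ ^ 2 ≤
      mn (fun j => (cav y)^[5] (fun u => ‖ρ (sgl G i x u) v - v‖ ^ 2) (y j))) :
    (m / 2 ^ 12 - 2 * ε) * ‖v‖ ^ 2 ≤ 10 ^ 6 * δ := by
  classical
  obtain ⟨x₀, hx₀⟩ := hA
  have hw : 0 < w := lt_of_lt_of_le (Finset.card_pos.2 ⟨x₀, hx₀⟩) hAw
  have hpos : 0 ≤ δ := (mn_nonneg fun g => sq_nonneg _).trans hδ₀
  have hY₁' := hY₁
  obtain ⟨ω, hω, hp⟩ := hY₁'
  have hU1 : ∀ x ∈ (Finset.univ.filter fun x => (ω x).1 = true), Y₁ i x = y (ω x).2 := by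
    intro x hx
    rw [hω x, if_pos (Finset.mem_filter.1 hx).2]
  have hU2 : ∀ x, x ∉ (Finset.univ.filter fun x => (ω x).1 = true) → Y₁ i x = 1 := by
    intro x hx
    rw [hω x, if_neg fun hx' => hx (Finset.mem_filter.2 ⟨Finset.mem_univ x, hx'⟩)]
  have hl : ∀ j : Fin q, (3 / 4 : ℝ) / (2 * (q : ℝ)) ≤
      mn (fun x => ind (x ∈ (Finset.univ.filter fun x => (ω x).1 = true) ∧ (ω x).2 = j)) := by
    intro j
    refine (dnc_freq (α i) htr hw hε ω hp x₀ (true, j)).trans (mn_mono fun x => ind_mono ?_)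
    intro hx
    refine ⟨Finset.mem_filter.2 ⟨Finset.mem_univ x, ?_⟩, ?_⟩
    · rw [hx]
    · rw [hx]
  have hp' : ∀ x x' : X i, x ≠ x' →
      mn (fun g : P => ind ((α i g)⁻¹ x ∈ (Finset.univ.filter fun x => (ω x).1 = true) ∧
        (α i g)⁻¹ x' ∈ (Finset.univ.filter fun x => (ω x).1 = true))) ≤ 2 * (3 / 4) ^ 2 :=
    fun x x' _ => (mn_le fun g => ind_le_one _).trans (by norm_num)
  have f0 := fam_zero_c α i htr K G hq y Y₀ hK hY₀ ρ v δ hδ₀ A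
  have f1 := fam_step_c α i htr G A ρ v f0 y Y₁ _ (fun x => (ω x).2) hU1 hU2 (3 / 4)
    (by norm_num) hl hp' δ hδ₁
  have f2 := fam_step_c α i htr G A ρ v f1 y Y₁ _ (fun x => (ω x).2) hU1 hU2 (3 / 4)
    (by norm_num) hl hp' δ hδ₁
  have f3 := fam_step_c α i htr G A ρ v f2 y Y₁ _ (fun x => (ω x).2) hU1 hU2 (3 / 4)
    (by norm_num) hl hp' δ hδ₁
  have f4 := fam_step_c α i htr G A ρ v f3 y Y₁ _ (fun x => (ω x).2) hU1 hU2 (3 / 4)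
    (by norm_num) hl hp' δ hδ₁
  have hE := dnf_end α G i hq y w Y₁ hY₁ ρ v A hAw hfix f4 (by norm_num) x₀ hx₀ m
    (hm x₀ hx₀) δ hδ₁
  have h1 : m / 2 ^ 12 ≤
      3 / 4 / 2 * (3 / 4 / 2 * (3 / 4 / 2 * (3 / 4 / 2 * (1 / 16)))) * m / 4 := by
    nlinarith
  have h2 : (m / 2 ^ 12 - 2 * ε) * ‖v‖ ^ 2 ≤
      (3 / 4 / 2 * (3 / 4 / 2 * (3 / 4 / 2 * (3 / 4 / 2 * (1 / 16)))) * m / 4 - 2 * ε) *
        ‖v‖ ^ 2 := mul_le_mul_of_nonneg_right (by linarith) (sq_nonneg _)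
  refine h2.trans (hE.trans ?_)
  linarith

end Pool.Agent.MPfe8e9bT
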