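import Mathlib
import Pool.Agent.Lib.MP_fe8e9b_al_T.Defs
import Pool.Agent.Lib.MP_fe8e9b_al_V.LocR

/-!
# MP_fe8e9b_al, iterated wreath products with several orbits: the local lower bound for one
transitive action -/

set_option autoImplicit false

open scoped BigOperators

namespace Pool.Agent.MPfe8e9bT

open Pool.Agent.MPfe8e9b Pool.Agent.MPfe8e9bA Pool.Agent.MPfe8e9bW Pool.Agent.MPfe8e9bV
  Pool.Agent.MPfe8e9bU

/-- At most one label. -/
private theorem locc_sum_le {q : ℕ} (o : Option (Fin q)) (a : ℝ) (ha : 0 ≤ a) :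
    ∑ j : Fin q, ind (o = some j) * a ≤ a := by
  classical
  cases o with
  | none =>
    have h : ∀ j : Fin q, ind ((none : Option (Fin q)) = some j) * a = 0 := fun j => by
      rw [ind_false (by simp), zero_mul]
    rw [Finset.sum_congr rfl fun j _ => h j, Finset.sum_const_zero]
    exact ha
  | some k =>
    have h : ∀ j : Fin q, ind (some k = some j) * a = if k = j then a else 0 := fun j => by
      by_cases hj : k = j
      · rw [ind_true (by rw [hj]), one_mul, if_pos hj]
      · rw [ind_false (by simpa using hj), zero_mul, if_neg hj]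
    rw [Finset.sum_congr rfl fun j _ => h j, Finset.sum_ite_eq, if_pos (Finset.mem_univ _)]

/-- An element of a subset of positive density with small value. -/
private theorem locc_exists {P : Type} [Fintype P] [Nonempty P] (s : P → Prop) (d : P → ℝ)
    (hd : ∀ g, 0 ≤ d g) {b : ℝ} (hb : 0 < b) (hs : 1 / b ≤ mn (fun g => ind (s g))) :
    ∃ g, s g ∧ d g ≤ b * mn (fun g => ind (s g) * d g) := by
  classical
  by_contra hcon
  simp only [not_exists, not_and, not_le] at hcon
  have hm : 0 ≤ mn (fun g => ind (s g) * d g) :=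
    mn_nonneg fun g => mul_nonneg (ind_nonneg _) (hd g)
  have hP : (0 : ℝ) < Fintype.card P := by exact_mod_cast Fintype.card_pos
  have h1 : mn (fun g => ind (s g) * (b * mn (fun g => ind (s g) * d g))) <
      mn (fun g => ind (s g) * d g) := by
    unfold mn
    refine mul_lt_mul_of_pos_left ?_ (inv_pos.2 hP)
    have h3 : ∃ g, s g := by
      by_contra hno
      rw [not_exists] at hno
      have h4 : mn (fun g => ind (s g)) = 0 := by
        unfold mn
        rw [Finset.sum_congr rfl fun g _ => ind_false (hno g), Finset.sum_const_zero, mul_zero]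
      rw [h4] at hs
      exact absurd hs (not_le.2 (by positivity))
    obtain ⟨g₀, hg₀⟩ := h3
    refine Finset.sum_lt_sum (fun g _ => ?_) ⟨g₀, Finset.mem_univ _, ?_⟩
    · by_cases hg : s g
      · rw [ind_true hg, one_mul, one_mul]
        exact (hcon g hg).le
      · rw [ind_false hg, zero_mul, zero_mul]
    · rw [ind_true hg₀, one_mul, one_mul]
      exact hcon g₀ hg₀
  rw [mn_mul_right] at h1
  have h5 : mn (fun g => ind (s g) * d g) ≤
      mn (fun g => ind (s g)) * (b * mn (fun g => ind (s g) * d g)) := by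
    have h6 : 1 / b * (b * mn (fun g => ind (s g) * d g)) ≤
        mn (fun g => ind (s g)) * (b * mn (fun g => ind (s g) * d g)) :=
      mul_le_mul_of_nonneg_right hs (mul_nonneg hb.le hm)
    have h7 : 1 / b * (b * mn (fun g => ind (s g) * d g)) = mn (fun g => ind (s g) * d g) := by
      field_simp
    rw [h7] at h6
    exact h6
  exact absurd h1 (not_lt.2 h5)

/-- An element which is trivial at `(i, x)` commutes with the copy of `G i` there. -/
private theorem locc_comm {I : Type} {X : I → Type} (G : I → Type) [∀ i, Group (G i)] (i : I)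
    (x : X i) (m : ∀ i, X i → G i) (hm : m i x = 1) (a : G i) :
    m * sgl G i x a = sgl G i x a * m := by
  classical
  funext j z
  rw [Pi.mul_apply, Pi.mul_apply, Pi.mul_apply, Pi.mul_apply]
  by_cases hj : j = i
  · subst hj
    by_cases hz : z = x
    · subst hz
      rw [hm, one_mul, mul_one]
    · have h1 : sgl G j x a j z = 1 := by
        simp [sgl, hz]
      rw [h1, one_mul, mul_one]
  · have h1 : sgl G i x a j z = 1 := by
      simp [sgl, hj]
    rw [h1, one_mul, mul_one]

/-- The local lower bound at a coordinate.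

Proof. `loc_r` of V/LocR uses `hα` only through the transitivity on `X i`; copy the proof. -/
theorem loc_r_c {κ₁ : ℝ} (hκ₁ : 0 < κ₁) (hκ₁' : κ₁ ≤ 1) {P I : Type} [Group P] [Fintype P]
    {X : I → Type} [∀ i, Fintype (X i)] (α : ∀ i, P →* Equiv.Perm (X i))
    (G : I → Type) [∀ i, Group (G i)] [∀ i, Fintype (G i)] (i : I)
    (htr : ∀ x y : X i, ∃ p, α i p x = y)
    (hG : commutator (G i) = ⊤) {q : ℕ} (hq : 0 < q) {y : Fin q → G i} (hy : Mix y (1 / 100))
    {L : Type} [Fintype L] {c : L → G i} (hc : PG c κ₁) (Y : ∀ i, X i → G i)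
    (hY : Frq y (Y i)) {V : Type} [NormedAddCommGroup V] [InnerProductSpace ℂ V]
    [FiniteDimensional ℂ V] (ρ : (∀ i, X i → G i) →* (V ≃ₗᵢ[ℂ] V)) (v : V) (x : X i)
    (hx : av (ρ.comp (sgl G i x)) v = 0)
    (h1 : 4 * mn (fun g : P => ‖ρ (wrAct α G g Y) v - v‖ ^ 2) ≤
      mu κ₁ ^ 4 / 10 ^ 5 * ‖v‖ ^ 2) :
    mu κ₁ / 2 * ‖v‖ ^ 2 ≤
      mn (fun j => (cav c)^[5] (fun u => ‖ρ (sgl G i x u) v - v‖ ^ 2) (y j)) := by
  classical
  obtain ⟨lam, hl1, hl2, -⟩ := hY
  have : Nonempty (Fin q) := ⟨⟨0, hq⟩⟩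
  have : Nonempty P := ⟨1⟩
  have hqr : (0 : ℝ) < q := by exact_mod_cast hq
  set d : P → ℝ := fun g => ‖ρ (wrAct α G g Y) v - v‖ ^ 2 with hd
  have hd0 : ∀ g, 0 ≤ d g := fun g => sq_nonneg _
  have h2 : ∀ j : Fin q, ∃ g : P, lam ((α i g)⁻¹ x) = some j ∧
      d g ≤ 4 * q * mn (fun g : P => ind (lam ((α i g)⁻¹ x) = some j) * d g) := by
    intro j
    refine locc_exists (fun g : P => lam ((α i g)⁻¹ x) = some j) d hd0 (b := 4 * q)
      (by positivity) ?_
    rw [mn_tr (α i) htr x (fun z => ind (lam z = some j))]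
    exact hl2 j
  choose g hg1 hg2 using h2
  let m : Fin q → (∀ i, X i → G i) := fun j => (sgl G i x (y j))⁻¹ * wrAct α G (g j) Y
  have hsgl : ∀ b : G i, sgl G i x b i x = b := fun b => by simp [sgl]
  have hm : ∀ j, m j i x = 1 := by
    intro j
    change ((sgl G i x (y j)) i x)⁻¹ * wrAct α G (g j) Y i x = 1
    rw [wrAct_apply, hl1, hg1, hsgl]
    exact inv_mul_cancel (y j)
  have hmul : ∀ j, m j * sgl G i x (y j) = wrAct α G (g j) Y := by
    intro j
    rw [locc_comm G i x (m j) (hm j)]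
    exact mul_inv_cancel_left _ _
  have hinv : ∀ j, (m j)⁻¹ i x = 1 := fun j => by
    rw [Pi.inv_apply, Pi.inv_apply, hm, inv_one]
  refine loc_t hκ₁ hκ₁' hG hc hy (ρ.comp (sgl G i x)) (fun j => ρ (m j)⁻¹) ?_ v hx ?_
  · intro j a u
    have h3 : ρ ((m j)⁻¹ * sgl G i x a) u = ρ (sgl G i x a * (m j)⁻¹) u := by
      rw [locc_comm G i x _ (hinv j)]
    rw [map_mul, map_mul] at h3
    exact h3
  · have h4 : ∀ j, ‖(ρ.comp (sgl G i x)) (y j) v - ρ (m j)⁻¹ v‖ ^ 2 = d (g j) := by
      intro j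
      have h5 : ρ (m j) (ρ (sgl G i x (y j)) v - ρ (m j)⁻¹ v) =
          ρ (wrAct α G (g j) Y) v - v := by
        rw [map_sub]
        have happ : ∀ (a b : ∀ i, X i → G i) (u : V), ρ (a * b) u = ρ a (ρ b u) := by
          intro a b u
          rw [map_mul]
          rfl
        have h6 := (happ (m j) (sgl G i x (y j)) v).symm
        have h7 := (happ (m j) (m j)⁻¹ v).symm
        rw [h6, h7, hmul, mul_inv_cancel, map_one]
        rfl
      change ‖ρ (sgl G i x (y j)) v - ρ (m j)⁻¹ v‖ ^ 2 = ‖ρ (wrAct α G (g j) Y) v - v‖ ^ 2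
      rw [← h5, LinearIsometryEquiv.norm_map]
    rw [show (fun j => ‖(ρ.comp (sgl G i x)) (y j) v - ρ (m j)⁻¹ v‖ ^ 2) = fun j => d (g j) from
      funext h4]
    refine le_trans ?_ h1
    have h8 : mn (fun j => d (g j)) ≤ mn (fun j : Fin q =>
        4 * q * mn (fun g : P => ind (lam ((α i g)⁻¹ x) = some j) * d g)) := mn_mono hg2
    refine h8.trans ?_
    rw [mn_mul_left, mn_comm]
    have h9 : mn (fun g : P => mn (fun j : Fin q => ind (lam ((α i g)⁻¹ x) = some j) * d g)) ≤
        mn (fun g : P => (q : ℝ)⁻¹ * d g) := by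
      refine mn_mono fun g => ?_
      unfold mn
      rw [Fintype.card_fin]
      exact mul_le_mul_of_nonneg_left (locc_sum_le _ _ (hd0 g)) (inv_nonneg.2 hqr.le)
    refine (mul_le_mul_of_nonneg_left h9 (by positivity)).trans ?_
    rw [mn_mul_left]
    have h10 : 4 * (q : ℝ) * ((q : ℝ)⁻¹ * mn d) = 4 * mn d := by
      field_simp
    exact h10.le

end Pool.Agent.MPfe8e9bT
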