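import Mathlib
import Pool.Agent.Lib.MP_fe8e9b_al_T.DnC
import Pool.Agent.Lib.MP_fe8e9b_al_T.LocC
import Pool.Agent.Lib.MP_fe8e9b_al_V.CmlB
import Pool.Agent.Lib.MP_fe8e9b_al_V.Loc3

/-!
# MP_fe8e9b_al, iterated wreath products with several orbits: the main local inequality
-/

set_option autoImplicit false

open scoped BigOperators

namespace Pool.Agent.MPfe8e9bT

open Pool.Agent.MPfe8e9b Pool.Agent.MPfe8e9bA Pool.Agent.MPfe8e9bW Pool.Agent.MPfe8e9bV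
  Pool.Agent.MPfe8e9bU

/-- The constant. -/
noncomputable def cstC (D M : ℕ) : ℝ :=
  2 ^ 14 * 10 ^ 6 / mu (1 / 1024) + 4 * 10 ^ 5 / mu (1 / 1024) ^ 4 +
    2 ^ 11 * 10 ^ 6 * (M : ℝ) * (D : ℝ) ^ 5 / mu (1 / 1024)

/-- The displacement of a commutator. -/
private theorem loc3c_cm {H V : Type} [Group H] [NormedAddCommGroup V] [InnerProductSpace ℂ V]
    (ρ : H →* (V ≃ₗᵢ[ℂ] V)) (v : V) (a b : H) :
    ‖ρ (cm a b) v - v‖ ^ 2 ≤ 8 * ‖ρ a v - v‖ ^ 2 + 8 * ‖ρ b v - v‖ ^ 2 := by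
  have happ : ∀ (g h : H) (u : V), ρ (g * h) u = ρ g (ρ h u) := fun g h u => by
    rw [map_mul]
    rfl
  have hab : ρ (a * b) v = ρ (cm a b) (ρ (b * a) v) := by
    have h0 : a * b = cm a b * (b * a) := by
      simp only [cm]
      group
    conv_lhs => rw [h0]
    exact happ _ _ _
  have h1 : ‖ρ (cm a b) v - v‖ ≤ ‖ρ (b * a) v - v‖ + ‖ρ (a * b) v - v‖ := by
    have e : ρ (cm a b) v - v = ρ (cm a b) (v - ρ (b * a) v) + (ρ (a * b) v - v) := by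
      rw [map_sub, hab]
      abel
    rw [e]
    refine (norm_add_le _ _).trans ?_
    rw [LinearIsometryEquiv.norm_map, norm_sub_rev]
  have h2 : ∀ g h : H, ‖ρ (g * h) v - v‖ ≤ ‖ρ h v - v‖ + ‖ρ g v - v‖ := by
    intro g h
    have e : ρ (g * h) v - v = ρ g (ρ h v - v) + (ρ g v - v) := by
      rw [happ, map_sub]
      abel
    rw [e]
    refine (norm_add_le _ _).trans ?_
    rw [LinearIsometryEquiv.norm_map]
  have h3 := h2 a b
  have h4 := h2 b a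
  have h5 : ‖ρ (cm a b) v - v‖ ≤ 2 * ‖ρ a v - v‖ + 2 * ‖ρ b v - v‖ := by linarith
  have h6 : ‖ρ (cm a b) v - v‖ ^ 2 ≤ (2 * ‖ρ a v - v‖ + 2 * ‖ρ b v - v‖) ^ 2 :=
    pow_le_pow_left₀ (norm_nonneg _) h5 2
  nlinarith [sq_nonneg (‖ρ a v - v‖ - ‖ρ b v - v‖)]

/-- The arithmetic at the end. -/
private theorem loc3c_arith {μ D n θ S N : ℝ} {a : ℕ} (hμ : 0 < μ) (hD : 0 < D)
    (hD5 : 2 ^ 23 ≤ μ * D ^ 5) (hθ : θ = 1 / (D * 2 ^ a)) (h1 : (32 : ℝ) ^ a ≤ n)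
    (h2 : n ≤ 32 ^ (a + 1)) (hN : 0 < N)
    (h : n * ((θ / 2) ^ 5 / 16 * (μ / 2) - 4 * n * (2 * θ ^ 2) ^ 5) * N ≤ 10 ^ 6 * S) :
    N ≤ 2 ^ 11 * 10 ^ 6 * D ^ 5 / μ * S := by
  have hD5' : (0 : ℝ) < D ^ 5 := by positivity
  set s : ℝ := n * θ ^ 5 with hs
  have hθ5 : θ ^ 5 = 1 / (D ^ 5 * 32 ^ a) := by
    rw [hθ, div_pow, one_pow, mul_pow, ← pow_mul, mul_comm a 5, pow_mul]
    norm_num
  have h32 : (0 : ℝ) < 32 ^ a := by positivity
  have hs1 : 1 / D ^ 5 ≤ s := by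
    rw [hs, hθ5, mul_one_div, div_le_div_iff₀ hD5' (by positivity)]
    nlinarith
  have hs2 : s ≤ 32 / D ^ 5 := by
    rw [hs, hθ5, mul_one_div, div_le_div_iff₀ (by positivity) hD5']
    rw [pow_succ] at h2
    nlinarith
  have hs3 : 128 * s ≤ μ / 2048 := by
    have h3 : 128 * (32 / D ^ 5) ≤ μ / 2048 := by
      rw [← mul_div_assoc, div_le_div_iff₀ hD5' (by norm_num)]
      linarith
    linarith
  have hs0 : 0 < s := lt_of_lt_of_le (by positivity) hs1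
  have h4 : n * ((θ / 2) ^ 5 / 16 * (μ / 2) - 4 * n * (2 * θ ^ 2) ^ 5) =
      s * μ / 1024 - 128 * s ^ 2 := by
    rw [hs]
    ring
  rw [h4] at h
  have h5 : μ / (2048 * D ^ 5) ≤ s * μ / 1024 - 128 * s ^ 2 := by
    have h6 : s * (μ / 2048) ≤ s * μ / 1024 - 128 * s ^ 2 := by nlinarith
    have h7 : μ / (2048 * D ^ 5) = 1 / D ^ 5 * (μ / 2048) := by
      field_simp
    rw [h7]
    exact (mul_le_mul_of_nonneg_right hs1 (by positivity)).trans h6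
  have h8 : μ / (2048 * D ^ 5) * N ≤ 10 ^ 6 * S :=
    (mul_le_mul_of_nonneg_right h5 hN.le).trans h
  have h9 : N = 2048 * D ^ 5 / μ * (μ / (2048 * D ^ 5) * N) := by
    field_simp
  rw [h9]
  refine (mul_le_mul_of_nonneg_left h8 (by positivity)).trans (le_of_eq ?_)
  ring

/-- The displacement of a product. -/
private theorem loc3c_list {H V : Type} [Group H] [NormedAddCommGroup V] [InnerProductSpace ℂ V]
    (ρ : H →* (V ≃ₗᵢ[ℂ] V)) (v : V) (L : List H) :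
    ‖ρ L.prod v - v‖ ≤ (L.map fun a => ‖ρ a v - v‖).sum := by
  induction L with
  | nil => simp
  | cons a L ih =>
    rw [List.prod_cons, List.map_cons, List.sum_cons]
    have e : ρ (a * L.prod) v - v = ρ a (ρ L.prod v - v) + (ρ a v - v) := by
      have happ : ρ (a * L.prod) v = ρ a (ρ L.prod v) := by
        rw [map_mul]
        rfl
      rw [happ, map_sub]
      abel
    rw [e]
    refine (norm_add_le _ _).trans ?_
    rw [LinearIsometryEquiv.norm_map]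
    linarith

/-- The displacement of a product of `M` elements. -/
private theorem loc3c_ofFn {H V : Type} [Group H] [NormedAddCommGroup V] [InnerProductSpace ℂ V]
    (ρ : H →* (V ≃ₗᵢ[ℂ] V)) (v : V) {M : ℕ} (F : Fin M → H) :
    ‖ρ (List.ofFn F).prod v - v‖ ^ 2 ≤ (M : ℝ) * ∑ j, ‖ρ (F j) v - v‖ ^ 2 := by
  have h1 := loc3c_list ρ v (List.ofFn F)
  have h2 : ((List.ofFn F).map fun a => ‖ρ a v - v‖).sum = ∑ j, ‖ρ (F j) v - v‖ := by
    rw [List.map_ofFn, List.sum_ofFn]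
    rfl
  rw [h2] at h1
  have h3 : ‖ρ (List.ofFn F).prod v - v‖ ^ 2 ≤ (∑ j, ‖ρ (F j) v - v‖) ^ 2 :=
    pow_le_pow_left₀ (norm_nonneg _) h1 2
  refine h3.trans ?_
  have h4 := sq_sum_le_card_mul_sum_sq (s := (Finset.univ : Finset (Fin M)))
    (f := fun j => ‖ρ (F j) v - v‖)
  rwa [Finset.card_univ, Fintype.card_fin] at h4

/-- The sum over one level. -/
private theorem loc3c_sum {M : ℕ} (f : TI M → ℝ) (hf : ∀ t, 0 ≤ f t) (e : Fin 2) :
    ∑ j : Fin M, f (Sum.inr ((false, e), j)) + ∑ j : Fin M, f (Sum.inr ((true, e), j)) ≤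
      ∑ t, f t := by
  let g : Bool × Fin M → TI M := fun p => Sum.inr ((p.1, e), p.2)
  have hg : Function.Injective g := by
    intro p p' h
    have h1 := Sum.inr_injective h
    have h2 := (Prod.mk.inj h1).2
    have h3 := (Prod.mk.inj (Prod.mk.inj h1).1).1
    exact Prod.ext h3 h2
  have h1 : ∑ p : Bool × Fin M, f (g p) ≤ ∑ t, f t := by
    refine (Finset.sum_map Finset.univ ⟨g, hg⟩ f).symm.le.trans ?_
    exact Finset.sum_le_univ_sum_of_nonneg hf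
  rw [Fintype.sum_prod_type, Fintype.sum_bool] at h1
  rw [add_comm]
  exact h1

/-- The main local inequality.

Proof. As `loc3_m` in U/Loc3M (copy the private lemmas), for one index `i`, with `loc_r_c`
(`Frp.frq`), `fam_five_c`; the pair bound of `LvlM` is already for `P`. If `card A ≤ w`: `dns_case`
with `m = mu (1/1024) / 2`, `ε = eps0`, `δ = S` gives
`mu / 2 ^ 14 * ‖v‖ ^ 2 = (mu / 2 ^ 13 - 2 * mu / 2 ^ 15) * ‖v‖ ^ 2 ≤ 10 ^ 6 * S`. -/
theorem loc3_c {D M : ℕ} (hD : 0 < D) (hM : 0 < M)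
    (hD5 : 2 ^ 23 ≤ mu (1 / 1024) * (D : ℝ) ^ 5) {P I : Type} [Group P] [Fintype P] [Finite I]
    {X : I → Type} [∀ i, Fintype (X i)] (α : ∀ i, P →* Equiv.Perm (X i))
    (G : I → Type) [∀ i, Group (G i)] [∀ i, Fintype (G i)] (i : I)
    (htr : ∀ x y : X i, ∃ p, α i p x = y)
    (hG : commutator (G i) = ⊤) (K : Subgroup P) [Fintype K] (Y : TI M → ∀ i, X i → G i)
    (hK : ∀ κ ∈ K, ∀ j, j ≠ i → ∀ x, Y (Sum.inl false) j ((α j κ)⁻¹ x) = Y (Sum.inl false) j x)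
    (hY : GoodC (α i) K eps0 D M (fun t => Y t i)) {V : Type}
    [NormedAddCommGroup V] [InnerProductSpace ℂ V] [FiniteDimensional ℂ V]
    (ρ : (∀ i, X i → G i) →* (V ≃ₗᵢ[ℂ] V)) (v : V)
    (hv : ∀ x : X i, av (ρ.comp (sgl G i x)) v = 0 ∨ av (ρ.comp (sgl G i x)) v = v)
    (hx : ∃ x : X i, av (ρ.comp (sgl G i x)) v = 0) :
    ‖v‖ ^ 2 ≤ cstC D M * ∑ t, mn (fun g : P => ‖ρ (wrAct α G g (Y t)) v - v‖ ^ 2) := by
  classical
  set κ₁ : ℝ := 1 / 1024 with hκd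
  have hκ₁ : 0 < κ₁ := by
    rw [hκd]
    norm_num
  have hκ₁' : κ₁ ≤ 1 := by
    rw [hκd]
    norm_num
  have hμ : 0 < mu κ₁ := by
    unfold mu
    positivity
  have hDr : (0 : ℝ) < D := by exact_mod_cast hD
  have hMr : (0 : ℝ) < M := by exact_mod_cast hM
  have hM1 : (1 : ℝ) ≤ M := by exact_mod_cast hM
  have : Nonempty P := ⟨1⟩
  set f : TI M → ℝ := fun t => mn (fun g : P => ‖ρ (wrAct α G g (Y t)) v - v‖ ^ 2) with hf
  set S : ℝ := ∑ t, f t with hS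
  have hSt0 : ∀ t, 0 ≤ f t := fun t => mn_nonneg fun g => sq_nonneg _
  have hSt : ∀ t, f t ≤ S := fun t =>
    Finset.single_le_sum (f := f) (fun t _ => hSt0 t) (Finset.mem_univ t)
  have hS0 : 0 ≤ S := (hSt0 (Sum.inl false)).trans (hSt (Sum.inl false))
  have hSM : S ≤ M * S := le_mul_of_one_le_left hS0 hM1
  have hc0 : 0 ≤ 2 ^ 14 * 10 ^ 6 / mu κ₁ := by positivity
  have hc1 : 0 ≤ 4 * 10 ^ 5 / mu κ₁ ^ 4 := by positivity
  have hc2 : 0 ≤ 2 ^ 11 * 10 ^ 6 * (M : ℝ) * (D : ℝ) ^ 5 / mu κ₁ := by positivity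
  by_contra hcon
  rw [not_le] at hcon
  have hcst : cstC D M * S = 2 ^ 14 * 10 ^ 6 / mu κ₁ * S + 4 * 10 ^ 5 / mu κ₁ ^ 4 * S +
      2 ^ 11 * 10 ^ 6 * (M : ℝ) * (D : ℝ) ^ 5 / mu κ₁ * S := by
    unfold cstC
    ring
  have hc0S := mul_nonneg hc0 hS0
  have hc1S := mul_nonneg hc1 hS0
  have hc2S := mul_nonneg hc2 hS0
  have hN : 0 < ‖v‖ ^ 2 := by
    refine lt_of_le_of_lt ?_ hcon
    rw [hcst]
    positivity
  obtain ⟨q, w, y, hq, hy, hF, hDn, hLv⟩ := hY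
  have : Nonempty (Fin q) := ⟨⟨0, hq⟩⟩
  have hc : PG y κ₁ := by
    have h := pg_of_mix hG (by norm_num : (0 : ℝ) ≤ 1 / 100) hy 1 one_pos
      (by norm_num : (1 / 100 : ℝ) ^ 1 ≤ 1 / 100)
    have e : 1 / (1024 * ((1 : ℕ) : ℝ) ^ 2) = κ₁ := by
      rw [hκd]
      norm_num
    rwa [e] at h
  let A : Finset (X i) := Finset.univ.filter fun x => av (ρ.comp (sgl G i x)) v = 0
  have hAmem : ∀ x, x ∈ A ↔ av (ρ.comp (sgl G i x)) v = 0 := fun x => by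
    simp [A]
  have hfix : ∀ x, x ∉ A → ∀ a, ρ (sgl G i x a) v = v := by
    intro x hxA a
    rcases hv x with h | h
    · exact absurd ((hAmem x).2 h) hxA
    · exact (av_eq_iff (ρ.comp (sgl G i x))).1 h a
  have hkill : ∀ x ∈ A, av (ρ.comp (sgl G i x)) v = 0 := fun x hxA => (hAmem x).1 hxA
  have hA : A.Nonempty := by
    obtain ⟨x, hx⟩ := hx
    exact ⟨x, (hAmem x).2 hx⟩
  have h4S : 4 * mn (fun g : P => ‖ρ (wrAct α G g (Y (Sum.inl false))) v - v‖ ^ 2) ≤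
      mu κ₁ ^ 4 / 10 ^ 5 * ‖v‖ ^ 2 := by
    have h1 : mn (fun g : P => ‖ρ (wrAct α G g (Y (Sum.inl false))) v - v‖ ^ 2) ≤ S :=
      hSt (Sum.inl false)
    have h2 : 4 * 10 ^ 5 / mu κ₁ ^ 4 * S ≤ ‖v‖ ^ 2 := by
      rw [hcst] at hcon
      linarith
    have h3 : mu κ₁ ^ 4 / 10 ^ 5 * (4 * 10 ^ 5 / mu κ₁ ^ 4 * S) = 4 * S := by
      field_simp
    have h4 := mul_le_mul_of_nonneg_left h2 (show 0 ≤ mu κ₁ ^ 4 / 10 ^ 5 by positivity)
    rw [h3] at h4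
    linarith
  have hloc : ∀ x ∈ A, mu κ₁ / 2 * ‖v‖ ^ 2 ≤
      mn (fun j => (cav y)^[5] (fun u => ‖ρ (sgl G i x u) v - v‖ ^ 2) (y j)) := fun x hxA =>
    loc_r_c hκ₁ hκ₁' α G i htr hG hq hy hc (Y (Sum.inl false)) hF.frq ρ v x (hkill x hxA) h4S
  rcases Nat.lt_or_ge w A.card with hAw | hAw
  swap
  · have hε : eps0 ≤ 1 / 4 := by
      have h1 : eps0 = (1 / 1024 / 2) ^ 5 / 2048 / 2 ^ 15 := rfl
      rw [h1]
      norm_num
    have he : eps0 = mu κ₁ / 2 ^ 15 := rfl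
    have h1 := dns_case α i htr K G hq y (Y (Sum.inl false)) hK hF w (Y (Sum.inl true)) hε hDn
      ρ v A hA hAw hfix S (hSt (Sum.inl false)) (hSt (Sum.inl true)) (mu κ₁ / 2)
      (by positivity) hloc
    have h2 : (mu κ₁ / 2 / 2 ^ 12 - 2 * eps0) = mu κ₁ / 2 ^ 14 := by
      rw [he]
      ring
    rw [h2] at h1
    have h3 : 2 ^ 14 / mu κ₁ * (mu κ₁ / 2 ^ 14 * ‖v‖ ^ 2) = ‖v‖ ^ 2 := by
      field_simp
    have h4 := mul_le_mul_of_nonneg_left h1 (show 0 ≤ 2 ^ 14 / mu κ₁ by positivity)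
    rw [h3] at h4
    have h5 : 2 ^ 14 / mu κ₁ * (10 ^ 6 * S) = 2 ^ 14 * 10 ^ 6 / mu κ₁ * S := by ring
    rw [h5] at h4
    rw [hcst] at hcon
    linarith
  have hA0 : A.card ≠ 0 := by
    have := hA.card_pos
    omega
  obtain ⟨a, ha1, ha2⟩ : ∃ a : ℕ, 32 ^ a ≤ A.card ∧ A.card < 32 ^ (a + 1) :=
    ⟨Nat.log 32 A.card, Nat.pow_log_le_self 32 hA0, Nat.lt_pow_succ_log_self (by norm_num) _⟩
  have hAX : A.card ≤ Fintype.card (X i) := Finset.card_le_univ A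
  obtain ⟨e, h, U, l, hU1, hU2, hl, hp⟩ := hLv a (hAw.trans ha2) (ha1.trans hAX)
  have hθ : (0 : ℝ) ≤ 1 / ((D : ℝ) * 2 ^ a) := by positivity
  let F : Fin M → ∀ j, X j → G j := fun j =>
    cm (Y (Sum.inr ((false, e), j))) (wrAct α G h (Y (Sum.inr ((true, e), j))))
  let Y' : ∀ j, X j → G j := (List.ofFn F).prod
  have hYx : ∀ x, Y' i x = (List.ofFn fun j => cm (Y (Sum.inr ((false, e), j)) i x)
      (Y (Sum.inr ((true, e), j)) i ((α i h)⁻¹ x))).prod := by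
    intro x
    have h1 := map_list_prod ((Pi.evalMonoidHom (fun _ : X i => G i) x).comp
      (Pi.evalMonoidHom (fun j => X j → G j) i)) (List.ofFn F)
    rw [List.map_ofFn] at h1
    exact h1
  have hY' : mn (fun g : P => ‖ρ (wrAct α G g Y') v - v‖ ^ 2) ≤ 16 * (M * S) := by
    have h1 : ∀ g : P, ‖ρ (wrAct α G g Y') v - v‖ ^ 2 ≤
        M * ∑ j, (8 * ‖ρ (wrAct α G g (Y (Sum.inr ((false, e), j)))) v - v‖ ^ 2 +
          8 * ‖ρ (wrAct α G (g * h) (Y (Sum.inr ((true, e), j)))) v - v‖ ^ 2) := by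
      intro g
      have h2 : wrAct α G g Y' = (List.ofFn fun j =>
          cm (wrAct α G g (Y (Sum.inr ((false, e), j))))
            (wrAct α G (g * h) (Y (Sum.inr ((true, e), j))))).prod := by
        have h3 := map_list_prod (wrAct α G g) (List.ofFn F)
        rw [List.map_ofFn] at h3
        refine h3.trans ?_
        refine congrArg (fun L : List (∀ j, X j → G j) => L.prod) ?_
        refine congrArg List.ofFn (funext fun j => ?_)
        simp only [F, Function.comp_apply, cm, map_mul, map_inv]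
        rfl
      rw [h2]
      refine (loc3c_ofFn ρ v _).trans ?_
      refine mul_le_mul_of_nonneg_left (Finset.sum_le_sum fun j _ => ?_) hMr.le
      exact loc3c_cm ρ v _ _
    refine (mn_mono h1).trans ?_
    rw [mn_mul_left, mn_sum]
    have h3 : ∀ j : Fin M,
        mn (fun g : P => 8 * ‖ρ (wrAct α G g (Y (Sum.inr ((false, e), j)))) v - v‖ ^ 2 +
          8 * ‖ρ (wrAct α G (g * h) (Y (Sum.inr ((true, e), j)))) v - v‖ ^ 2) =
        8 * f (Sum.inr ((false, e), j)) + 8 * f (Sum.inr ((true, e), j)) := by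
      intro j
      rw [mn_add, mn_mul_left, mn_mul_left]
      have h4 : mn (fun g : P =>
          ‖ρ (wrAct α G (g * h) (Y (Sum.inr ((true, e), j)))) v - v‖ ^ 2) =
          f (Sum.inr ((true, e), j)) :=
        mn_equiv (Equiv.mulRight h)
          (fun g : P => ‖ρ (wrAct α G g (Y (Sum.inr ((true, e), j)))) v - v‖ ^ 2)
      rw [h4]
    rw [Finset.sum_congr rfl fun j _ => h3 j, Finset.sum_add_distrib, ← Finset.mul_sum,
      ← Finset.mul_sum]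
    have h5 := loc3c_sum f hSt0 e
    have h6 : 8 * ∑ j : Fin M, f (Sum.inr ((false, e), j)) +
        8 * ∑ j : Fin M, f (Sum.inr ((true, e), j)) ≤ 16 * S := by linarith
    have h7 := mul_le_mul_of_nonneg_left h6 hMr.le
    linarith
  have hSN : M * S / ‖v‖ ^ 2 * ‖v‖ ^ 2 = M * S := div_mul_cancel₀ _ hN.ne'
  have h0 : mn (fun g : P => ‖ρ (wrAct α G g (Y (Sum.inl false))) v - v‖ ^ 2) ≤ M * S :=
    (hSt (Sum.inl false)).trans hSM
  have hU1' : ∀ x ∈ U, Y' i x = y (l x) := fun x hx => (hYx x).trans (hU1 x hx)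
  have hU2' : ∀ x, x ∉ U → Y' i x = 1 := by
    intro x hx
    rw [hYx x]
    have h1 : (List.ofFn fun j => cm (Y (Sum.inr ((false, e), j)) i x)
        (Y (Sum.inr ((true, e), j)) i ((α i h)⁻¹ x))) = List.ofFn fun _ : Fin M => 1 :=
      congrArg List.ofFn (funext fun j => hU2 x hx j)
    rw [h1]
    simp
  have h5 := fam_five_c α i htr K G hq y (Y (Sum.inl false)) hK hF y Y' U l hU1' hU2'
    (1 / ((D : ℝ) * 2 ^ a)) hθ hl hp ρ v A hfix (M * S / ‖v‖ ^ 2)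
    (by rw [hSN]; exact h0) (by rw [hSN]; exact hY') (mu κ₁ / 2) hloc
  rw [hSN] at h5
  have h6 := loc3c_arith hμ hDr hD5 rfl (n := (A.card : ℝ)) (a := a)
    (by exact_mod_cast ha1) (by exact_mod_cast ha2.le) hN h5
  have h7 : 2 ^ 11 * 10 ^ 6 * (D : ℝ) ^ 5 / mu κ₁ * (M * S) =
      2 ^ 11 * 10 ^ 6 * (M : ℝ) * (D : ℝ) ^ 5 / mu κ₁ * S := by ring
  rw [h7] at h6
  rw [hcst] at hcon
  linarith

end Pool.Agent.MPfe8e9bT
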