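import Mathlib
import Pool.Agent.Lib.MP_fe8e9b_al_T.Defs
import Pool.Agent.Lib.MP_fe8e9b_al_V.Mcd

/-!
# MP_fe8e9b_al, iterated wreath products with several orbits: existence of a dense vector with
small relative error -/

set_option autoImplicit false

open scoped BigOperators

namespace Pool.Agent.MPfe8e9bT

open Pool.Agent.MPfe8e9b Pool.Agent.MPfe8e9bA Pool.Agent.MPfe8e9bW Pool.Agent.MPfe8e9bV
  Pool.Agent.MPfe8e9bU

theorem dne_mean0 {X : Type} [Fintype X] [DecidableEq X] (q : ℕ) (hq : 0 < q) (B : Finset X)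
    (π : X → Bool × Fin q) :
    mn (fun ω : X → Bool × Fin q => ind (∀ x ∈ B, ω x = π x)) =
      ((2 * (q : ℝ)) ^ B.card)⁻¹ := by
  classical
  have hq' : (0 : ℝ) < 2 * (q : ℝ) := by positivity
  have h1 : ∀ ω : X → Bool × Fin q, ind (∀ x ∈ B, ω x = π x) =
      ∏ x, (if x ∈ B then ind (ω x = π x) else 1) := by
    intro ω
    by_cases h : ∀ x ∈ B, ω x = π x
    · rw [ind_true h]
      symm
      refine Finset.prod_eq_one fun x _ => ?_
      split_ifs with hx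
      · exact ind_true (h x hx)
      · rfl
    · rw [ind_false h]
      push Not at h
      obtain ⟨x, hx, hx'⟩ := h
      symm
      refine Finset.prod_eq_zero (Finset.mem_univ x) ?_
      rw [if_pos hx, ind_false hx']
  have h2 : ∑ ω : X → Bool × Fin q, ∏ x, (if x ∈ B then ind (ω x = π x) else 1) =
      ∏ x, ∑ a : Bool × Fin q, (if x ∈ B then ind (a = π x) else 1) := by
    rw [Finset.prod_univ_sum, Fintype.piFinset_univ]
  have h3 : ∀ x, ∑ a : Bool × Fin q, (if x ∈ B then ind (a = π x) else 1) =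
      (2 * (q : ℝ)) * (if x ∈ B then (2 * (q : ℝ))⁻¹ else 1) := by
    intro x
    split_ifs with hx
    · rw [mul_inv_cancel₀ hq'.ne', Finset.sum_eq_single (π x)]
      · exact ind_true rfl
      · intro b _ hb
        exact ind_false hb
      · intro h
        exact absurd (Finset.mem_univ _) h
    · simp
  rw [mn]
  simp only [h1]
  rw [h2, Finset.prod_congr rfl fun x _ => h3 x, Finset.prod_mul_distrib, Finset.prod_const,
    Finset.prod_ite_mem, Finset.univ_inter, Finset.prod_const, Finset.card_univ,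
    Fintype.card_fun, Fintype.card_prod, Fintype.card_bool, Fintype.card_fin]
  push_cast
  rw [← mul_assoc, inv_mul_cancel₀ (by positivity), one_mul, inv_pow]

theorem dne_mean {K X : Type} [Group K] [Fintype K] [Fintype X] [DecidableEq X]
    (α : K →* Equiv.Perm X) (q : ℕ) (hq : 0 < q) (B : Finset X) (π : X → Bool × Fin q) :
    mn (fun ω : X → Bool × Fin q =>
      mn (fun σ : K => ind (∀ x ∈ B, ω ((α σ)⁻¹ x) = π x))) = ((2 * (q : ℝ)) ^ B.card)⁻¹ := by
  rw [mn_comm]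
  have h1 : ∀ σ : K, mn (fun ω : X → Bool × Fin q => ind (∀ x ∈ B, ω ((α σ)⁻¹ x) = π x)) =
      ((2 * (q : ℝ)) ^ B.card)⁻¹ := by
    intro σ
    rw [← dne_mean0 q hq B π, ← mn_equiv (Equiv.arrowCongr (α σ) (Equiv.refl (Bool × Fin q)))
      (fun ω : X → Bool × Fin q => ind (∀ x ∈ B, ω x = π x))]
    rfl
  simp only [h1]
  have : Nonempty K := ⟨1⟩
  exact mn_const _

theorem dne_diff {K X : Type} [Group K] [Fintype K] [Fintype X] [DecidableEq X]
    (α : K →* Equiv.Perm X) (htr : ∀ x y : X, ∃ p, α p x = y) (q : ℕ) (B : Finset X)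
    (π : X → Bool × Fin q) (ω : X → Bool × Fin q) (x0 : X) (a : Bool × Fin q) :
    |mn (fun σ : K => ind (∀ x ∈ B, Function.update ω x0 a ((α σ)⁻¹ x) = π x)) -
      mn (fun σ : K => ind (∀ x ∈ B, ω ((α σ)⁻¹ x) = π x))| ≤
      (B.card : ℝ) / Fintype.card X := by
  have h1 : ∀ σ : K, |ind (∀ x ∈ B, Function.update ω x0 a ((α σ)⁻¹ x) = π x) -
      ind (∀ x ∈ B, ω ((α σ)⁻¹ x) = π x)| ≤ ∑ x ∈ B, ind ((α σ)⁻¹ x = x0) := by
    intro σ
    by_cases h : ∃ x ∈ B, (α σ)⁻¹ x = x0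
    · obtain ⟨x, hx, hx'⟩ := h
      have h2 : (1 : ℝ) ≤ ∑ x ∈ B, ind ((α σ)⁻¹ x = x0) := by
        refine le_trans (ind_true hx').ge ?_
        exact Finset.single_le_sum (f := fun x => ind ((α σ)⁻¹ x = x0))
          (fun i _ => ind_nonneg _) hx
      refine le_trans ?_ h2
      have h3 := ind_nonneg (∀ x ∈ B, Function.update ω x0 a ((α σ)⁻¹ x) = π x)
      have h4 := ind_le_one (∀ x ∈ B, Function.update ω x0 a ((α σ)⁻¹ x) = π x)
      have h5 := ind_nonneg (∀ x ∈ B, ω ((α σ)⁻¹ x) = π x)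
      have h6 := ind_le_one (∀ x ∈ B, ω ((α σ)⁻¹ x) = π x)
      rw [abs_le]
      constructor <;> linarith
    · push Not at h
      have h2 : (∀ x ∈ B, Function.update ω x0 a ((α σ)⁻¹ x) = π x) ↔
          (∀ x ∈ B, ω ((α σ)⁻¹ x) = π x) := by
        refine forall₂_congr fun x hx => ?_
        rw [Function.update_of_ne (h x hx)]
      rw [show ind (∀ x ∈ B, Function.update ω x0 a ((α σ)⁻¹ x) = π x) =
        ind (∀ x ∈ B, ω ((α σ)⁻¹ x) = π x) from congrArg ind (propext h2), sub_self, abs_zero]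
      exact Finset.sum_nonneg fun i _ => ind_nonneg _
  have hX : Nonempty X := ⟨x0⟩
  have hn : (Fintype.card X : ℝ) ≠ 0 := by exact_mod_cast Fintype.card_ne_zero
  have h7 : mn (fun σ : K => ∑ x ∈ B, ind ((α σ)⁻¹ x = x0)) =
      (B.card : ℝ) / Fintype.card X := by
    rw [mn_sum B (fun x (σ : K) => ind ((α σ)⁻¹ x = x0))]
    have h8 : ∀ x, mn (fun σ : K => ind ((α σ)⁻¹ x = x0)) = (Fintype.card X : ℝ)⁻¹ := by
      intro x
      rw [mn_tr α htr x (fun y => ind (y = x0)), mn]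
      rw [Finset.sum_eq_single x0, ind_true rfl, mul_one]
      · intro b _ hb
        exact ind_false hb
      · intro h
        exact absurd (Finset.mem_univ _) h
    rw [Finset.sum_congr rfl fun x _ => h8 x, Finset.sum_const, nsmul_eq_mul, div_eq_mul_inv]
  rw [← mn_sub, ← h7, abs_le]
  constructor
  · have h9 := mn_mono (fun σ : K => (neg_le.1 ((neg_le_abs _).trans (h1 σ))))
    have h10 : mn (fun σ : K => -∑ x ∈ B, ind ((α σ)⁻¹ x = x0)) =
        -mn (fun σ : K => ∑ x ∈ B, ind ((α σ)⁻¹ x = x0)) := by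
      have := mn_mul_left (-1) (fun σ : K => ∑ x ∈ B, ind ((α σ)⁻¹ x = x0))
      simpa using this
    rw [← h10]
    exact h9
  · exact mn_mono fun σ => (le_abs_self _).trans (h1 σ)

theorem dne_num {ε : ℝ} (hε : 0 < ε) : ∃ N : ℕ, ∀ n : ℕ, N ≤ n →
    1 ≤ Real.log n ∧ 100 * Real.log n ^ 8 ≤ ε ^ 4 * n := by
  have h0 : 0 < ε ^ 4 / 100 := by positivity
  have h1 := (Real.isLittleO_pow_log_id_atTop (n := 8)).bound h0
  have h2 : ∀ᶠ x : ℝ in Filter.atTop, 1 ≤ Real.log x :=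
    Real.tendsto_log_atTop.eventually_ge_atTop 1
  have h3 : ∀ᶠ n : ℕ in Filter.atTop, 1 ≤ Real.log (n : ℝ) ∧
      100 * Real.log (n : ℝ) ^ 8 ≤ ε ^ 4 * (n : ℝ) := by
    have h4 := tendsto_natCast_atTop_atTop (R := ℝ)
    filter_upwards [h4.eventually h1, h4.eventually h2] with n hn1 hn2
    refine ⟨hn2, ?_⟩
    simp only [id, Real.norm_eq_abs] at hn1
    rw [abs_of_nonneg (by positivity), abs_of_nonneg (by positivity)] at hn1
    linarith
  obtain ⟨N, hN⟩ := Filter.eventually_atTop.1 h3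
  exact ⟨N, fun n hn => hN n hn⟩

theorem dne_tail {ε : ℝ} (hε : 0 < ε) {K X : Type} [Group K] [Fintype K] [Fintype X] [DecidableEq X]
    (α : K →* Equiv.Perm X) (htr : ∀ x y : X, ∃ p, α p x = y) (q w : ℕ) (hq : 0 < q)
    (hqw : (2 * q) ^ (4 * w) ≤ Fintype.card X) (B : Finset X) (hB : B.Nonempty)
    (hBw : B.card ≤ w) (π : X → Bool × Fin q) :
    mn (fun ω : X → Bool × Fin q => ind (¬ (
      |mn (fun σ : K => ind (∀ x ∈ B, ω ((α σ)⁻¹ x) = π x)) - ((2 * (q : ℝ)) ^ B.card)⁻¹| ≤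
        ε * ((2 * (q : ℝ)) ^ B.card)⁻¹))) ≤
      2 * Real.exp (-(ε ^ 2 * Real.sqrt (Fintype.card X) / (2 * (w : ℝ) ^ 2))) := by
  have hX : Nonempty X := ⟨hB.choose⟩
  have hn : (0 : ℝ) < (Fintype.card X : ℝ) := by exact_mod_cast Fintype.card_pos
  have hk : 0 < B.card := hB.card_pos
  have hk' : (0 : ℝ) < (B.card : ℝ) := by exact_mod_cast hk
  have hq' : (0 : ℝ) < 2 * (q : ℝ) := by positivity
  have hq1 : (1 : ℝ) ≤ 2 * (q : ℝ) := by
    have : (1 : ℝ) ≤ (q : ℝ) := by exact_mod_cast hq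
    linarith
  have hΩ : Nonempty (Bool × Fin q) := ⟨(false, ⟨0, hq⟩)⟩
  obtain ⟨f, hf⟩ : ∃ f : (X → Bool × Fin q) → ℝ, f = fun ω =>
    mn (fun σ : K => ind (∀ x ∈ B, ω ((α σ)⁻¹ x) = π x)) := ⟨_, rfl⟩
  obtain ⟨m, hm⟩ : ∃ m : ℝ, m = ((2 * (q : ℝ)) ^ B.card)⁻¹ := ⟨_, rfl⟩
  have hm0 : 0 < m := by rw [hm]; positivity
  have hmf : mn f = m := by rw [hf, hm]; exact dne_mean α q hq B π
  have hb : 0 < (B.card : ℝ) / Fintype.card X := div_pos hk' hn
  have hd : ∀ ω x a, |f (Function.update ω x a) - f ω| ≤ (B.card : ℝ) / Fintype.card X := by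
    intro ω x a
    rw [hf]
    exact dne_diff α htr q B π ω x a
  have h1 := mcd f _ (ε * m) hb (by positivity) hd
  have h2 := mcd_lower f _ (ε * m) hb (by positivity) hd
  rw [hmf] at h1 h2
  have h3 : mn (fun ω : X → Bool × Fin q => ind (¬ (|f ω - m| ≤ ε * m))) ≤
      mn (fun ω => ind (m + ε * m ≤ f ω)) + mn (fun ω => ind (f ω ≤ m - ε * m)) := by
    rw [← mn_add]
    refine mn_mono fun ω => ?_
    by_cases h : |f ω - m| ≤ ε * m
    · rw [ind_false (not_not.2 h)]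
      exact add_nonneg (ind_nonneg _) (ind_nonneg _)
    · rw [ind_true h]
      push Not at h
      rcases lt_abs.1 h with h' | h'
      · rw [ind_true (p := m + ε * m ≤ f ω) (by linarith)]
        have := ind_nonneg (f ω ≤ m - ε * m)
        linarith
      · rw [ind_true (p := f ω ≤ m - ε * m) (by linarith)]
        have := ind_nonneg (m + ε * m ≤ f ω)
        linarith
  have h4 : ε ^ 2 * Real.sqrt (Fintype.card X) / (2 * (w : ℝ) ^ 2) ≤
      (ε * m) ^ 2 / (2 * (Fintype.card X : ℝ) * ((B.card : ℝ) / Fintype.card X) ^ 2) := by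
    have h5 : (ε * m) ^ 2 / (2 * (Fintype.card X : ℝ) *
        ((B.card : ℝ) / Fintype.card X) ^ 2) =
        ε ^ 2 * ((Fintype.card X : ℝ) * m ^ 2) / (2 * (B.card : ℝ) ^ 2) := by
      field_simp
    rw [h5]
    have h6 : Real.sqrt (Fintype.card X) ≤ (Fintype.card X : ℝ) * m ^ 2 := by
      have h7 : ((2 * (q : ℝ)) ^ w) ^ 2 ≤ Real.sqrt (Fintype.card X) := by
        refine Real.le_sqrt_of_sq_le ?_
        have : ((2 * (q : ℝ)) ^ (4 * w)) ≤ (Fintype.card X : ℝ) := by exact_mod_cast hqw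
        calc (((2 * (q : ℝ)) ^ w) ^ 2) ^ 2 = (2 * (q : ℝ)) ^ (4 * w) := by
              rw [← pow_mul, ← pow_mul]
              congr 1
              ring
          _ ≤ _ := this
      have h8 : m⁻¹ ^ 2 ≤ Real.sqrt (Fintype.card X) := by
        refine le_trans ?_ h7
        rw [hm, inv_inv]
        exact pow_le_pow_left₀ (by positivity) (pow_le_pow_right₀ hq1 hBw) 2
      have h9 : Real.sqrt (Fintype.card X) * Real.sqrt (Fintype.card X) = Fintype.card X :=
        Real.mul_self_sqrt hn.le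
      have h10 : 1 ≤ Real.sqrt (Fintype.card X) * m ^ 2 := by
        calc (1 : ℝ) = m⁻¹ ^ 2 * m ^ 2 := by
              rw [← mul_pow, inv_mul_cancel₀ hm0.ne', one_pow]
          _ ≤ _ := mul_le_mul_of_nonneg_right h8 (by positivity)
      calc Real.sqrt (Fintype.card X) = Real.sqrt (Fintype.card X) * 1 := (mul_one _).symm
        _ ≤ Real.sqrt (Fintype.card X) * (Real.sqrt (Fintype.card X) * m ^ 2) :=
            mul_le_mul_of_nonneg_left h10 (Real.sqrt_nonneg _)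
        _ = (Fintype.card X : ℝ) * m ^ 2 := by rw [← mul_assoc, h9]
    have h11 : (B.card : ℝ) ^ 2 ≤ (w : ℝ) ^ 2 :=
      pow_le_pow_left₀ hk'.le (by exact_mod_cast hBw) 2
    exact div_le_div₀ (by positivity) (mul_le_mul_of_nonneg_left h6 (by positivity))
      (by positivity) (by linarith)
  have h12 : Real.exp (-((ε * m) ^ 2 / (2 * (Fintype.card X : ℝ) *
      ((B.card : ℝ) / Fintype.card X) ^ 2))) ≤
      Real.exp (-(ε ^ 2 * Real.sqrt (Fintype.card X) / (2 * (w : ℝ) ^ 2))) :=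
    Real.exp_le_exp.2 (neg_le_neg h4)
  have h13 : (fun ω : X → Bool × Fin q => ind (¬ (
      |mn (fun σ : K => ind (∀ x ∈ B, ω ((α σ)⁻¹ x) = π x)) - ((2 * (q : ℝ)) ^ B.card)⁻¹| ≤
        ε * ((2 * (q : ℝ)) ^ B.card)⁻¹))) =
      fun ω => ind (¬ (|f ω - m| ≤ ε * m)) := by
    rw [hf, hm]
  rw [h13]
  linarith

/-- Existence of a dense vector with relative error `ε`.

Proof. As in V/DnA, with `τ = ε * m`, `m = (2 q) ^ (- card B)`. The exponent is
`τ ^ 2 / (2 n (k / n) ^ 2) = ε ^ 2 n m ^ 2 / (2 k ^ 2) ≥ ε ^ 2 √n / (2 w ^ 2)`; with `L = Real.log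
n`, `w ≤ L`, `n ^ w * (2 q) ^ w * 2 ≤ exp (3 L ^ 2)`, it is enough that
`6 L ^ 4 < ε ^ 2 √n`, i.e. `36 L ^ 8 < ε ^ 4 n`, true for large `n`
(`Real.isLittleO_pow_log_id_atTop`). -/
theorem dense_exists_e {ε : ℝ} (hε : 0 < ε) : ∃ N : ℕ, ∀ (K X : Type) [Group K] [Fintype K]
    [Fintype X] (α : K →* Equiv.Perm X), (∀ x y : X, ∃ p, α p x = y) → ∀ q w : ℕ, 0 < q →
    (2 * q) ^ (4 * w) ≤ Fintype.card X → N ≤ Fintype.card X →
    ∀ (G : Type) [Group G] (y : Fin q → G), ∃ Y : X → G, DnsE ε α y w Y := by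
  classical
  obtain ⟨N, hN⟩ := dne_num hε
  refine ⟨N, ?_⟩
  intro K X _ _ _ α htr q w hq hqw hNX G _ y
  have hK : Nonempty K := ⟨1⟩
  have hΩ : Nonempty (Bool × Fin q) := ⟨(false, ⟨0, hq⟩)⟩
  rcases Nat.eq_zero_or_pos w with hw | hw
  · refine ⟨_, fun _ => (false, ⟨0, hq⟩), fun x => rfl, ?_⟩
    intro B hB π
    rw [hw, Nat.le_zero, Finset.card_eq_zero] at hB
    subst hB
    simp [mn_const, ind_true trivial, hε.le]
  obtain ⟨hL1, hL2⟩ := hN _ hNX
  obtain ⟨n, hn⟩ : ∃ n : ℝ, n = (Fintype.card X : ℝ) := ⟨_, rfl⟩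
  obtain ⟨L, hL⟩ : ∃ L : ℝ, L = Real.log n := ⟨_, rfl⟩
  rw [← hn] at hL1 hL2
  rw [← hL] at hL1 hL2
  have hn0 : 0 < n := by
    have h0 : 0 < 100 * L ^ 8 := by positivity
    exact (pos_iff_pos_of_mul_pos (lt_of_lt_of_le h0 hL2)).1 (by positivity)
  have hnexp : n = Real.exp L := by rw [hL, Real.exp_log hn0]
  have hX : Nonempty X := by
    rw [← Fintype.card_pos_iff]
    have : (0 : ℝ) < (Fintype.card X : ℝ) := hn ▸ hn0
    exact_mod_cast this
  have hq1 : (1 : ℝ) ≤ (q : ℝ) := by exact_mod_cast hq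
  have hqn : ((2 * (q : ℝ)) ^ w) ≤ n := by
    have h1 : ((2 * (q : ℝ)) ^ (4 * w)) ≤ n := by
      rw [hn]
      exact_mod_cast hqw
    exact le_trans (pow_le_pow_right₀ (by linarith) (by omega)) h1
  have hwL : (w : ℝ) ≤ L := by
    have h1 : (2 : ℝ) ^ (4 * w) ≤ n := by
      refine le_trans ?_ (show ((2 * (q : ℝ)) ^ (4 * w)) ≤ n by
        rw [hn]
        exact_mod_cast hqw)
      exact pow_le_pow_left₀ (by norm_num) (by linarith) _
    have h2 : (w : ℝ) * 1 ≤ L := by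
      have h3 : Real.log ((2 : ℝ) ^ (4 * w)) ≤ L := by
        rw [hL]
        exact Real.log_le_log (by positivity) h1
      rw [Real.log_pow] at h3
      have h4 := Real.log_two_gt_d9
      push_cast at h3
      have h5 : (0 : ℝ) ≤ w := Nat.cast_nonneg _
      nlinarith
    linarith
  -- the union bound
  by_contra hcon
  push Not at hcon
  obtain ⟨Bf, hBf⟩ : ∃ Bf : (Fin w → X) → Finset X, Bf = fun β => Finset.univ.image β := ⟨_, rfl⟩
  obtain ⟨pf, hpf⟩ : ∃ pf : (Fin w → X) → (Fin w → Bool × Fin q) → X → Bool × Fin q,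
      pf = fun β p x => if h : ∃ t, β t = x then p h.choose else (false, ⟨0, hq⟩) := ⟨_, rfl⟩
  have hbad : ∀ ω : X → Bool × Fin q, ∃ i : (Fin w → X) × (Fin w → Bool × Fin q),
      ¬ (|mn (fun σ : K => ind (∀ x ∈ Bf i.1, ω ((α σ)⁻¹ x) = pf i.1 i.2 x)) -
        ((2 * (q : ℝ)) ^ (Bf i.1).card)⁻¹| ≤ ε * ((2 * (q : ℝ)) ^ (Bf i.1).card)⁻¹) := by
    intro ω
    by_contra hno
    push Not at hno
    refine hcon (fun x => if (ω x).1 = true then y (ω x).2 else 1) ⟨ω, fun x => rfl, ?_⟩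
    intro B hB π
    rcases B.eq_empty_or_nonempty with hB0 | hB0
    · subst hB0
      have h1 : ∀ σ : K, ind (∀ x ∈ (∅ : Finset X), ω ((α σ)⁻¹ x) = π x) = 1 :=
        fun σ => ind_true (by simp)
      simp only [h1, mn_const]
      norm_num
      exact hε.le
    · obtain ⟨x0, hx0⟩ := hB0
      obtain ⟨β, hβ⟩ : ∃ β : Fin w → X, Finset.univ.image β = B := by
        refine ⟨fun t => if h : t.1 < B.card then (B.equivFin.symm ⟨t.1, h⟩ : X) else x0, ?_⟩
        ext x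
        simp only [Finset.mem_image, Finset.mem_univ, true_and]
        constructor
        · rintro ⟨t, ht⟩
          by_cases h : t.1 < B.card
          · rw [dif_pos h] at ht
            rw [← ht]
            exact (B.equivFin.symm ⟨t.1, h⟩).2
          · rw [dif_neg h] at ht
            rw [← ht]
            exact hx0
        · intro hx
          refine ⟨⟨(B.equivFin ⟨x, hx⟩).1, lt_of_lt_of_le (B.equivFin ⟨x, hx⟩).2 hB⟩, ?_⟩
          rw [dif_pos (B.equivFin ⟨x, hx⟩).2]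
          simp
      have h1 := hno (β, fun t => π (β t))
      have h2 : Bf β = B := by rw [hBf]; exact hβ
      rw [h2] at h1
      have h3 : ∀ x ∈ B, pf β (fun t => π (β t)) x = π x := by
        intro x hx
        rw [← hβ, Finset.mem_image] at hx
        obtain ⟨t, -, ht⟩ := hx
        have h4 : ∃ t, β t = x := ⟨t, ht⟩
        rw [hpf]
        simp only
        rw [dif_pos h4, h4.choose_spec]
      have h5 : ∀ σ : K, ind (∀ x ∈ B, ω ((α σ)⁻¹ x) = pf β (fun t => π (β t)) x) =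
          ind (∀ x ∈ B, ω ((α σ)⁻¹ x) = π x) := by
        intro σ
        refine congrArg ind (propext ?_)
        refine forall₂_congr fun x hx => ?_
        rw [h3 x hx]
      simp only [h5] at h1
      exact h1
  have h1 : (1 : ℝ) ≤ mn (fun ω : X → Bool × Fin q =>
      ∑ i : (Fin w → X) × (Fin w → Bool × Fin q),
      ind (¬ (|mn (fun σ : K => ind (∀ x ∈ Bf i.1, ω ((α σ)⁻¹ x) = pf i.1 i.2 x)) -
        ((2 * (q : ℝ)) ^ (Bf i.1).card)⁻¹| ≤
        ε * ((2 * (q : ℝ)) ^ (Bf i.1).card)⁻¹))) := by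
    refine le_mn fun ω => ?_
    obtain ⟨i, hi⟩ := hbad ω
    refine le_trans (ind_true hi).ge ?_
    exact Finset.single_le_sum (f := fun i : (Fin w → X) × (Fin w → Bool × Fin q) =>
      ind (¬ (|mn (fun σ : K => ind (∀ x ∈ Bf i.1, ω ((α σ)⁻¹ x) = pf i.1 i.2 x)) -
        ((2 * (q : ℝ)) ^ (Bf i.1).card)⁻¹| ≤
        ε * ((2 * (q : ℝ)) ^ (Bf i.1).card)⁻¹)))
      (fun i _ => ind_nonneg _) (Finset.mem_univ i)
  rw [mn_sum] at h1
  have h2 : ∀ i : (Fin w → X) × (Fin w → Bool × Fin q), mn (fun ω : X → Bool × Fin q =>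
      ind (¬ (|mn (fun σ : K => ind (∀ x ∈ Bf i.1, ω ((α σ)⁻¹ x) = pf i.1 i.2 x)) -
        ((2 * (q : ℝ)) ^ (Bf i.1).card)⁻¹| ≤
        ε * ((2 * (q : ℝ)) ^ (Bf i.1).card)⁻¹))) ≤
      2 * Real.exp (-(ε ^ 2 * Real.sqrt (Fintype.card X) / (2 * (w : ℝ) ^ 2))) := by
    intro i
    refine dne_tail hε α htr q w hq hqw (Bf i.1) ?_ ?_ _
    · rw [hBf]
      exact ⟨i.1 ⟨0, hw⟩, Finset.mem_image_of_mem _ (Finset.mem_univ _)⟩
    · rw [hBf]
      refine le_trans Finset.card_image_le ?_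
      simp
  have h3 := h1.trans (Finset.sum_le_sum fun i _ => h2 i)
  rw [Finset.sum_const, Finset.card_univ, Fintype.card_prod, Fintype.card_fun, Fintype.card_fun,
    Fintype.card_prod, Fintype.card_bool, Fintype.card_fin, Fintype.card_fin, nsmul_eq_mul,
    ← hn] at h3
  push_cast at h3
  rw [← hn] at h3
  -- numbers
  have hw1 : (1 : ℝ) ≤ (w : ℝ) := by exact_mod_cast hw
  have h4 : 6 * L ^ 4 < ε ^ 2 * Real.sqrt n := by
    refine lt_of_pow_lt_pow_left₀ 2 (by positivity) ?_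
    have h41 : (6 * L ^ 4) ^ 2 = 36 * L ^ 8 := by ring
    have h42 : (ε ^ 2 * Real.sqrt n) ^ 2 = ε ^ 4 * n := by
      rw [mul_pow, Real.sq_sqrt hn0.le]
      ring
    rw [h41, h42]
    have : 0 < L ^ 8 := by positivity
    linarith
  have h5 : n ^ w ≤ Real.exp (L * L) := by
    rw [hnexp, ← Real.exp_nat_mul]
    exact Real.exp_le_exp.2 (mul_le_mul_of_nonneg_right hwL (by linarith))
  have h6 : (2 * (q : ℝ)) ^ w ≤ Real.exp L := by rw [← hnexp]; exact hqn
  have h7 : (2 : ℝ) < Real.exp 1 := by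
    have := Real.exp_one_gt_d9
    linarith
  have h8 : 3 * L ^ 2 < ε ^ 2 * Real.sqrt n / (2 * (w : ℝ) ^ 2) := by
    rw [lt_div_iff₀ (by positivity)]
    have h9 : (w : ℝ) ^ 2 ≤ L ^ 2 := pow_le_pow_left₀ (by linarith) hwL 2
    calc 3 * L ^ 2 * (2 * (w : ℝ) ^ 2) ≤ 3 * L ^ 2 * (2 * L ^ 2) :=
          mul_le_mul_of_nonneg_left (by linarith) (by positivity)
      _ = 6 * L ^ 4 := by ring
      _ < _ := h4
  have h10 : n ^ w * (2 * (q : ℝ)) ^ w *
      (2 * Real.exp (-(ε ^ 2 * Real.sqrt n / (2 * (w : ℝ) ^ 2)))) ≤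
      Real.exp (L * L) * Real.exp L * (Real.exp 1 *
        Real.exp (-(ε ^ 2 * Real.sqrt n / (2 * (w : ℝ) ^ 2)))) := by
    refine mul_le_mul (mul_le_mul h5 h6 (by positivity) (by positivity))
      (mul_le_mul_of_nonneg_right h7.le (by positivity)) (by positivity) (by positivity)
  rw [← Real.exp_add, ← Real.exp_add, ← Real.exp_add] at h10
  have h11 : Real.exp (L * L + L + (1 + -(ε ^ 2 * Real.sqrt n / (2 * (w : ℝ) ^ 2)))) < 1 := by
    rw [Real.exp_lt_one_iff]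
    nlinarith
  linarith

end Pool.Agent.MPfe8e9bT
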