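import Mathlib
import Pool.Agent.Lib.MP_fe8e9b_al_T.Defs
import Pool.Agent.Lib.MP_fe8e9b_al_V.Mcd
import Pool.Agent.Lib.MP_fe8e9b_al_V.DnA

/-!
# MP_fe8e9b_al, iterated wreath products with several orbits: existence of a vector with good pair
frequencies -/

set_option autoImplicit false

open scoped BigOperators

namespace Pool.Agent.MPfe8e9bT

open Pool.Agent.MPfe8e9b Pool.Agent.MPfe8e9bA Pool.Agent.MPfe8e9bW Pool.Agent.MPfe8e9bV
  Pool.Agent.MPfe8e9bU

theorem mn_fun_one {X Ω : Type} [Fintype X] [DecidableEq X] [Fintype Ω] [Nonempty Ω] (x : X)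
    (f : Ω → ℝ) : mn (fun ω : X → Ω => f (ω x)) = mn f := by
  have h1 : mn (fun ω : X → Ω => f (ω x)) =
      mn (fun p : Ω × ({y : X // y ≠ x} → Ω) => f p.1) :=
    mn_equiv (Equiv.funSplitAt x Ω) (fun p : Ω × ({y : X // y ≠ x} → Ω) => f p.1)
  rw [h1, mn_prod]
  simp only [mn_const]

/-- Proof. `Equiv.funSplitAt x`, then `mn_prod`, `mn_fun_one` (or
`Finset.prod_univ_sum`). -/
theorem mn_fun_two {X Ω : Type} [Fintype X] [DecidableEq X] [Fintype Ω] [Nonempty Ω] {x x' : X}
    (hx : x ≠ x') (f g : Ω → ℝ) :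
    mn (fun ω : X → Ω => f (ω x) * g (ω x')) = mn f * mn g := by
  have h1 : mn (fun ω : X → Ω => f (ω x) * g (ω x')) =
      mn (fun p : Ω × ({y : X // y ≠ x} → Ω) => f p.1 * g (p.2 ⟨x', hx.symm⟩)) :=
    mn_equiv (Equiv.funSplitAt x Ω)
      (fun p : Ω × ({y : X // y ≠ x} → Ω) => f p.1 * g (p.2 ⟨x', hx.symm⟩))
  rw [h1, mn_prod]
  have h2 : ∀ t : Ω, mn (fun s : {y : X // y ≠ x} → Ω => f t * g (s ⟨x', hx.symm⟩)) =
      f t * mn g := by
    intro t
    rw [mn_mul_left, mn_fun_one (⟨x', hx.symm⟩ : {y : X // y ≠ x}) g]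
  simp only [h2]
  exact mn_mul_right _ _

/-- A point is fixed by at most half of the elements.

Proof. If `κ₀` moves `x` then `κ ↦ κ₀ * κ` maps the elements fixing `x` to elements moving `x`:
`mn (ind (fixed)) ≤ mn (ind (moved)) = 1 - mn (ind (fixed))` (`mn_equiv`). -/
theorem mn_fixed {K X : Type} [Group K] [Fintype K] (β : K →* Equiv.Perm X) (x : X)
    (h : ∃ κ, β κ x ≠ x) : mn (fun κ : K => ind ((β κ)⁻¹ x = x)) ≤ 1 / 2 := by
  obtain ⟨κ₀, h0⟩ := h
  have h1 : mn (fun κ : K => ind ((β (κ₀ * κ))⁻¹ x = x)) =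
      mn (fun κ : K => ind ((β κ)⁻¹ x = x)) :=
    mn_equiv (Equiv.mulLeft κ₀) (fun κ : K => ind ((β κ)⁻¹ x = x))
  have hfix : ∀ κ : K, (β κ)⁻¹ x = x ↔ β κ x = x := by
    intro κ
    rw [Equiv.Perm.inv_eq_iff_eq]
    exact eq_comm
  have h2 : ∀ κ : K, ind ((β κ)⁻¹ x = x) ≤ 1 - ind ((β (κ₀ * κ))⁻¹ x = x) := by
    intro κ
    by_cases h3 : (β κ)⁻¹ x = x
    · have h4 : ¬ (β (κ₀ * κ))⁻¹ x = x := by
        rw [hfix, map_mul, Equiv.Perm.mul_apply, (hfix κ).1 h3]
        exact h0
      rw [ind_false h4]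
      have := ind_le_one ((β κ)⁻¹ x = x)
      linarith
    · rw [ind_false h3]
      have := ind_le_one ((β (κ₀ * κ))⁻¹ x = x)
      linarith
  have h3 := mn_mono h2
  rw [mn_sub, mn_const, h1] at h3
  linarith

/-- The difference of two means. -/
theorem frpE_abs {T : Type} [Fintype T] {F G H : T → ℝ} (h : ∀ t, |F t - G t| ≤ H t) :
    |mn F - mn G| ≤ mn H := by
  rw [← mn_sub, abs_le]
  constructor
  · have h3 : -mn H = mn (fun t => (-1) * H t) := by
      rw [mn_mul_left]
      ring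
    rw [h3]
    refine mn_mono fun t => ?_
    have := (abs_le.1 (h t)).1
    linarith
  · exact mn_mono fun t => (abs_le.1 (h t)).2

/-- The measure of a point. -/
theorem frpE_pt {X : Type} [Fintype X] (y : X) :
    mn (fun x : X => ind (x = y)) = 1 / (Fintype.card X : ℝ) := by
  classical
  have h4 := dna_card ({y} : Finset X)
  simp only [Finset.mem_singleton, Finset.card_singleton, Nat.cast_one, mul_one] at h4
  rw [h4, one_div]

/-- The difference of two indicators. -/
theorem frpE_ind (p q : Prop) : |ind p - ind q| ≤ 1 := by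
  have h1 := ind_nonneg p
  have h2 := ind_nonneg q
  have h3 := ind_le_one p
  have h4 := ind_le_one q
  rw [abs_le]
  constructor <;> linarith

/-- The label. -/
def frpEl {q : ℕ} (a : Bool × Fin q) : Option (Fin q) := if a.1 = true then some a.2 else none

theorem frpEl_some {q : ℕ} (a : Bool × Fin q) (j : Fin q) :
    frpEl a = some j ↔ a = (true, j) := by
  obtain ⟨b, i⟩ := a
  cases b
  · simp [frpEl]
  · simp [frpEl]

theorem frpEl_none {q : ℕ} (a : Bool × Fin q) : frpEl a = none ↔ a.1 = false := by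
  obtain ⟨b, i⟩ := a
  cases b
  · simp [frpEl]
  · simp [frpEl]

theorem frpE_mean_some {q : ℕ} (j : Fin q) :
    mn (fun a : Bool × Fin q => ind (frpEl a = some j)) = 1 / (2 * (q : ℝ)) := by
  have h1 : (fun a : Bool × Fin q => ind (frpEl a = some j)) = fun a => ind (a = (true, j)) := by
    funext a
    rw [propext (frpEl_some a j)]
  rw [h1, frpE_pt, Fintype.card_prod, Fintype.card_bool, Fintype.card_fin]
  push_cast
  rfl

theorem frpE_mean_none {q : ℕ} (hq : 0 < q) :
    mn (fun a : Bool × Fin q => ind (frpEl a = none)) = 1 / 2 := by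
  haveI : Nonempty (Fin q) := ⟨⟨0, hq⟩⟩
  have h1 : (fun a : Bool × Fin q => ind (frpEl a = none)) = fun a => ind (a.1 = false) := by
    funext a
    rw [propext (frpEl_none a)]
  rw [h1, mn_prod]
  have h2 : ∀ t : Bool, mn (fun _ : Fin q => ind (t = false)) = ind (t = false) :=
    fun t => mn_const _
  simp only [h2]
  rw [frpE_pt, Fintype.card_bool]
  norm_num

section
variable {X Ω : Type} [Fintype X] [DecidableEq X]

/-- A frequency changes little. -/
theorem frpE_lip_one (p : Ω → Prop) (ω : X → Ω) (y : X) (a : Ω) :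
    |mn (fun x => ind (p (Function.update ω y a x))) - mn (fun x => ind (p (ω x)))| ≤
      1 / (Fintype.card X : ℝ) := by
  rw [← frpE_pt y]
  refine frpE_abs fun x => ?_
  by_cases hx : x = y
  · rw [ind_true hx]
    exact frpE_ind _ _
  · rw [Function.update_of_ne hx, sub_self, abs_zero]
    exact ind_nonneg _

/-- A pair frequency changes little. -/
theorem frpE_lip_two {K : Type} [Group K] [Fintype K] (β : K →* Equiv.Perm X) (p p' : Ω → Prop)
    (ω : X → Ω) (y : X) (a : Ω) :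
    |mn (fun t : X × K => ind (p (Function.update ω y a t.1) ∧
        p' (Function.update ω y a ((β t.2)⁻¹ t.1)))) -
      mn (fun t : X × K => ind (p (ω t.1) ∧ p' (ω ((β t.2)⁻¹ t.1))))| ≤
      2 / (Fintype.card X : ℝ) := by
  have h1 : mn (fun t : X × K => ind (t.1 = y) + ind ((β t.2)⁻¹ t.1 = y)) =
      2 / (Fintype.card X : ℝ) := by
    rw [mn_add]
    have h2 : mn (fun t : X × K => ind (t.1 = y)) = 1 / (Fintype.card X : ℝ) := by
      rw [mn_prod]
      have h3 : ∀ t : X, mn (fun _ : K => ind (t = y)) = ind (t = y) := fun t => mn_const _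
      simp only [h3]
      exact frpE_pt y
    have h4 : mn (fun t : X × K => ind ((β t.2)⁻¹ t.1 = y)) = 1 / (Fintype.card X : ℝ) := by
      rw [mn_prod]
      have h5 : mn (fun x : X => mn (fun κ : K => ind ((β κ)⁻¹ x = y))) =
          mn (fun κ : K => mn (fun x : X => ind ((β κ)⁻¹ x = y))) :=
        mn_comm (fun (x : X) (κ : K) => ind ((β κ)⁻¹ x = y))
      have h6 : ∀ κ : K, mn (fun x : X => ind ((β κ)⁻¹ x = y)) = 1 / (Fintype.card X : ℝ) := by
        intro κ
        rw [← frpE_pt y]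
        exact mn_equiv ((β κ)⁻¹ : Equiv.Perm X) (fun x : X => ind (x = y))
      rw [h5]
      simp only [h6]
      exact mn_const _
    rw [h2, h4]
    ring
  rw [← h1]
  refine frpE_abs fun t => ?_
  have n1 := ind_nonneg (t.1 = y)
  have n2 := ind_nonneg ((β t.2)⁻¹ t.1 = y)
  by_cases hx : t.1 = y
  · have h2 : ind (t.1 = y) = 1 := ind_true hx
    have h3 := frpE_ind (p (Function.update ω y a t.1) ∧
        p' (Function.update ω y a ((β t.2)⁻¹ t.1))) (p (ω t.1) ∧ p' (ω ((β t.2)⁻¹ t.1)))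
    linarith
  · by_cases hx' : (β t.2)⁻¹ t.1 = y
    · have h2 : ind ((β t.2)⁻¹ t.1 = y) = 1 := ind_true hx'
      have h3 := frpE_ind (p (Function.update ω y a t.1) ∧
        p' (Function.update ω y a ((β t.2)⁻¹ t.1))) (p (ω t.1) ∧ p' (ω ((β t.2)⁻¹ t.1)))
      linarith
    · rw [Function.update_of_ne hx, Function.update_of_ne hx', sub_self, abs_zero]
      linarith

end

/-- The numerical inequality. -/
theorem frpE_num {n q : ℝ} (hq : 0 < q) (hn : 6144 * q ^ 3 ≤ n) {τ b : ℝ} (hτ : 0 ≤ τ)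
    (hb : 0 < b) (hbn : b ≤ 2 / n) (h : 1 / (16 * q) ≤ τ ∧ b = 2 / n ∨ 1 / (4 * q) ≤ τ) :
    Real.exp (-(τ ^ 2 / (2 * n * b ^ 2))) ≤ Real.exp (-(3 * q)) := by
  have hn0 : 0 < n := lt_of_lt_of_le (by positivity) hn
  rw [Real.exp_le_exp, neg_le_neg_iff, le_div_iff₀ (by positivity)]
  have h1 : b ^ 2 ≤ (2 / n) ^ 2 := pow_le_pow_left₀ hb.le hbn 2
  have h2 : 1 / (16 * q) ≤ τ := by
    rcases h with h | h
    · exact h.1
    · refine le_trans ?_ h
      rw [div_le_div_iff₀ (by positivity) (by positivity)]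
      linarith
  have h3 : (1 / (16 * q)) ^ 2 ≤ τ ^ 2 := pow_le_pow_left₀ (by positivity) h2 2
  refine le_trans ?_ h3
  calc 3 * q * (2 * n * b ^ 2) ≤ 3 * q * (2 * n * (2 / n) ^ 2) := by
        refine mul_le_mul_of_nonneg_left ?_ (by positivity)
        exact mul_le_mul_of_nonneg_left h1 (by positivity)
    _ = 24 * q / n := by
        field_simp
        ring
    _ ≤ (1 / (16 * q)) ^ 2 := by
        rw [div_pow, one_pow, div_le_div_iff₀ hn0 (by positivity)]
        calc 24 * q * (16 * q) ^ 2 = 6144 * q ^ 3 := by ring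
          _ ≤ n := hn
          _ = 1 * n := (one_mul n).symm

/-- Existence of a vector with good pair frequencies.

Proof. `Ω = Bool × Fin q`, `n = card X`, `ω : X → Ω` random, `lam x = some (ω x).2` if
`(ω x).1 = true`, `none` otherwise. The functions
`f₁ j ω = mn_x ind (lam x = some j)` (mean `1 / (2 q)`, changes at most `1 / n`),
`f₂ ω = mn_x ind (lam x = none)` (mean `1 / 2`, changes at most `1 / n`),
`f₃ j ω = mn_(x, κ) ind (lam x = some j ∧ lam (κ⁻¹ x) = none)`: its mean is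
`mn_(x, κ) ind (κ⁻¹ x ≠ x) / (4 q) ≥ 1 / (8 q)` (`mn_comm`, `mn_fun_two`, `mn_fixed`) and it
changes at most by `2 / n` if `ω` is changed at one point `x₀` (only the pairs with `x = x₀` or
`κ⁻¹ x = x₀` matter, each of measure `1 / n`). `mcd_lower` with `τ = 1 / (4 q)`, `1 / 4`,
`1 / (16 q)`: the exponents `τ ^ 2 / (2 n b ^ 2)` are `n / (32 q ^ 2)`, `n / 32`,
`n / (2048 q ^ 2)`, all at least `3 q` since `n ≥ 6144 q ^ 3`. The sum of the probabilities is at
most `(2 q + 1) * exp (- 3 q) < 1` (`exp (3 q) ≥ 1 + 3 q`), so some `ω` avoids all events. -/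
theorem frp_exists {K X : Type} [Group K] [Fintype K] [Fintype X] (β : K →* Equiv.Perm X)
    (hβ : ∀ x, ∃ κ, β κ x ≠ x) {q : ℕ} (hq : 0 < q) (hX : 6144 * q ^ 3 ≤ Fintype.card X)
    {G : Type} [Group G] (y : Fin q → G) : ∃ Y : X → G, Frp β y Y := by
  classical
  haveI : Nonempty (Fin q) := ⟨⟨0, hq⟩⟩
  have hn0 : 0 < Fintype.card X := lt_of_lt_of_le (by positivity) hX
  haveI : Nonempty X := Fintype.card_pos_iff.1 hn0
  obtain ⟨n, hn⟩ : ∃ n : ℝ, n = (Fintype.card X : ℝ) := ⟨_, rfl⟩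
  obtain ⟨r, hr⟩ : ∃ r : ℝ, r = (q : ℝ) := ⟨_, rfl⟩
  have hn' : 0 < n := by rw [hn]; exact_mod_cast hn0
  have hr' : 0 < r := by rw [hr]; exact_mod_cast hq
  have hr1 : 1 ≤ r := by rw [hr]; exact_mod_cast hq
  have hnr : 6144 * r ^ 3 ≤ n := by rw [hn, hr]; exact_mod_cast hX
  -- the three functions
  obtain ⟨f1, hf1⟩ : ∃ f1 : Fin q → (X → Bool × Fin q) → ℝ,
      f1 = fun j ω => mn (fun x => ind (frpEl (ω x) = some j)) := ⟨_, rfl⟩
  obtain ⟨f2, hf2⟩ : ∃ f2 : (X → Bool × Fin q) → ℝ,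
      f2 = fun ω => mn (fun x => ind (frpEl (ω x) = none)) := ⟨_, rfl⟩
  obtain ⟨f3, hf3⟩ : ∃ f3 : Fin q → (X → Bool × Fin q) → ℝ,
      f3 = fun j ω => mn (fun p : X × K =>
        ind (frpEl (ω p.1) = some j ∧ frpEl (ω ((β p.2)⁻¹ p.1)) = none)) := ⟨_, rfl⟩
  have hm1 : ∀ j, mn (f1 j) = 1 / (2 * r) := by
    intro j
    have h1 : mn (f1 j) = mn (fun x : X => mn (fun ω : X → Bool × Fin q =>
        ind (frpEl (ω x) = some j))) := by
      rw [hf1]
      exact mn_comm (fun (ω : X → Bool × Fin q) (x : X) => ind (frpEl (ω x) = some j))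
    have h2 : ∀ x : X, mn (fun ω : X → Bool × Fin q => ind (frpEl (ω x) = some j)) =
        1 / (2 * r) := by
      intro x
      rw [mn_fun_one x (fun a : Bool × Fin q => ind (frpEl a = some j)), frpE_mean_some, hr]
    rw [h1]
    simp only [h2]
    exact mn_const _
  have hm2 : mn f2 = 1 / 2 := by
    have h1 : mn f2 = mn (fun x : X => mn (fun ω : X → Bool × Fin q =>
        ind (frpEl (ω x) = none))) := by
      rw [hf2]
      exact mn_comm (fun (ω : X → Bool × Fin q) (x : X) => ind (frpEl (ω x) = none))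
    have h2 : ∀ x : X, mn (fun ω : X → Bool × Fin q => ind (frpEl (ω x) = none)) = 1 / 2 := by
      intro x
      rw [mn_fun_one x (fun a : Bool × Fin q => ind (frpEl a = none)), frpE_mean_none hq]
    rw [h1]
    simp only [h2]
    exact mn_const _
  have hm3 : ∀ j, 1 / (8 * r) ≤ mn (f3 j) := by
    intro j
    have h1 : mn (f3 j) = mn (fun p : X × K => mn (fun ω : X → Bool × Fin q =>
        ind (frpEl (ω p.1) = some j ∧ frpEl (ω ((β p.2)⁻¹ p.1)) = none))) := by
      rw [hf3]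
      exact mn_comm (fun (ω : X → Bool × Fin q) (p : X × K) =>
        ind (frpEl (ω p.1) = some j ∧ frpEl (ω ((β p.2)⁻¹ p.1)) = none))
    have h2 : ∀ p : X × K, 1 / (4 * r) * (1 - ind ((β p.2)⁻¹ p.1 = p.1)) ≤
        mn (fun ω : X → Bool × Fin q =>
          ind (frpEl (ω p.1) = some j ∧ frpEl (ω ((β p.2)⁻¹ p.1)) = none)) := by
      intro p
      by_cases h3 : (β p.2)⁻¹ p.1 = p.1
      · rw [ind_true h3]
        simp only [sub_self, mul_zero]
        exact mn_nonneg fun ω => ind_nonneg _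
      · rw [ind_false h3]
        have h4 := mn_fun_two (Ω := Bool × Fin q) (Ne.symm h3)
          (fun a : Bool × Fin q => ind (frpEl a = some j))
          (fun a : Bool × Fin q => ind (frpEl a = none))
        rw [frpE_mean_some, frpE_mean_none hq] at h4
        simp only [ind_and]
        rw [h4, ← hr]
        refine le_of_eq ?_
        field_simp
        ring
    have h3 : mn (fun p : X × K => 1 / (4 * r) * (1 - ind ((β p.2)⁻¹ p.1 = p.1))) =
        1 / (4 * r) * (1 - mn (fun x : X => mn (fun κ : K => ind ((β κ)⁻¹ x = x)))) := by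
      rw [mn_mul_left, mn_sub, mn_const, mn_prod (fun p : X × K => ind ((β p.2)⁻¹ p.1 = p.1))]
    have h4 : mn (fun x : X => mn (fun κ : K => ind ((β κ)⁻¹ x = x))) ≤ 1 / 2 :=
      mn_le fun x => mn_fixed β x (hβ x)
    have h5 := mn_mono h2
    rw [h3] at h5
    rw [h1]
    refine le_trans ?_ h5
    have h6 : 1 / (8 * r) = 1 / (4 * r) * (1 - 1 / 2) := by
      field_simp
      ring
    rw [h6]
    refine mul_le_mul_of_nonneg_left ?_ (by positivity)
    linarith
  have hl1 : ∀ j (ω : X → Bool × Fin q) x a, |f1 j (Function.update ω x a) - f1 j ω| ≤ 1 / n := by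
    intro j ω x a
    rw [hf1, hn]
    exact frpE_lip_one (fun a : Bool × Fin q => frpEl a = some j) ω x a
  have hl2 : ∀ (ω : X → Bool × Fin q) x a, |f2 (Function.update ω x a) - f2 ω| ≤ 1 / n := by
    intro ω x a
    rw [hf2, hn]
    exact frpE_lip_one (fun a : Bool × Fin q => frpEl a = none) ω x a
  have hl3 : ∀ j (ω : X → Bool × Fin q) x a, |f3 j (Function.update ω x a) - f3 j ω| ≤ 2 / n := by
    intro j ω x a
    rw [hf3, hn]
    exact frpE_lip_two β (fun a : Bool × Fin q => frpEl a = some j)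
      (fun a : Bool × Fin q => frpEl a = none) ω x a
  have h12 : 1 / n ≤ 2 / n := by
    rw [div_le_div_iff₀ hn' hn']
    linarith
  obtain ⟨E, hE⟩ : ∃ E : ℝ, E = Real.exp (-(3 * r)) := ⟨_, rfl⟩
  have hp1 : ∀ j, mn (fun ω => ind (f1 j ω ≤ mn (f1 j) - 1 / (4 * r))) ≤ E := by
    intro j
    refine (mcd_lower (f1 j) (1 / n) (1 / (4 * r)) (by positivity) (by positivity)
      (hl1 j)).trans ?_
    rw [← hn, hE]
    exact frpE_num hr' hnr (by positivity) (by positivity) h12 (Or.inr le_rfl)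
  have hp2 : mn (fun ω => ind (f2 ω ≤ mn f2 - 1 / 4)) ≤ E := by
    refine (mcd_lower f2 (1 / n) (1 / 4) (by positivity) (by positivity) hl2).trans ?_
    rw [← hn, hE]
    refine frpE_num hr' hnr (by positivity) (by positivity) h12 (Or.inr ?_)
    rw [div_le_div_iff₀ (by positivity) (by positivity)]
    linarith
  have hp3 : ∀ j, mn (fun ω => ind (f3 j ω ≤ mn (f3 j) - 1 / (16 * r))) ≤ E := by
    intro j
    refine (mcd_lower (f3 j) (2 / n) (1 / (16 * r)) (by positivity) (by positivity)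
      (hl3 j)).trans ?_
    rw [← hn, hE]
    exact frpE_num hr' hnr (by positivity) (by positivity) le_rfl (Or.inl ⟨le_rfl, rfl⟩)
  -- a good outcome
  obtain ⟨ω, hω1, hω2, hω3⟩ : ∃ ω : X → Bool × Fin q, (∀ j, 1 / (4 * r) ≤ f1 j ω) ∧
      1 / 4 ≤ f2 ω ∧ ∀ j, 1 / (16 * r) ≤ f3 j ω := by
    by_contra hcon
    push Not at hcon
    have h1 : ∀ ω : X → Bool × Fin q, (1 : ℝ) ≤
        (∑ j : Fin q, ind (f1 j ω ≤ mn (f1 j) - 1 / (4 * r))) +
        (ind (f2 ω ≤ mn f2 - 1 / 4) +
        ∑ j : Fin q, ind (f3 j ω ≤ mn (f3 j) - 1 / (16 * r))) := by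
      intro ω
      have n1 : 0 ≤ ∑ j : Fin q, ind (f1 j ω ≤ mn (f1 j) - 1 / (4 * r)) :=
        Finset.sum_nonneg fun j _ => ind_nonneg _
      have n2 : 0 ≤ ind (f2 ω ≤ mn f2 - 1 / 4) := ind_nonneg _
      have n3 : 0 ≤ ∑ j : Fin q, ind (f3 j ω ≤ mn (f3 j) - 1 / (16 * r)) :=
        Finset.sum_nonneg fun j _ => ind_nonneg _
      by_cases c1 : ∀ j, 1 / (4 * r) ≤ f1 j ω
      · by_cases c2 : 1 / 4 ≤ f2 ω
        · obtain ⟨j, hj⟩ := hcon ω c1 c2
          have h2 : f3 j ω ≤ mn (f3 j) - 1 / (16 * r) := by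
            have h3 := hm3 j
            have h4 : 1 / (8 * r) = 1 / (16 * r) + 1 / (16 * r) := by
              field_simp
              ring
            linarith
          have h3 := Finset.single_le_sum
            (f := fun j : Fin q => ind (f3 j ω ≤ mn (f3 j) - 1 / (16 * r)))
            (fun j _ => ind_nonneg _) (Finset.mem_univ j)
          have h4 : ind (f3 j ω ≤ mn (f3 j) - 1 / (16 * r)) = 1 := ind_true h2
          simp only [h4] at h3
          linarith
        · have h2 : f2 ω ≤ mn f2 - 1 / 4 := by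
            rw [hm2]
            push Not at c2
            linarith
          have h4 : ind (f2 ω ≤ mn f2 - 1 / 4) = 1 := ind_true h2
          linarith
      · push Not at c1
        obtain ⟨j, hj⟩ := c1
        have h2 : f1 j ω ≤ mn (f1 j) - 1 / (4 * r) := by
          have h4 : 1 / (2 * r) = 1 / (4 * r) + 1 / (4 * r) := by
            field_simp
            ring
          rw [hm1 j]
          linarith
        have h3 := Finset.single_le_sum
          (f := fun j : Fin q => ind (f1 j ω ≤ mn (f1 j) - 1 / (4 * r)))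
          (fun j _ => ind_nonneg _) (Finset.mem_univ j)
        have h4 : ind (f1 j ω ≤ mn (f1 j) - 1 / (4 * r)) = 1 := ind_true h2
        simp only [h4] at h3
        linarith
    have h2 := le_mn h1
    rw [mn_add, mn_add, mn_sum, mn_sum] at h2
    have h3 : ∑ j : Fin q, mn (fun ω => ind (f1 j ω ≤ mn (f1 j) - 1 / (4 * r))) ≤ r * E := by
      refine (Finset.sum_le_sum fun j _ => hp1 j).trans ?_
      rw [Finset.sum_const, Finset.card_univ, Fintype.card_fin, nsmul_eq_mul, hr]
    have h4 : ∑ j : Fin q, mn (fun ω => ind (f3 j ω ≤ mn (f3 j) - 1 / (16 * r))) ≤ r * E := by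
      refine (Finset.sum_le_sum fun j _ => hp3 j).trans ?_
      rw [Finset.sum_const, Finset.card_univ, Fintype.card_fin, nsmul_eq_mul, hr]
    have h5 : (2 * r + 1) * E < 1 := by
      rw [hE, Real.exp_neg, ← div_eq_mul_inv, div_lt_one (Real.exp_pos _)]
      have := Real.add_one_le_exp (3 * r)
      linarith
    have h6 : (1 : ℝ) ≤ r * E + (E + r * E) := by linarith
    have h7 : r * E + (E + r * E) = (2 * r + 1) * E := by ring
    linarith
  refine ⟨fun x => (frpEl (ω x)).elim 1 y, fun x => frpEl (ω x), fun x => rfl, ?_, ?_, ?_⟩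
  · intro j
    have h1 := hω1 j
    rw [hf1, hr] at h1
    exact h1
  · rw [hf2] at hω2
    exact hω2
  · intro j
    have h1 := hω3 j
    rw [hf3, hr] at h1
    exact h1

end Pool.Agent.MPfe8e9bT
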