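import Mathlib
import Pool.Agent.Lib.MP_fe8e9b_al_T.FrpE
import Pool.Agent.Lib.MP_fe8e9b_al_T.DnE
import Pool.Agent.Lib.MP_fe8e9b_al_W.MixQ
import Pool.Agent.Lib.MP_fe8e9b_al_U.LvM
import Pool.Agent.Lib.MP_fe8e9b_al_U.ParM

/-!
# MP_fe8e9b_al, iterated wreath products with several orbits: the vectors
-/

set_option autoImplicit false

open scoped BigOperators

namespace Pool.Agent.MPfe8e9bT

open Pool.Agent.MPfe8e9b Pool.Agent.MPfe8e9bA Pool.Agent.MPfe8e9bW Pool.Agent.MPfe8e9bV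
  Pool.Agent.MPfe8e9bU

/-- Existence of the vectors.

Proof. Copy `vec_m` of U/VecM with `frp_exists` (for `β = α.comp K.subtype`; `6144 q ^ 3 ≤ card X`)
instead of `frq_exists` and `dense_exists_e` instead of `dense_exists`;
`C₁ = C₁' + 50 * Cq + C + N + 13` (`6144 ≤ 2 ^ 13`). -/
theorem vec_c (D M : ℕ) (hD : 0 < D) {ε : ℝ} (hε : 0 < ε) : ∃ C₁ : ℕ, 0 < C₁ ∧
      ∀ (P X : Type) [Group P] [Fintype P] [Fintype X] (α : P →* Equiv.Perm X)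
      (K : Subgroup P) [Fintype K], (∀ x y : X, ∃ p, α p x = y) →
      (∀ x : X, ∃ κ ∈ K, α κ x ≠ x) → ∀ c b : ℕ,
      (C₁ * (c + 1)) ^ 3 ≤ b ^ 2 → 2 ^ b ≤ Fintype.card X →
      ∀ (G : Type) [Group G] [Fintype G], commutator G = ⊤ → Wd M G → Cost c G →
      ∃ Y : TI M → X → G, GoodC α K ε D M Y := by
  classical
  obtain ⟨Cq, hC⟩ := mix_cost
  obtain ⟨CL, hCL⟩ := level_m D hD
  obtain ⟨ND, hND⟩ := dense_exists_e hε
  obtain ⟨CP', hCP', hpar⟩ := par_m Cq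
  refine ⟨CP' + 50 * Cq + CL + ND + 13, by omega, ?_⟩
  intro P X _ _ _ α K _ htr hmv c b hb hbX G _ _ hperf hwd hcost
  obtain ⟨q, y, hq0, hqQ, hy⟩ := hC c G hcost
  have hb1 : (CP' + 50 * Cq + CL + ND + 13) * (c + 1) ≤ b := by
    by_contra hlt
    have hlt' : b < (CP' + 50 * Cq + CL + ND + 13) * (c + 1) := not_le.1 hlt
    have hpos : 0 < (CP' + 50 * Cq + CL + ND + 13) * (c + 1) := by positivity
    have h1 : b ^ 2 < ((CP' + 50 * Cq + CL + ND + 13) * (c + 1)) ^ 2 :=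
      Nat.pow_lt_pow_left hlt' (by norm_num)
    have h2 : ((CP' + 50 * Cq + CL + ND + 13) * (c + 1)) ^ 2 ≤
        ((CP' + 50 * Cq + CL + ND + 13) * (c + 1)) ^ 3 :=
      Nat.pow_le_pow_right hpos (by norm_num)
    omega
  have hexp : (CP' + 50 * Cq + CL + ND + 13) * (c + 1) =
      CP' * (c + 1) + 50 * (Cq * (c + 1)) + CL * (c + 1) + ND * (c + 1) + 13 * (c + 1) := by
    ring
  have hCLc : CL ≤ CL * (c + 1) := Nat.le_mul_of_pos_right _ (Nat.succ_pos c)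
  have hNDc : ND ≤ ND * (c + 1) := Nat.le_mul_of_pos_right _ (Nat.succ_pos c)
  have hpar1 : (CP' * (c + 1)) ^ 3 ≤ b ^ 2 :=
    (Nat.pow_le_pow_left (Nat.mul_le_mul_right _ (by omega)) 3).trans hb
  obtain ⟨b₁, b₂, S₁, S₂, hS₁, hS₂, h10₁, h10₂, hbb, h32, h32', hq⟩ :=
    hpar c b (Fintype.card X) q hpar1 hbX hqQ
  have h6q : 6144 * q ^ 3 ≤ Fintype.card X := by
    have h2 : q ^ 3 ≤ (2 ^ (Cq * (c + 1))) ^ 3 := Nat.pow_le_pow_left hqQ 3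
    have h3 : 6144 * q ^ 3 ≤ 2 ^ 13 * (2 ^ (Cq * (c + 1))) ^ 3 :=
      Nat.mul_le_mul (by norm_num) h2
    have h4 : 2 ^ 13 * (2 ^ (Cq * (c + 1))) ^ 3 = 2 ^ (13 + Cq * (c + 1) * 3) := by
      rw [← pow_mul, ← pow_add]
    have h5 : 2 ^ (13 + Cq * (c + 1) * 3) ≤ 2 ^ b :=
      Nat.pow_le_pow_right (by norm_num) (by omega)
    exact h3.trans (h4.le.trans (h5.trans hbX))
  have hNDX : ND ≤ Fintype.card X := by
    have h1 : ND < 2 ^ ND := Nat.lt_two_pow_self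
    have h2 : 2 ^ ND ≤ 2 ^ b := Nat.pow_le_pow_right (by norm_num) (by omega)
    omega
  have hCLX : CL * q ^ 50 ≤ Fintype.card X := by
    have h1 : CL ≤ 2 ^ CL := Nat.lt_two_pow_self.le
    have h2 : q ^ 50 ≤ (2 ^ (Cq * (c + 1))) ^ 50 := Nat.pow_le_pow_left hqQ 50
    have h3 : CL * q ^ 50 ≤ 2 ^ CL * (2 ^ (Cq * (c + 1))) ^ 50 := Nat.mul_le_mul h1 h2
    have h4 : 2 ^ CL * (2 ^ (Cq * (c + 1))) ^ 50 = 2 ^ (CL + Cq * (c + 1) * 50) := by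
      rw [← pow_mul, ← pow_add]
    have h5 : 2 ^ (CL + Cq * (c + 1) * 50) ≤ 2 ^ b :=
      Nat.pow_le_pow_right (by norm_num) (by omega)
    exact h3.trans (h4.le.trans (h5.trans hbX))
  obtain ⟨Y0, hY0⟩ := frp_exists (α.comp K.subtype)
    (fun x => by
      obtain ⟨κ, hκ, h⟩ := hmv x
      exact ⟨⟨κ, hκ⟩, h⟩) hq0 h6q y
  obtain ⟨Y1, hY1⟩ := hND P X α htr q (32 ^ b₂) hq0 hq hNDX G y
  have hD1 : ∀ b : ℕ, 2 ^ b ≤ D * 2 ^ b := fun b => Nat.le_mul_of_pos_left _ hD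
  obtain ⟨z₁, z₁', hz₁⟩ := hCL q hq0 P X α htr b₁ S₁ hS₁ (h10₁.trans (hD1 b₁)) h32 hCLX M G y
    (fun j => hwd (y j))
  have h32₂ : 32 ^ (b₂ + S₂ - 1) ≤ Fintype.card X :=
    (Nat.pow_le_pow_right (by norm_num) (by omega)).trans h32
  obtain ⟨z₂, z₂', hz₂⟩ := hCL q hq0 P X α htr b₂ S₂ hS₂ (h10₂.trans (hD1 b₂)) h32₂ hCLX M G y
    (fun j => hwd (y j))
  refine ⟨Sum.elim (fun t => cond t Y1 Y0) (fun p => cond p.1.1
    ((![z₁', z₂'] : Fin 2 → Fin M → X → G) p.1.2 p.2)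
    ((![z₁, z₂] : Fin 2 → Fin M → X → G) p.1.2 p.2)),
    q, 32 ^ b₂, y, hq0, hy, hY0, hY1, fun a ha1 ha2 => ?_⟩
  have h1 : b₂ < a + 1 := (Nat.pow_lt_pow_iff_right (by norm_num)).1 ha1
  have h2 : a < b₁ + S₁ := (Nat.pow_lt_pow_iff_right (by norm_num)).1 (ha2.trans_lt h32')
  rcases Nat.lt_or_ge a b₁ with h3 | h3
  · exact ⟨1, hz₂ a (by omega) (by omega)⟩
  · exact ⟨0, hz₁ a h3 h2⟩

end Pool.Agent.MPfe8e9bT
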