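import Mathlib
import Pool.Agent.Lib.MP_fe8e9b_al_V.Dec2
import Pool.Agent.Lib.MP_fe8e9b_al_V.Semi2
import Pool.Agent.Lib.MP_fe8e9b_al_W.ExpPi
import Pool.Agent.Lib.MP_fe8e9b_al_T.VecC
import Pool.Agent.Lib.MP_fe8e9b_al_T.Loc3C

/-!
# MP_fe8e9b_al, iterated wreath products with several orbits: the reset lemma
-/

set_option autoImplicit false

open scoped BigOperators

namespace Pool.Agent.MPfe8e9bT

open Pool.Agent.MPfe8e9b Pool.Agent.MPfe8e9bA Pool.Agent.MPfe8e9bW Pool.Agent.MPfe8e9bV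
  Pool.Agent.MPfe8e9bU

/-- The groups `Kc` have no fixed points.

Proof. Let `p` be the element of `hα.2 i`, `α i p x₁ ≠ x₁`, `α i g x₁ = x`: `g * p * g⁻¹ ∈ Kc`
moves `x`. -/
theorem kc_moves {P I : Type} [Group P] {X : I → Type} {r : ℕ} {χ : I → Fin r}
    {α : ∀ i, P →* Equiv.Perm (X i)} (hα : Col χ α) (i : I) (x : X i) :
    ∃ κ ∈ Kc χ α i, α i κ x ≠ x := by
  obtain ⟨p, hp, hp1⟩ := hα.2 i
  have h1 : ∃ x₁, α i p x₁ ≠ x₁ := by
    by_contra hne
    refine hp1 (Equiv.ext fun y => ?_)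
    by_contra hy
    exact hne ⟨y, hy⟩
  obtain ⟨x₁, hx₁⟩ := h1
  obtain ⟨g, hg⟩ := hα.1 i x₁ x
  refine ⟨g * p * g⁻¹, ?_, ?_⟩
  · intro j hj hc
    rw [map_mul, map_mul, hp j hj hc, mul_one, ← map_mul, mul_inv_cancel, map_one]
  · intro h
    have h2 : α i (g * p * g⁻¹) x = α i g (α i p x₁) := by
      have h3 : (α i g⁻¹) x = x₁ := by
        rw [map_inv, Equiv.Perm.inv_eq_iff_eq]
        exact hg.symm
      rw [map_mul, map_mul, Equiv.Perm.mul_apply, Equiv.Perm.mul_apply, h3]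
    rw [h2, ← hg] at h
    exact hx₁ ((α i g).injective h)

theorem rst4_mu_pos {κ : ℝ} (hκ : 0 < κ) : 0 < mu κ := by
  unfold mu
  positivity

theorem rst4_eps_pos : 0 < eps0 := by
  have h := rst4_mu_pos (κ := 1 / 1024) (by norm_num)
  unfold eps0
  positivity

/-- The number `D`. -/
theorem rst4_exists_D {m : ℝ} (hm : 0 < m) : ∃ D : ℕ, 0 < D ∧ 2 ^ 23 ≤ m * (D : ℝ) ^ 5 := by
  obtain ⟨n, hn⟩ := exists_nat_ge (2 ^ 23 / m)
  refine ⟨n + 1, Nat.succ_pos n, ?_⟩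
  rw [div_le_iff₀ hm] at hn
  have h0 : (0 : ℝ) ≤ n := Nat.cast_nonneg n
  have h1 : (1 : ℝ) ≤ ((n + 1 : ℕ) : ℝ) := by
    push_cast
    linarith
  have h2 : ((n + 1 : ℕ) : ℝ) ≤ ((n + 1 : ℕ) : ℝ) ^ 5 := by
    calc ((n + 1 : ℕ) : ℝ) = ((n + 1 : ℕ) : ℝ) ^ 1 := (pow_one _).symm
      _ ≤ ((n + 1 : ℕ) : ℝ) ^ 5 := pow_le_pow_right₀ h1 (by norm_num)
  have h3 : (n : ℝ) ≤ ((n + 1 : ℕ) : ℝ) := by
    push_cast
    linarith
  calc (2 : ℝ) ^ 23 ≤ n * m := hn
    _ = m * n := mul_comm _ _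
    _ ≤ m * ((n + 1 : ℕ) : ℝ) ^ 5 := mul_le_mul_of_nonneg_left (h3.trans h2) hm.le

theorem rst4_cst_nonneg (D M : ℕ) : 0 ≤ cstC D M := by
  have h := rst4_mu_pos (κ := 1 / 1024) (by norm_num)
  unfold cstC
  positivity

/-- The reset lemma.

Proof. As `reset3` in U/Rst3, with the index type `TI M × Fin r` of the vectors:
`D` as there, `C = cstC D M`, `C₁` from `vec_c D M` with `ε = eps0`, for every `i` vectors `Y i`
with `GoodC (α i) (Kc χ α i) eps0 D M (Y i)` (`kc_moves`), and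
`Z (t, ρ) i = if χ i = ρ then Y i t else 1`. `dec2` with `L = (TI M × Fin r) × P`; for a vector `u`
with an active coordinate `(i, x)` apply `loc3_c` to `i`, `K = Kc χ α i` and the vectors
`fun t j => if χ j = χ i then Y j t else 1` (`hK`: if `χ j = χ i`, `j ≠ i` then `α j κ = 1`;
otherwise both sides are `1`); the sum over `TI M` is part of the sum over `TI M × Fin r`.
`R = card (TI M × Fin r)`, `(R + 1) * (8 * R * C + 1) ≤ 2 ^ C₀`. -/
theorem reset4 (M : ℕ) (hM : 0 < M) (r : ℕ) : ∃ C₀ C₁ : ℕ, 0 < C₁ ∧ ∀ (c b c' : ℕ)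
    (P I : Type) [Group P] [Finite I] (X : I → Type) [∀ i, Finite (X i)] (χ : I → Fin r)
    (α : ∀ i, P →* Equiv.Perm (X i)), Col χ α → ∀ (G : I → Type) [∀ i, Group (G i)],
    (∀ i, commutator (G i) = ⊤) → (∀ i, Wd M (G i)) → (∀ i, Cost c (G i)) → Cost c' P →
    (∀ i, 2 ^ b ≤ Nat.card (X i)) → (C₁ * (c + 1)) ^ 3 ≤ b ^ 2 → Cost (c' + C₀) (Wr α G) := by
  classical
  obtain ⟨D, hD, hD5⟩ := rst4_exists_D (rst4_mu_pos (κ := 1 / 1024) (by norm_num))
  obtain ⟨C, hC⟩ : ∃ C, C = cstC D M := ⟨_, rfl⟩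
  have hC0 : 0 ≤ C := hC ▸ rst4_cst_nonneg D M
  obtain ⟨R, hR⟩ : ∃ R : ℕ, R = Fintype.card (TI M × Fin r) := ⟨_, rfl⟩
  obtain ⟨C₀, hC₀⟩ := pow_unbounded_of_one_lt (((R : ℝ) + 1) * (8 * (R : ℝ) * C + 1)) one_lt_two
  obtain ⟨C₁, hC₁, hvec⟩ := vec_c D M hD rst4_eps_pos
  refine ⟨C₀, C₁, hC₁, ?_⟩
  intro c b c' P I _ _ X _ χ α hα G _ hG hW hcost hP hX hb
  obtain ⟨k, κ, hκ, hκ1, hkc, instP, hPe⟩ := hP
  have : Fintype I := Fintype.ofFinite I
  have : ∀ i, Fintype (X i) := fun i => Fintype.ofFinite _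
  have hGf : ∀ i, Nonempty (Fintype (G i)) := by
    intro i
    obtain ⟨_, _, _, _, _, inst, _⟩ := hcost i
    exact ⟨inst⟩
  have : ∀ i, Fintype (G i) := fun i => (hGf i).some
  have : ∀ i, Fintype (Kc χ α i) := fun i => Fintype.ofFinite _
  have hY : ∀ i, ∃ Y : TI M → X i → G i, GoodC (α i) (Kc χ α i) eps0 D M Y := by
    intro i
    refine hvec P (X i) (α i) (Kc χ α i) (hα.1 i) (kc_moves hα i) c b hb ?_ (G i) (hG i)
      (hW i) (hcost i)
    rw [← Nat.card_eq_fintype_card]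
    exact hX i
  choose Y hY using hY
  obtain ⟨Z, hZ⟩ : ∃ Z : TI M × Fin r → ∀ i, X i → G i,
      Z = fun l i => if χ i = l.2 then Y i l.1 else 1 := ⟨_, rfl⟩
  obtain ⟨e⟩ : Nonempty (TI M × Fin r ≃ Fin R) := by
    rw [hR]
    exact ⟨Fintype.equivFin (TI M × Fin r)⟩
  have hgap := gap_semi_r (wrAct α G) (fun (t : Fin R) => Z (e.symm t)) C hC0 ?_ hκ hκ1 hPe
  · refine ⟨k + R, _, ?_, ?_, ?_, hgap⟩
    · positivity
    · refine (div_le_self hκ.le ?_).trans hκ1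
      have : 0 ≤ 8 * (R : ℝ) * C := by positivity
      linarith
    · have h2 : (0 : ℝ) < 8 * (R : ℝ) * C + 1 := by positivity
      have h3 : (0 : ℝ) ≤ k := Nat.cast_nonneg k
      have h5 : (0 : ℝ) ≤ R := Nat.cast_nonneg R
      have h4 : 0 ≤ κ * 2 ^ c' := by positivity
      rw [div_mul_eq_mul_div, le_div_iff₀ h2, pow_add]
      push_cast
      calc ((k : ℝ) + R + 1) * (8 * (R : ℝ) * C + 1) ≤
            ((R + 1) * (k + 1)) * (8 * (R : ℝ) * C + 1) := by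
            refine mul_le_mul_of_nonneg_right ?_ h2.le
            nlinarith
        _ = (k + 1) * ((R + 1) * (8 * (R : ℝ) * C + 1)) := by ring
        _ ≤ (κ * 2 ^ c') * 2 ^ C₀ :=
            mul_le_mul hkc hC₀.le (by positivity) h4
        _ = κ * (2 ^ c' * 2 ^ C₀) := by ring
  · intro V _ _ _ ρ v hv
    have key := dec2 (K := Σ i, X i) (fun s => G s.1) (fun s => sgl G s.1 s.2)
      (fun s m => sgl_normal G s.1 s.2 m) (fun Q hQ => sgl_gen G Q (fun i x a => hQ ⟨i, x⟩ a))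
      (L := (TI M × Fin r) × P) (fun l => wrAct α G l.2 (Z l.1))
      (C * ((Fintype.card P : ℝ))⁻¹) (by positivity) ρ ?_ v hv
    · rw [Fintype.sum_prod_type, mul_assoc, Finset.mul_sum] at key
      have hsum : ∑ t : Fin R, mn (fun g : P =>
          ‖ρ (wrAct α G g (Z (e.symm t))) v - v‖ ^ 2) =
          ∑ t : TI M × Fin r, mn (fun g : P => ‖ρ (wrAct α G g (Z t)) v - v‖ ^ 2) :=
        Equiv.sum_comp e.symm (fun t : TI M × Fin r =>
          mn (fun g : P => ‖ρ (wrAct α G g (Z t)) v - v‖ ^ 2))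
      rw [hsum]
      exact key
    · intro u hu hu0
      obtain ⟨⟨i, x⟩, hx⟩ := hu0
      have hloc := loc3_c hD hM hD5 α G i (hα.1 i) (hG i) (Kc χ α i)
        (fun t => Z (t, χ i)) ?_ ?_ ρ u (fun x => hu ⟨i, x⟩) ⟨x, hx⟩
      · rw [← hC] at hloc
        rw [Fintype.sum_prod_type, mul_assoc, Finset.mul_sum]
        refine hloc.trans (mul_le_mul_of_nonneg_left ?_ hC0)
        have hs : ∑ t : TI M, mn (fun g : P => ‖ρ (wrAct α G g (Z (t, χ i))) u - u‖ ^ 2) ≤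
            ∑ t : TI M × Fin r, mn (fun g : P => ‖ρ (wrAct α G g (Z t)) u - u‖ ^ 2) := by
          rw [Fintype.sum_prod_type]
          refine Finset.sum_le_sum fun t _ => ?_
          refine Finset.single_le_sum (f := fun c : Fin r =>
            mn (fun g : P => ‖ρ (wrAct α G g (Z (t, c))) u - u‖ ^ 2)) ?_
            (Finset.mem_univ (χ i))
          intro c _
          unfold mn
          positivity
        exact hs
      · intro κ hκ j hj y
        rw [hZ]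
        by_cases hc : χ j = χ i
        · have h1 : α j κ = 1 := hκ j hj hc
          rw [h1]
          rfl
        · simp only [if_neg hc]
          rfl
      · have h1 : (fun t => Z (t, χ i) i) = Y i := by
          funext t
          rw [hZ]
          exact if_pos rfl
        rw [h1]
        exact hY i

end Pool.Agent.MPfe8e9bT
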