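import Mathlib
import Pool.Agent.Lib.MP_fe8e9b_al_T.Rst4
import Pool.Agent.Lib.MP_fe8e9b_al_W.Crude
import Pool.Agent.Lib.MP_fe8e9b_al_W.HomC

/-!
# MP_fe8e9b_al, iterated wreath products with several orbits: one step
-/

set_option autoImplicit false

open scoped BigOperators

namespace Pool.Agent.MPfe8e9bT

open Pool.Agent.MPfe8e9b Pool.Agent.MPfe8e9bA Pool.Agent.MPfe8e9bW Pool.Agent.MPfe8e9bV
  Pool.Agent.MPfe8e9bU

/-- The number of sets with `n` elements.

Proof. As `loc_count` in W/HomC, with the injection `i ↦ (χ i, fun j => φ i (s j))` into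
`Fin r × (Fin k → Equiv.Perm (Fin n))`: if `i ≠ i'` have the same image then `χ i' = χ i`, the
element of `hα.2 i` acts trivially on `X i'`, hence (same homomorphism) on `X i`. -/
theorem col_count {P I : Type} [Group P] [Finite I] {X : I → Type} [∀ i, Finite (X i)] {r : ℕ}
    {χ : I → Fin r} (α : ∀ i, P →* Equiv.Perm (X i)) (hα : Col χ α) {k : ℕ} {κ : ℝ}
    (hκ : 0 < κ) (hP : FExpd P k κ) (n : ℕ) :
    Nat.card {i // Nat.card (X i) = n} ≤ r * (Nat.factorial n) ^ k := by
  classical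
  obtain ⟨inst, s, hs⟩ := hP
  have hcl := gap_closure s hκ hs
  let e : ∀ i : {i // Nat.card (X i) = n}, X i.1 ≃ Fin n := fun i =>
    Finite.equivFinOfCardEq i.2
  let φ : ∀ i : {i // Nat.card (X i) = n}, P →* Equiv.Perm (Fin n) := fun i =>
    ((e i).permCongrHom : Equiv.Perm (X i.1) →* Equiv.Perm (Fin n)).comp (α i.1)
  let F : {i // Nat.card (X i) = n} → Fin r × (Fin k → Equiv.Perm (Fin n)) :=
    fun i => (χ i.1, fun j => φ i (s j))
  have hF : Function.Injective F := by
    intro i i' h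
    have hc : χ i.1 = χ i'.1 := congrArg Prod.fst h
    have hj : (fun j => φ i (s j)) = fun j => φ i' (s j) := congrArg Prod.snd h
    have hφ : φ i = φ i' := by
      refine MonoidHom.eq_of_eqOn_dense hcl ?_
      intro g hg
      have hg' := Finset.mem_coe.1 hg
      rw [Finset.mem_image] at hg'
      obtain ⟨j, -, rfl⟩ := hg'
      exact congrFun hj j
    by_contra hne
    obtain ⟨σ, h2, h1⟩ := hα.2 i.1
    have hne' : i'.1 ≠ i.1 := fun h' => hne (Subtype.ext h'.symm)
    have h3 : φ i' σ = 1 := by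
      change (e i').permCongrHom (α i'.1 σ) = 1
      rw [h2 _ hne' hc.symm, map_one]
    have h4 : φ i σ = 1 := by
      rw [hφ, h3]
    refine h1 ((e i).permCongrHom.injective ?_)
    rw [map_one]
    exact h4
  refine (Nat.card_le_card_of_injective F hF).trans ?_
  rw [Nat.card_eq_fintype_card]
  simp [Fintype.card_perm]

/-- The number of coordinates `(i, x)` with `card (X i) ≤ N`.

Proof. As `loc_count_le` in W/HomC. -/
theorem col_count_le {P I : Type} [Group P] [Finite I] {X : I → Type} [∀ i, Finite (X i)]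
    {r : ℕ} {χ : I → Fin r} (α : ∀ i, P →* Equiv.Perm (X i)) (hα : Col χ α) {k : ℕ} {κ : ℝ}
    (hκ : 0 < κ) (hP : FExpd P k κ) (N : ℕ) :
    Nat.card (Σ i : {i // Nat.card (X i) ≤ N}, X i.1) ≤
      (N + 1) * (N * (r * (Nat.factorial N) ^ k)) := by
  classical
  have : Fintype {i // Nat.card (X i) ≤ N} := Fintype.ofFinite _
  rw [Nat.card_sigma]
  have hmaps : ∀ i ∈ (Finset.univ : Finset {i // Nat.card (X i) ≤ N}),
      Nat.card (X i.1) ∈ Finset.range (N + 1) := fun i _ =>
    Finset.mem_range.2 (Nat.lt_succ_of_le i.2)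
  rw [← Finset.sum_fiberwise_of_maps_to hmaps]
  have hterm : ∀ m ∈ Finset.range (N + 1),
      (∑ i ∈ Finset.univ.filter (fun i : {i // Nat.card (X i) ≤ N} => Nat.card (X i.1) = m),
        Nat.card (X i.1)) ≤ N * (r * (Nat.factorial N) ^ k) := by
    intro m hm
    have hmN : m ≤ N := Nat.lt_succ_iff.1 (Finset.mem_range.1 hm)
    have h1 : (∑ i ∈ Finset.univ.filter
        (fun i : {i // Nat.card (X i) ≤ N} => Nat.card (X i.1) = m), Nat.card (X i.1)) =
        (Finset.univ.filter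
          (fun i : {i // Nat.card (X i) ≤ N} => Nat.card (X i.1) = m)).card * m := by
      rw [Finset.sum_congr rfl (g := fun _ => m)
        (fun i hi => (Finset.mem_filter.1 hi).2), Finset.sum_const, smul_eq_mul]
    have h2 : (Finset.univ.filter
        (fun i : {i // Nat.card (X i) ≤ N} => Nat.card (X i.1) = m)).card ≤
        r * (Nat.factorial m) ^ k := by
      rw [← Fintype.card_subtype, ← Nat.card_eq_fintype_card]
      refine le_trans ?_ (col_count α hα hκ hP m)
      refine Nat.card_le_card_of_injective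
        (fun i : {i : {i // Nat.card (X i) ≤ N} // Nat.card (X i.1) = m} =>
          (⟨i.1.1, i.2⟩ : {i // Nat.card (X i) = m})) ?_
      intro i i' h
      have h' := congrArg Subtype.val h
      exact Subtype.ext (Subtype.ext h')
    rw [h1, mul_comm]
    exact Nat.mul_le_mul hmN (h2.trans (Nat.mul_le_mul le_rfl
      (Nat.pow_le_pow_left (Nat.factorial_le hmN) k)))
  refine (Finset.sum_le_sum hterm).trans ?_
  rw [Finset.sum_const, Finset.card_range, smul_eq_mul]

/-- One step, without a condition on the sets.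

Proof. As `crude` in W/Crude: `b = (C₁ * (c + 1)) ^ 2`, `N = 2 ^ b`; the indices with
`N < card (X i)` by `hres` (`Col` is inherited by subfamilies), the others by `col_count_le`
(`Cost.fexpd`), `fexpd_pi`, `fexpd_extension` with `crudeInc`, `crudeRes`. -/
theorem crude4 {M r C₀ C₁ : ℕ} (hres : ∀ (c b c' : ℕ)
    (P I : Type) [Group P] [Finite I] (X : I → Type) [∀ i, Finite (X i)] (χ : I → Fin r)
    (α : ∀ i, P →* Equiv.Perm (X i)), Col χ α → ∀ (G : I → Type) [∀ i, Group (G i)],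
    (∀ i, commutator (G i) = ⊤) → (∀ i, Wd M (G i)) → (∀ i, Cost c (G i)) → Cost c' P →
    (∀ i, 2 ^ b ≤ Nat.card (X i)) → (C₁ * (c + 1)) ^ 3 ≤ b ^ 2 → Cost (c' + C₀) (Wr α G))
    (hC₁ : 0 < C₁) (c c' : ℕ) : ∃ c'' : ℕ, ∀ (P I : Type) [Group P] [Finite I]
      (X : I → Type) [∀ i, Finite (X i)] (χ : I → Fin r) (α : ∀ i, P →* Equiv.Perm (X i)),
      Col χ α → ∀ (G : I → Type) [∀ i, Group (G i)], (∀ i, commutator (G i) = ⊤) →
      (∀ i, Wd M (G i)) → (∀ i, Cost c (G i)) → Cost c' P → Cost c'' (Wr α G) := by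
  have hκ : (0 : ℝ) < min (1 / 2 ^ c) (1 / 2 ^ (c' + C₀)) := by positivity
  obtain ⟨c'', hc''⟩ := exists_cost
    ((2 ^ ((C₁ * (c + 1)) ^ 2) + 1) * (2 ^ ((C₁ * (c + 1)) ^ 2) *
      (r * (Nat.factorial (2 ^ ((C₁ * (c + 1)) ^ 2))) ^ (2 ^ c'))) * 2 ^ c +
        2 ^ (c' + C₀)) hκ
  refine ⟨c'', ?_⟩
  intro P I _ _ X _ χ α hα G _ hG hW hc hP
  have hb : (C₁ * (c + 1)) ^ 3 ≤ ((C₁ * (c + 1)) ^ 2) ^ 2 := by
    rw [← pow_mul]
    exact Nat.pow_le_pow_right (Nat.mul_pos hC₁ (Nat.succ_pos c)) (by norm_num)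
  generalize hB : (C₁ * (c + 1)) ^ 2 = b at *
  generalize hN : 2 ^ b = N at *
  apply hc''
  have hK := col_count_le α hα (by positivity) hP.fexpd N
  have h1 : FExpd (∀ s : (Σ i : {i // Nat.card (X i) ≤ N}, X i.1), G s.1.1) _ _ :=
    fexpd_pi _ hK (fun s => G s.1.1) (by positivity) (fun s => (hc s.1.1).fexpd)
  have hcol : Col (fun i : {i // N < Nat.card (X i)} => χ i.1)
      (fun i : {i // N < Nat.card (X i)} => α i.1) := by
    refine ⟨fun i => hα.1 i.1, fun i => ?_⟩
    obtain ⟨p, hp, hp'⟩ := hα.2 i.1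
    exact ⟨p, fun j hj hc' => hp j.1 (fun e => hj (Subtype.ext e)) hc', hp'⟩
  have h2 : Cost (c' + C₀) (Wr (fun i : {i // N < Nat.card (X i)} => α i.1)
      (fun i : {i // N < Nat.card (X i)} => G i.1)) := by
    refine hres c b c' P {i // N < Nat.card (X i)} (fun i => X i.1) (fun i => χ i.1)
      (fun i => α i.1) hcol (fun i => G i.1) (fun i => hG i.1) (fun i => hW i.1)
      (fun i => hc i.1) hP ?_ hb
    intro i
    rw [hN]
    exact i.2.le
  exact fexpd_extension (crudeInc α G (fun i => Nat.card (X i) ≤ N))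
    (crudeRes α G (fun i => N < Nat.card (X i))) (crudeInc_inj α G _) (crudeRes_surj α G _)
    (crude_range α G _ _ (fun i => not_le.symm)) (h1.mono le_rfl (min_le_left _ _))
    (h2.fexpd.mono le_rfl (min_le_right _ _))

end Pool.Agent.MPfe8e9bT
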