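import Mathlib
import Pool.Agent.Lib.MP_fe8e9b_al_T.Defs

/-!
# MP_fe8e9b_al, iterated wreath products with several orbits: a matching
-/

set_option autoImplicit false

open scoped BigOperators

namespace Pool.Agent.MPfe8e9bT

open Pool.Agent.MPfe8e9b Pool.Agent.MPfe8e9bA Pool.Agent.MPfe8e9bW Pool.Agent.MPfe8e9bV
  Pool.Agent.MPfe8e9bU

/-- A maximal matching, as an involution.

Proof. Among the (finitely many) functions `μ : X → X` with the first two properties (`id` is one)
take one with the largest number of points `x` with `μ x ≠ x`. If `x ≠ y`, `μ x = x`, `μ y = y`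
and `R x y`, then the function which exchanges `x` and `y` and is `μ` elsewhere has more. -/
theorem matching {X : Type} [Finite X] (R : X → X → Prop) (hR : ∀ x y, R x y → R y x) :
    ∃ μ : X → X, (∀ x, μ (μ x) = x) ∧ (∀ x, μ x ≠ x → R x (μ x)) ∧
      ∀ x y, x ≠ y → μ x = x → μ y = y → ¬ R x y := by
  classical
  have := Fintype.ofFinite X
  let P : (X → X) → Prop := fun μ => (∀ x, μ (μ x) = x) ∧ (∀ x, μ x ≠ x → R x (μ x))
  have hne : Nonempty {μ : X → X // P μ} :=
    ⟨⟨id, fun x => rfl, fun x hx => absurd rfl hx⟩⟩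
  obtain ⟨⟨μ, hμ1, hμ2⟩, hmax⟩ := Finite.exists_max
    (fun μ : {μ : X → X // P μ} => (Finset.univ.filter (fun x => μ.1 x ≠ x)).card)
  refine ⟨μ, hμ1, hμ2, ?_⟩
  intro x y hxy hx hy hRxy
  let ν : X → X := fun z => if z = x then y else if z = y then x else μ z
  have hνx : ν x = y := by simp [ν]
  have hνy : ν y = x := by simp [ν]
  have hνz : ∀ z, z ≠ x → z ≠ y → ν z = μ z := by
    intro z h1 h2
    simp [ν, h1, h2]
  have hPν : P ν := by
    constructor
    · intro z
      by_cases h1 : z = x
      · rw [h1, hνx, hνy]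
      · by_cases h2 : z = y
        · rw [h2, hνy, hνx]
        · have h3 : μ z ≠ x := fun h => h1 (by rw [← hμ1 z, h, hx])
          have h4 : μ z ≠ y := fun h => h2 (by rw [← hμ1 z, h, hy])
          rw [hνz z h1 h2, hνz _ h3 h4, hμ1]
    · intro z hz
      by_cases h1 : z = x
      · rw [h1, hνx]
        exact hRxy
      · by_cases h2 : z = y
        · rw [h2, hνy]
          exact hR x y hRxy
        · rw [hνz z h1 h2] at hz ⊢
          exact hμ2 z hz
  have h5 := hmax ⟨ν, hPν⟩
  have h6 : (Finset.univ.filter (fun z => μ z ≠ z)) ⊂ (Finset.univ.filter (fun z => ν z ≠ z)) := by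
    rw [Finset.ssubset_iff_of_subset]
    · refine ⟨x, ?_, ?_⟩
      · simp only [Finset.mem_filter, Finset.mem_univ, true_and, hνx]
        exact fun h => hxy h.symm
      · simp [hx]
    · intro z hz
      simp only [Finset.mem_filter, Finset.mem_univ, true_and] at hz ⊢
      by_cases h1 : z = x
      · exact absurd (by rw [h1, hx]) hz
      · by_cases h2 : z = y
        · exact absurd (by rw [h2, hy]) hz
        · rw [hνz z h1 h2]
          exact hz
  have h7 := Finset.card_lt_card h6
  exact absurd h5 (not_le.2 h7)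

end Pool.Agent.MPfe8e9bT
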