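import Mathlib
import Pool.Agent.Lib.MP_fe8e9b_al_T.Defs
import Pool.Agent.Lib.MP_fe8e9b_al_W.Assoc

/-!
# MP_fe8e9b_al, iterated wreath products with several orbits: splitting a tower
-/

set_option autoImplicit false

open scoped BigOperators

namespace Pool.Agent.MPfe8e9bT

open Pool.Agent.MPfe8e9b Pool.Agent.MPfe8e9bA Pool.Agent.MPfe8e9bW Pool.Agent.MPfe8e9bV
  Pool.Agent.MPfe8e9bU

/-- Proof. Induction on the derivation. -/
theorem Tc.succ {k m r : ℕ} {κ : ℝ} {h : ℕ} {G : Type} {inst : Group G}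
    (hG : Tc k m r κ h G inst) : Tc k m r κ (h + 1) G inst := by
  induction hG with
  | base h G inst hG hw => exact Tc.base _ G inst hG hw
  | step h P instP hP hw I hI X hX h2 χ α hα G instG _ ih =>
    exact Tc.step (h + 1) P instP hP hw I hI X hX h2 χ α hα G instG ih
  | iso h G H instG instH e _ ih => exact Tc.iso _ G H instG instH e ih

/-- Proof. Induction; `wr_perfect`, `perfect_iso`. -/
theorem Tc.perfect {k m r : ℕ} {κ : ℝ} {h : ℕ} {G : Type} {inst : Group G}
    (hG : Tc k m r κ h G inst) : commutator G = ⊤ := by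
  induction hG with
  | base h G inst hG hw => exact hG.1
  | step h P instP hP hw I hI X hX h2 χ α hα G instG _ ih =>
    have := hI
    have := hX
    exact wr_perfect α G hP.1 ih
  | iso h G H instG instH e _ ih => exact perfect_iso e ih

/-- The composition of coloured families is coloured by the colours of the second family.

Proof. Transitivity: as `tr_cmp` in U/Spl3. For `s = (i, j)` let `κ : Q i` act trivially on the
`Y i j'` with `j' ≠ j` of the colour of `j` and nontrivially on `Y i j`; take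
`w = inl F`, `F i x = κ` for all `x`, `F i' = 1` for `i' ≠ i`. `cmp_apply`:
`w (x, y) = (x, β (F i' x) y)`; it is trivial for `s' = (i', j')` with `i' ≠ i`, and for `i' = i`,
`j' ≠ j` of the same colour, and nontrivial for `s` (`X i` is nonempty). -/
theorem col_cmp {P I : Type} [Group P] {X : I → Type} (hne : ∀ i, Nonempty (X i)) {r : ℕ}
    {χ : I → Fin r} (α : ∀ i, P →* Equiv.Perm (X i)) (hα : Col χ α) {Q : I → Type}
    [∀ i, Group (Q i)] {J : I → Type} {Y : ∀ i, J i → Type}
    (β : ∀ i, ∀ j, Q i →* Equiv.Perm (Y i j)) (ψ : ∀ i, J i → Fin r)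
    (hβ : ∀ i, Col (ψ i) (β i)) :
    Col (fun s : Σ i, J i => ψ s.1 s.2) (fun s : Σ i, J i => cmp α β s) := by
  refine ⟨?_, ?_⟩
  · rintro ⟨i, j⟩ ⟨x, y⟩ ⟨x', y'⟩
    obtain ⟨p, hp⟩ := hα.1 i x x'
    obtain ⟨q, hq⟩ := (hβ i).1 j y y'
    refine ⟨⟨sgl Q i x' q, p⟩, ?_⟩
    rw [cmp_apply]
    simp only [hp, assoc_sgl_same, hq]
  · rintro ⟨i, j⟩
    obtain ⟨q, hq1, hq2⟩ := (hβ i).2 j
    obtain ⟨x₀⟩ := hne i
    refine ⟨assocElt α Q i x₀ q, ?_, ?_⟩
    · rintro ⟨i', j'⟩ hs hc
      apply Equiv.ext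
      rintro ⟨x, y⟩
      rw [assocElt_apply]
      by_cases hi : i' = i
      · subst hi
        have hj : j' ≠ j := fun h => hs (by rw [h])
        by_cases hx : x = x₀
        · subst hx
          simp only [assoc_sgl_same, hq1 j' hj hc, Equiv.Perm.coe_one, id_eq]
        · simp only [assoc_sgl_ne Q i' x₀ q hx, map_one, Equiv.Perm.coe_one, id_eq]
      · simp only [assoc_sgl_ne' Q i x₀ q hi, map_one, Equiv.Perm.coe_one, id_eq]
    · intro h
      apply hq2
      apply Equiv.ext
      intro y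
      have h1 : cmp α β ⟨i, j⟩ (assocElt α Q i x₀ q) (x₀, y) = (x₀, y) := by
        rw [h]
        rfl
      rw [assocElt_apply] at h1
      have h2 := congrArg Prod.snd h1
      simp only [assoc_sgl_same] at h2
      exact h2

/-- The conclusion of `split4`. -/
def Spl4P (k m r : ℕ) (κ : ℝ) (a b : ℕ) (W : Type) [Group W] : Prop :=
  ∃ (B : Type) (instB : Group B) (I : Type) (_ : Finite I) (X : I → Type)
      (_ : ∀ i, Finite (X i)) (χ : I → Fin r) (α : ∀ i, B →* Equiv.Perm (X i)) (A : I → Type)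
      (instA : ∀ i, Group (A i)), Tc k m r κ b B instB ∧ Col χ α ∧
        (∀ i, 2 ^ b ≤ Nat.card (X i)) ∧ (∀ i, Tc k m r κ a (A i) (instA i)) ∧
        Nonempty (W ≃* Wr α A)

theorem spl4_base {k m r : ℕ} {κ : ℝ} (a b : ℕ) (G : Type) (inst : Group G)
    (hG : PE k κ G) (hw : Wd m G) : Spl4P k m r κ a b G :=
  ⟨G, inst, PEmpty.{1}, inferInstance, fun _ => PUnit.{1}, fun _ => inferInstance,
    fun i => i.elim, fun i => i.elim, fun _ => G, fun _ => inst, Tc.base b G inst hG hw,
    ⟨fun i => i.elim, fun i => i.elim⟩,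
    fun i => i.elim, fun i => i.elim,
    wr_empty (X := fun _ => PUnit.{1}) (fun i => i.elim) (fun _ => G)⟩

theorem spl4_aux {k m r : ℕ} {κ : ℝ} (a : ℕ) {n : ℕ} {W : Type} {inst : Group W}
    (h : Tc k m r κ n W inst) : ∀ b : ℕ, n = a + (b + 1) → Spl4P k m r κ a (b + 1) W := by
  induction h with
  | base h G inst hG hw => exact fun b _ => spl4_base a (b + 1) G inst hG hw
  | iso h G H instG instH e _ ih =>
    intro b hb
    obtain ⟨B, instB, I, hI, X, hX, χ, α, A, instA, h1, h2, h3, h4, ⟨e'⟩⟩ := ih b hb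
    exact ⟨B, instB, I, hI, X, hX, χ, α, A, instA, h1, h2, h3, h4, ⟨e.symm.trans e'⟩⟩
  | step h P instP hP hw I hI X hX h2 χ α hα G instG hG ih =>
    intro b hb
    have := hI
    have := hX
    rcases b with _ | b
    · have hh : h = a := by omega
      subst hh
      refine ⟨P, instP, I, hI, X, hX, χ, α, G, instG, Tc.base _ P instP hP hw, hα, fun i => ?_,
        hG, ⟨MulEquiv.refl _⟩⟩
      simpa using h2 i
    · have hh : h = a + (b + 1) := by omega
      choose B instB J hJ Y hY ψ β A instA hB hcol hcard hA he using fun i => ih i b hh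
      obtain ⟨e1⟩ := wr_congr α G (fun i => Wr (β i) (A i)) (fun i => Classical.choice (he i))
      obtain ⟨e2⟩ := wr_assoc α β A
      have hfinJ : Finite (Σ i, J i) := by
        have := hJ
        infer_instance
      have hne : ∀ i, Nonempty (X i) := by
        intro i
        have h3 := h2 i
        have h4 : Nat.card (X i) ≠ 0 := by omega
        exact (Nat.card_ne_zero.1 h4).1
      have hfin : ∀ s : Σ i, J i, Finite (X s.1 × Y s.1 s.2) := by
        intro s
        have := hX s.1
        have := hY s.1 s.2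
        infer_instance
      have hcd : ∀ s : Σ i, J i, 2 ^ (b + 1 + 1) ≤ Nat.card (X s.1 × Y s.1 s.2) := by
        intro s
        rw [Nat.card_prod, pow_succ, mul_comm]
        exact Nat.mul_le_mul (h2 s.1) (hcard s.1 s.2)
      exact ⟨Wr α B, inferInstance, Σ i, J i, hfinJ, fun s => X s.1 × Y s.1 s.2,
        hfin, fun s => ψ s.1 s.2, fun s => cmp α β s, fun s => A s.1 s.2,
        fun s => instA s.1 s.2,
        Tc.step (b + 1) P instP hP hw I hI X hX h2 χ α hα B instB hB,
        col_cmp hne α hα β ψ hcol, hcd, fun s => hA s.1 s.2, ⟨e1.trans e2⟩⟩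

/-- Splitting of a tower.

Proof. As `split3` in U/Spl3 (with `Finite` instead of `Subsingleton`), `wr_assoc`, `wr_congr`,
`wr_empty`, `col_cmp`. -/
theorem split4 {k m r : ℕ} {κ : ℝ} (a b : ℕ) (W : Type) (inst : Group W)
    (h : Tc k m r κ (a + (b + 1)) W inst) :
    ∃ (B : Type) (instB : Group B) (I : Type) (_ : Finite I) (X : I → Type)
      (_ : ∀ i, Finite (X i)) (χ : I → Fin r) (α : ∀ i, B →* Equiv.Perm (X i)) (A : I → Type)
      (instA : ∀ i, Group (A i)), Tc k m r κ (b + 1) B instB ∧ Col χ α ∧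
        (∀ i, 2 ^ (b + 1) ≤ Nat.card (X i)) ∧ (∀ i, Tc k m r κ a (A i) (instA i)) ∧
        Nonempty (W ≃* Wr α A) := by
  exact spl4_aux a h b rfl

end Pool.Agent.MPfe8e9bT
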