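import Mathlib
import Pool.Agent.Lib.MP_fe8e9b_al_T.Defs
import Pool.Agent.Lib.MP_fe8e9b_al_U.Cp

/-!
# MP_fe8e9b_al, iterated wreath products with several orbits: moving the values of a function
-/

set_option autoImplicit false

open scoped BigOperators

namespace Pool.Agent.MPfe8e9bT

open Pool.Agent.MPfe8e9b Pool.Agent.MPfe8e9bA Pool.Agent.MPfe8e9bW Pool.Agent.MPfe8e9bV
  Pool.Agent.MPfe8e9bU

/-- `g` is equal to `g'` up to a product of `t` commutators of the wreath product. -/
def Red {P I : Type} [Group P] {X : I → Type} (α : ∀ i, P →* Equiv.Perm (X i))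
    (G : I → Type) [∀ i, Group (G i)] (t : ℕ) (g g' : ∀ i, X i → G i) : Prop :=
  ∃ c : Wr α G, CP t c ∧
    (SemidirectProduct.inl g : Wr α G) = c * (SemidirectProduct.inl g' : Wr α G)

theorem Red.refl {P I : Type} [Group P] {X : I → Type} (α : ∀ i, P →* Equiv.Perm (X i))
    (G : I → Type) [∀ i, Group (G i)] (g : ∀ i, X i → G i) : Red α G 0 g g := by
  exact ⟨1, cp_one 0, (one_mul _).symm⟩

theorem Red.trans {P I : Type} [Group P] {X : I → Type} {α : ∀ i, P →* Equiv.Perm (X i)}
    {G : I → Type} [∀ i, Group (G i)] {t t' : ℕ} {g g' g'' : ∀ i, X i → G i}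
    (h : Red α G t g g') (h' : Red α G t' g' g'') : Red α G (t + t') g g'' := by
  obtain ⟨c, hc, h1⟩ := h
  obtain ⟨c', hc', h2⟩ := h'
  exact ⟨c * c', hc.mul hc', by rw [h1, h2, mul_assoc]⟩

/-- Moving the function `b` with the element `σ`.

Proof. `inl b = cm (inl b) (inr σ) * inl (wrAct α G σ b)`, so
`inl g = inl (g * b⁻¹) * inl b = (x * cm (inl b) (inr σ) * x⁻¹) * inl (g * b⁻¹ * wrAct α G σ b)`,
`x = inl (g * b⁻¹)` (`CP.conj`, `cp_cm`). -/
theorem Red.move {P I : Type} [Group P] {X : I → Type} (α : ∀ i, P →* Equiv.Perm (X i))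
    (G : I → Type) [∀ i, Group (G i)] (g b : ∀ i, X i → G i) (σ : P) :
    Red α G 1 g (g * b⁻¹ * wrAct α G σ b) := by
  refine ⟨SemidirectProduct.inl (g * b⁻¹) *
    cm (SemidirectProduct.inl b) (SemidirectProduct.inr σ) *
    (SemidirectProduct.inl (g * b⁻¹))⁻¹, (cp_cm _ _).conj _, ?_⟩
  have h1 : (SemidirectProduct.inl (wrAct α G σ b) : Wr α G) =
      SemidirectProduct.inr σ * SemidirectProduct.inl b * SemidirectProduct.inr σ⁻¹ :=
    SemidirectProduct.inl_aut _ _
  have h2 : (SemidirectProduct.inl (g * b⁻¹ * wrAct α G σ b) : Wr α G) =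
      SemidirectProduct.inl (g * b⁻¹) * SemidirectProduct.inl (wrAct α G σ b) :=
    map_mul _ _ _
  have h3 : (SemidirectProduct.inl g : Wr α G) =
      SemidirectProduct.inl (g * b⁻¹) * SemidirectProduct.inl b := by
    rw [← map_mul, inv_mul_cancel_right]
  rw [h2, h1, h3, map_inv, cm]
  group

/-- The end.

Proof. `inl g' ` is a product of `s` commutators (`cp_pi` twice, `CP.map` with
`SemidirectProduct.inl`), `inr p` is one of `m`, and `⟨g, p⟩ = inl g * inr p`. -/
theorem Red.finish {P I : Type} [Group P] {X : I → Type} {α : ∀ i, P →* Equiv.Perm (X i)}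
    {G : I → Type} [∀ i, Group (G i)] {t s m : ℕ} {g g' : ∀ i, X i → G i}
    (h : Red α G t g g') (h' : ∀ i x, CP s (g' i x)) (p : P) (hp : CP m p) :
    CP (t + s + m) (SemidirectProduct.inl g * SemidirectProduct.inr p : Wr α G) := by
  obtain ⟨c, hc, h1⟩ := h
  have h2 : CP s g' := cp_pi fun i => cp_pi fun x => h' i x
  rw [h1]
  exact (hc.mul (h2.map SemidirectProduct.inl)).mul (hp.map SemidirectProduct.inr)

end Pool.Agent.MPfe8e9bT
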