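import Mathlib
import Pool.Agent.Lib.MP_fe8e9b_al_T.Mov

/-!
# MP_fe8e9b_al, iterated wreath products with several orbits: sweeping
-/

set_option autoImplicit false

open scoped BigOperators

namespace Pool.Agent.MPfe8e9bT

open Pool.Agent.MPfe8e9b Pool.Agent.MPfe8e9bA Pool.Agent.MPfe8e9bW Pool.Agent.MPfe8e9bV
  Pool.Agent.MPfe8e9bU

/-- The common part of `sweep` and `spread`: the first `k` moves. -/
theorem swp_core {P I : Type} [Group P] {X : I → Type} (α : ∀ i, P →* Equiv.Perm (X i))
    (G : I → Type) [∀ i, Group (G i)] (n : ℕ) (σ : Fin n → P) (dir : ∀ i, X i → Option (Fin n))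
    (ht : ∀ i x l, dir i x = some l → dir i (α i (σ l) x) = none)
    (g f : ∀ i, X i → G i) (k : ℕ) (hk : k ≤ n) :
    ∃ g' : ∀ i, X i → G i, Red α G k g g' ∧
      (∀ i x (l : Fin n), dir i x = some l → l.1 < k → g' i x = g i x * (f i x)⁻¹) ∧
      (∀ i x (l : Fin n), dir i x = some l → ¬ l.1 < k → g' i x = g i x) ∧
      (∀ i x, dir i x = none →
        (∀ z (l : Fin n), l.1 < k → dir i z = some l → α i (σ l) z ≠ x) → g' i x = g i x) ∧
      ((∀ i x x' l l', dir i x = some l → dir i x' = some l' →
        α i (σ l) x = α i (σ l') x' → x = x') → ∀ i x, dir i x = none →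
          ∀ z (l : Fin n), l.1 < k → dir i z = some l → α i (σ l) z = x →
            g' i x = g i x * f i z) := by
  classical
  induction k with
  | zero =>
    exact ⟨g, Red.refl α G g, fun i x l _ h => absurd h (Nat.not_lt_zero _),
      fun _ _ _ _ _ => rfl, fun _ _ _ _ => rfl,
      fun _ _ _ _ _ l h => absurd h (Nat.not_lt_zero _)⟩
  | succ k ih =>
    obtain ⟨g', h1, h2, h3, h4, h5⟩ := ih (by omega)
    have hkn : k < n := by omega
    obtain ⟨s, hs⟩ : ∃ s : Fin n, s.1 = k := ⟨⟨k, hkn⟩, rfl⟩
    obtain ⟨b, hb1, hb0⟩ : ∃ b : ∀ i, X i → G i, (∀ i x, dir i x = some s → b i x = f i x) ∧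
        ∀ i x, dir i x ≠ some s → b i x = 1 :=
      ⟨fun i x => if dir i x = some s then f i x else 1, fun i x h => if_pos h,
        fun i x h => if_neg h⟩
    have hval : ∀ i x, (g' * b⁻¹ * wrAct α G (σ s) b) i x =
        g' i x * (b i x)⁻¹ * b i ((α i (σ s))⁻¹ x) := fun i x => rfl
    have hinv : ∀ i x, α i (σ s) ((α i (σ s))⁻¹ x) = x := fun i x =>
      Equiv.apply_symm_apply (α i (σ s)) x
    have hz : ∀ i x l, dir i x = some l → b i ((α i (σ s))⁻¹ x) = 1 := by
      intro i x l hx
      refine hb0 _ _ fun h => ?_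
      have h6 := ht i _ _ h
      rw [hinv, hx] at h6
      cases h6
    refine ⟨g' * b⁻¹ * wrAct α G (σ s) b, h1.trans (Red.move α G g' b (σ s)), ?_, ?_, ?_, ?_⟩
    · intro i x l hx hl
      rw [hval, hz i x l hx, mul_one]
      by_cases hls : l = s
      · rw [hls] at hx
        rw [hb1 _ _ hx, h3 i x s hx (by omega)]
      · have h6 : l.1 ≠ k := fun h => hls (Fin.ext (h.trans hs.symm))
        rw [hb0 _ _ (by rw [hx]; exact fun h => hls (Option.some.inj h)), inv_one, mul_one]
        exact h2 i x l hx (by omega)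
    · intro i x l hx hl
      have hls : l ≠ s := fun h => hl (by rw [h]; omega)
      rw [hval, hz i x l hx, mul_one,
        hb0 _ _ (by rw [hx]; exact fun h => hls (Option.some.inj h)), inv_one, mul_one]
      exact h3 i x l hx (by omega)
    · intro i x hx hno
      rw [hval, hb0 i x (by rw [hx]; exact fun h => by cases h), inv_one, mul_one,
        hb0 _ _ (fun h => hno _ s (by omega) h (hinv i x)), mul_one]
      exact h4 i x hx fun z l hl hz' => hno z l (by omega) hz'
    · intro hinj i x hx z l hl hzl hzx
      rw [hval, hb0 i x (by rw [hx]; exact fun h => by cases h), inv_one, mul_one]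
      by_cases hls : l = s
      · rw [hls] at hzl hzx
        have h6 : (α i (σ s))⁻¹ x = z := by
          rw [← hzx]
          exact Equiv.symm_apply_apply (α i (σ s)) z
        rw [h6, hb1 _ _ hzl]
        congr 1
        refine h4 i x hx fun z' l' hl' hz' hzx' => ?_
        have h7 := hinj i z' z l' s hz' hzl (hzx'.trans hzx.symm)
        rw [h7, hzl] at hz'
        have h8 := Option.some.inj hz'
        rw [← h8] at hl'
        omega
      · have h6 : l.1 ≠ k := fun h => hls (Fin.ext (h.trans hs.symm))
        rw [hb0 _ _ (fun h => ?_), mul_one]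
        · exact h5 hinj i x hx z l (by omega) hzl hzx
        · have h7 := hinj i _ z s l h hzl ((hinv i x).trans hzx.symm)
          rw [h7, hzl] at h
          exact hls (Option.some.inj h)

/-- Sweeping: the values at the points with a direction are moved away.

Proof. Induction on `n` (statement for all `g` and for all `dir` whose values are `< n`), or
directly: put `g 0 = g`, `b l i x = g l i x` if `dir i x = some l`, `1` otherwise,
`g (l + 1) = g l * (b l)⁻¹ * wrAct α G (σ l) (b l)` (`Red.move`). A point `x` with a direction `l`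
has `g (l' + 1) i x = g l' i x` for `l' < l` as long as nothing is moved to it (`ht`: targets have
no direction), becomes `1` at step `l`, and stays `1`. A point without direction which is not a
target keeps its value. -/
theorem sweep {P I : Type} [Group P] {X : I → Type} (α : ∀ i, P →* Equiv.Perm (X i))
    (G : I → Type) [∀ i, Group (G i)] (n : ℕ) (σ : Fin n → P) (dir : ∀ i, X i → Option (Fin n))
    (ht : ∀ i x l, dir i x = some l → dir i (α i (σ l) x) = none) (g : ∀ i, X i → G i) :
    ∃ g' : ∀ i, X i → G i, Red α G n g g' ∧ (∀ i x, dir i x ≠ none → g' i x = 1) ∧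
      ∀ i x, dir i x = none → (∀ z l, dir i z = some l → α i (σ l) z ≠ x) →
        g' i x = g i x := by
  obtain ⟨g', h1, h2, -, h4, -⟩ := swp_core α G n σ dir ht g g n le_rfl
  refine ⟨g', h1, fun i x hx => ?_, fun i x hx hno => h4 i x hx fun z l _ => hno z l⟩
  obtain ⟨l, hl⟩ := Option.ne_none_iff_exists'.1 hx
  rw [h2 i x l hl l.2, mul_inv_cancel]

/-- Spreading: the part `f` of the values at the points with a direction is moved.

Proof. As `sweep`, with `b l i x = f i x` if `dir i x = some l`, `1` otherwise. A point with a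
direction gets the value `g i x * (f i x)⁻¹` (nothing is moved to it); a target `α i (σ l) z` has
the value `1` before and gets `f i z` (it is the target of one point only: `hinj`); the other
points keep their value. -/
theorem spread {P I : Type} [Group P] {X : I → Type} (α : ∀ i, P →* Equiv.Perm (X i))
    (G : I → Type) [∀ i, Group (G i)] (n : ℕ) (σ : Fin n → P) (dir : ∀ i, X i → Option (Fin n))
    (ht : ∀ i x l, dir i x = some l → dir i (α i (σ l) x) = none)
    (hinj : ∀ i x x' l l', dir i x = some l → dir i x' = some l' →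
      α i (σ l) x = α i (σ l') x' → x = x')
    (g f : ∀ i, X i → G i) (hg : ∀ i x, dir i x = none → g i x = 1) :
    ∃ g' : ∀ i, X i → G i, Red α G n g g' ∧
      (∀ i x, dir i x ≠ none → g' i x = g i x * (f i x)⁻¹) ∧
      ∀ i x, dir i x = none → g' i x = 1 ∨ ∃ z, dir i z ≠ none ∧ g' i x = f i z := by
  obtain ⟨g', h1, h2, -, h4, h5⟩ := swp_core α G n σ dir ht g f n le_rfl
  refine ⟨g', h1, fun i x hx => ?_, fun i x hx => ?_⟩
  · obtain ⟨l, hl⟩ := Option.ne_none_iff_exists'.1 hx
    exact h2 i x l hl l.2
  · by_cases hno : ∀ z (l : Fin n), l.1 < n → dir i z = some l → α i (σ l) z ≠ x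
    · exact Or.inl ((h4 i x hx hno).trans (hg i x hx))
    · push Not at hno
      obtain ⟨z, l, hl, hzl, hzx⟩ := hno
      refine Or.inr ⟨z, by rw [hzl]; exact Option.some_ne_none l, ?_⟩
      rw [h5 hinj i x hx z l hl hzl hzx, hg i x hx, one_mul]

end Pool.Agent.MPfe8e9bT
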