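import Mathlib
import Pool.Agent.Lib.MP_fe8e9b_al_T.Inv
import Pool.Agent.Lib.MP_fe8e9b_al_T.Swp
import Pool.Agent.Lib.MP_fe8e9b_al.Vert
import Pool.Agent.Lib.MP_fe8e9b_al_W.Perf

/-!
# MP_fe8e9b_al, iterated wreath products with several orbits: width of wreath products with
several orbits -/

set_option autoImplicit false

open scoped BigOperators

namespace Pool.Agent.MPfe8e9bT

open Pool.Agent.MPfe8e9b Pool.Agent.MPfe8e9bA Pool.Agent.MPfe8e9bW Pool.Agent.MPfe8e9bV
  Pool.Agent.MPfe8e9bU

/-- Every point is moved by some generator. -/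
private theorem wid4_move {P I : Type} [Group P] {X : I → Type}
    (α : ∀ i, P →* Equiv.Perm (X i)) (hα : Tr α) (h2 : ∀ i, 2 ≤ Nat.card (X i)) {k : ℕ}
    (s : Fin k → P) (hs : Subgroup.closure (Set.range s) = ⊤) (i : I) (x : X i) :
    ∃ j, α i (s j) x ≠ x := by
  by_contra hcon
  push Not at hcon
  have h1 : Subgroup.closure (Set.range s) ≤
      (MulAction.stabilizer (Equiv.Perm (X i)) x).comap (α i) := by
    rw [Subgroup.closure_le]
    rintro _ ⟨j, rfl⟩
    exact hcon j
  rw [hs] at h1
  have h3 : ∀ y : X i, y = x := by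
    intro y
    obtain ⟨p, hp⟩ := hα i x y
    have h4 : α i p x = x := h1 (Subgroup.mem_top p)
    rw [← hp, h4]
  have h5 : Subsingleton (X i) := ⟨fun a b => (h3 a).trans (h3 b).symm⟩
  have h6 := h2 i
  have h7 : Nat.card (X i) ≤ 1 := Finite.card_le_one_iff_subsingleton.2 h5
  omega

/-- The width of a wreath product.

Proof. For every `i` and `x : X i` there is `j` with `α i (s j) x ≠ x` (otherwise the subgroup of
the elements fixing `x` is everything, against transitivity and `h2`). Let
`R i x y ↔ ∃ j, α i (s j) x = y ∨ α i (s j) y = x` and `μ i` from `matching`. Let `g` be given.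
Round 1 (`k` commutators, `sweep` with `σ = s`): `dir x = some j` with `α i (s j) x ≠ x` for the
points with `μ i x = x`; the target is not fixed by `μ i` (it is in relation `R` with `x`). Now
`g = 1` on the points fixed by `μ i`. Choose an injection `e : X i → ℕ`. Round 2 (`2 k`
commutators, `sweep` with the list of the `s j` and the `(s j)⁻¹`, indexed by `Fin (2 * k)` or by
`Fin (k + k)` with `Fin.append`): the points with `e (μ i x) < e x` are moved to `μ i x`, which has
no direction. The fixed points of `μ i` are no targets, so `g = 1` there and at the points with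
`e (μ i x) < e x`. Round 3 (`2 k` commutators, `spread`): the points `x` with `e x < e (μ i x)` are
moved to `μ i x` (`μ i` is injective), where `g i x = a * f`, `a` and `f` products of
`5 k + m + 1` commutators (`CP.split`). All the values are now products of `5 k + m + 1`
commutators; `Red.finish`, total `k + 2 k + 2 k + (5 k + m + 1) + m ≤ 2 (5 k + m + 1)`. -/
theorem wd_wr_c {P I : Type} [Group P] {X : I → Type} [∀ i, Finite (X i)]
    (α : ∀ i, P →* Equiv.Perm (X i)) (hα : Tr α) (h2 : ∀ i, 2 ≤ Nat.card (X i)) {k m : ℕ}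
    (s : Fin k → P) (hs : Subgroup.closure (Set.range s) = ⊤) (hP : Wd m P)
    (G : I → Type) [∀ i, Group (G i)] (hG : ∀ i, Wd (wdt k m) (G i)) :
    Wd (wdt k m) (Wr α G) := by
  classical
  have hmove := wid4_move α hα h2 s hs
  choose mv hmv using hmove
  let R : ∀ i, X i → X i → Prop := fun i x y => ∃ j, α i (s j) x = y ∨ α i (s j) y = x
  have hR : ∀ i x y, R i x y → R i y x := fun i x y ⟨j, hj⟩ => ⟨j, hj.symm⟩
  choose μ hμ1 hμ2 hμ3 using fun i => matching (R i) (hR i)
  have hμinj : ∀ i x y, μ i x = μ i y → x = y := fun i x y h => by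
    rw [← hμ1 i x, h, hμ1 i y]
  let e : ∀ i, X i → ℕ := fun i x => (Finite.equivFin (X i) x : ℕ)
  have he : ∀ i x y, e i x = e i y → x = y := fun i x y h =>
    (Finite.equivFin (X i)).injective (Fin.ext h)
  -- the second list of elements
  let σ2 : Fin (k + k) → P := Fin.append s fun j => (s j)⁻¹
  have hσ2 : ∀ i x, ∃ l, μ i x ≠ x → α i (σ2 l) x = μ i x := by
    intro i x
    by_cases hx : μ i x = x
    · exact ⟨Fin.castAdd k (mv i x), fun h => absurd hx h⟩
    obtain ⟨j, hj | hj⟩ := hμ2 i x hx
    · refine ⟨Fin.castAdd k j, fun _ => ?_⟩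
      simp only [σ2, Fin.append_left]
      exact hj
    · refine ⟨Fin.natAdd k j, fun _ => ?_⟩
      simp only [σ2, Fin.append_right]
      rw [map_inv, Equiv.Perm.inv_eq_iff_eq]
      exact hj.symm
  choose l2 hl2 using hσ2
  intro w
  -- round 1
  let dir1 : ∀ i, X i → Option (Fin k) := fun i x => if μ i x = x then some (mv i x) else none
  have hd1 : ∀ i x, μ i x ≠ x → dir1 i x = none := fun i x h => by
    simp only [dir1, if_neg h]
  have hd1' : ∀ i x l, dir1 i x = some l → μ i x = x ∧ l = mv i x := by
    intro i x l h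
    by_cases hx : μ i x = x
    · simp only [dir1, if_pos hx, Option.some.injEq] at h
      exact ⟨hx, h.symm⟩
    · rw [hd1 i x hx] at h
      exact absurd h (by simp)
  have ht1 : ∀ i x l, dir1 i x = some l → dir1 i (α i (s l) x) = none := by
    intro i x l h
    obtain ⟨hx, rfl⟩ := hd1' i x l h
    refine hd1 i _ fun hy => ?_
    exact hμ3 i x _ (hmv i x).symm hx hy ⟨mv i x, Or.inl rfl⟩
  obtain ⟨g1, hr1, h11, -⟩ := sweep α G k s dir1 ht1 w.left
  have hg1 : ∀ i x, μ i x = x → g1 i x = 1 := by
    intro i x hx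
    refine h11 i x ?_
    simp only [dir1, if_pos hx]
    simp
  -- round 2
  let dir2 : ∀ i, X i → Option (Fin (k + k)) := fun i x =>
    if e i (μ i x) < e i x then some (l2 i x) else none
  have hd2 : ∀ i x, ¬ e i (μ i x) < e i x → dir2 i x = none := fun i x h => by
    simp only [dir2, if_neg h]
  have hd2' : ∀ i x l, dir2 i x = some l →
      e i (μ i x) < e i x ∧ α i (σ2 l) x = μ i x := by
    intro i x l h
    by_cases hx : e i (μ i x) < e i x
    · simp only [dir2, if_pos hx, Option.some.injEq] at h
      refine ⟨hx, ?_⟩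
      rw [← h]
      refine hl2 i x fun h' => ?_
      rw [h'] at hx
      exact lt_irrefl _ hx
    · rw [hd2 i x hx] at h
      exact absurd h (by simp)
  have ht2 : ∀ i x l, dir2 i x = some l → dir2 i (α i (σ2 l) x) = none := by
    intro i x l h
    obtain ⟨hx, h'⟩ := hd2' i x l h
    rw [h']
    refine hd2 i _ ?_
    rw [hμ1]
    omega
  obtain ⟨g2, hr2, h21, h22⟩ := sweep α G (k + k) σ2 dir2 ht2 g1
  have hg2 : ∀ i x, ¬ e i x < e i (μ i x) → g2 i x = 1 := by
    intro i x hx
    by_cases hx' : e i (μ i x) < e i x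
    · refine h21 i x ?_
      simp only [dir2, if_pos hx']
      simp
    · have hfix : μ i x = x := he i _ _ (by omega)
      rw [h22 i x (hd2 i x hx'), hg1 i x hfix]
      intro z l hz hzx
      obtain ⟨h3, h4⟩ := hd2' i z l hz
      have h5 : μ i z = x := h4.symm.trans hzx
      have h6 : z = x := by
        rw [← hμ1 i z, h5, hfix]
      rw [h6, hfix] at h3
      exact lt_irrefl _ h3
  -- round 3
  let dir3 : ∀ i, X i → Option (Fin (k + k)) := fun i x =>
    if e i x < e i (μ i x) then some (l2 i x) else none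
  have hd3 : ∀ i x, ¬ e i x < e i (μ i x) → dir3 i x = none := fun i x h => by
    simp only [dir3, if_neg h]
  have hd3' : ∀ i x l, dir3 i x = some l →
      e i x < e i (μ i x) ∧ α i (σ2 l) x = μ i x := by
    intro i x l h
    by_cases hx : e i x < e i (μ i x)
    · simp only [dir3, if_pos hx, Option.some.injEq] at h
      refine ⟨hx, ?_⟩
      rw [← h]
      refine hl2 i x fun h' => ?_
      rw [h'] at hx
      exact lt_irrefl _ hx
    · rw [hd3 i x hx] at h
      exact absurd h (by simp)
  have ht3 : ∀ i x l, dir3 i x = some l → dir3 i (α i (σ2 l) x) = none := by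
    intro i x l h
    obtain ⟨hx, h'⟩ := hd3' i x l h
    rw [h']
    refine hd3 i _ ?_
    rw [hμ1]
    omega
  have hinj3 : ∀ i x x' l l', dir3 i x = some l → dir3 i x' = some l' →
      α i (σ2 l) x = α i (σ2 l') x' → x = x' := by
    intro i x x' l l' h h' heq
    rw [(hd3' i x l h).2, (hd3' i x' l' h').2] at heq
    exact hμinj i x x' heq
  have hspl : ∀ i x, ∃ a f : G i, CP (5 * k + m + 1) a ∧ CP (5 * k + m + 1) f ∧
      g2 i x = a * f := by
    intro i x
    have h1 : CP ((5 * k + m + 1) + (5 * k + m + 1)) (g2 i x) := by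
      have h3 : (5 * k + m + 1) + (5 * k + m + 1) = wdt k m := by
        rw [wdt]
        ring
      rw [h3]
      exact hG i _
    exact h1.split
  choose a f ha hf haf using hspl
  obtain ⟨g3, hr3, h31, h32⟩ := spread α G (k + k) σ2 dir3 ht3 hinj3 g2 f (by
    intro i x h
    refine hg2 i x fun hx => ?_
    simp only [dir3, if_pos hx] at h
    exact absurd h (by simp))
  have hg3 : ∀ i x, CP (5 * k + m + 1) (g3 i x) := by
    intro i x
    by_cases hx : dir3 i x = none
    · rcases h32 i x hx with h | ⟨z, -, h⟩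
      · rw [h]
        exact cp_one _
      · rw [h]
        exact hf i z
    · rw [h31 i x hx, haf, mul_inv_cancel_right]
      exact ha i x
  have hfin := ((hr1.trans hr2).trans hr3).finish hg3 w.right (hP w.right)
  rw [SemidirectProduct.inl_left_mul_inr_right] at hfin
  refine hfin.mono ?_
  rw [wdt]
  omega

/-- All towers have width at most `wdt k m`.

Proof. Induction on the derivation; `FExpd P k κ` gives `s : Fin k → P` with a gap and
`gap_closure` (MP_fe8e9b_al/Vert) the generation; `Wd.mono`, `Wd.iso`. -/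
theorem Tc.wd {k m r : ℕ} {κ : ℝ} (hκ : 0 < κ) {h : ℕ} {G : Type} {inst : Group G}
    (hG : Tc k m r κ h G inst) : Wd (wdt k m) G := by
  classical
  induction hG with
  | base h G inst hG hw =>
    refine hw.mono ?_
    rw [wdt]
    omega
  | step h P instP hP hw I hI X hX h2 χ α hα G instG hG ih =>
    obtain ⟨_, hf, s, hs⟩ := hP
    have h1 := gap_closure s hκ hs
    rw [Finset.coe_image, Finset.coe_univ, Set.image_univ] at h1
    exact wd_wr_c α hα.1 h2 s h1 hw G ih
  | iso h G H instG instH e hG ih => exact ih.iso e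

end Pool.Agent.MPfe8e9bT
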