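import Mathlib
import Pool.Agent.Lib.MP_fe8e9b_al.Vert
import Pool.Agent.Lib.MP_fe8e9b_al_W.Cheeg
import Pool.Agent.Lib.MP_fe8e9b_al_U.Bt3
import Pool.Agent.Lib.MP_fe8e9b_al_T.Wid4
import Pool.Agent.Lib.MP_fe8e9b_al_T.Spl4
import Pool.Agent.Lib.MP_fe8e9b_al_T.Crd4

/-!
# MP_fe8e9b_al, iterated wreath products with several orbits: class and main theorem
-/

set_option autoImplicit false

open scoped BigOperators

namespace Pool.Agent.MPfe8e9bT

open Pool.Agent.MPfe8e9b Pool.Agent.MPfe8e9bA Pool.Agent.MPfe8e9bW Pool.Agent.MPfe8e9bV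
  Pool.Agent.MPfe8e9bU

open scoped Pointwise

/-- The smallest class of groups, closed under isomorphism, which contains the groups with vertex
expansion `ε` for `k` elements in which every element is a product of `m` commutators, and the
wreath products `(∏ i, G i ^ (X i)) ⋊ P` of groups `G i` of the class with such groups `P`, where
`P` acts transitively on the sets `X i` with at least two elements, and the indices can be coloured
with `r` colours such that for every `i` some element of `P` acts nontrivially on `X i` and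
trivially on all the other `X j` of the same colour. -/
inductive OrbitTowers (k m r : ℕ) (ε : ℝ) : (G : Type) → Group G → Prop
  | base (G : Type) (inst : Group G) (hw : Wd m G) (hG : VExp k ε G) :
      OrbitTowers k m r ε G inst
  | step (P : Type) (instP : Group P) (hw : Wd m P) (hP : VExp k ε P) (I : Type)
      (hI : Finite I) (X : I → Type) (hX : ∀ i, Finite (X i)) (h2 : ∀ i, 2 ≤ Nat.card (X i))
      (α : ∀ i, P →* Equiv.Perm (X i)) (hα : ∀ i, ∀ x y : X i, ∃ p : P, α i p x = y)
      (χ : I → Fin r)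
      (hχ : ∀ i, ∃ p : P, (∀ j, j ≠ i → χ j = χ i → α j p = 1) ∧ α i p ≠ 1)
      (G : I → Type) (instG : ∀ i, Group (G i))
      (hG : ∀ i, OrbitTowers k m r ε (G i) (instG i)) :
      OrbitTowers k m r ε (Wr α G) inferInstance
  | iso (G H : Type) (instG : Group G) (instH : Group H) (e : G ≃* H)
      (hG : OrbitTowers k m r ε G instG) : OrbitTowers k m r ε H instH

theorem main4_tc_le {k m r : ℕ} {κ : ℝ} {h h' : ℕ} (hh : h ≤ h') {W : Type}
    {inst : Group W} (hW : Tc k m r κ h W inst) : Tc k m r κ h' W inst := by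
  induction hh with
  | refl => exact hW
  | step _ ih => exact ih.succ

/-- The groups of the class are towers.

Proof. `κ = ε ^ 2 / (4 (k + 1))` (`vexp_fexpd`), `Wd.perfect`. Induction on the derivation; in the
step the heights `h i` of the `G i` (finitely many) have a maximum (`Tc.succ`). -/
theorem orbit_tc {k m r : ℕ} {ε : ℝ} (hε : 0 < ε) {G : Type} {inst : Group G}
    (hG : OrbitTowers k m r ε G inst) :
    ∃ h, Tc k m r (ε ^ 2 / (4 * ((k : ℝ) + 1))) h G inst := by
  induction hG with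
  | base G inst hw hG => exact ⟨0, Tc.base 0 G inst ⟨hw.perfect, vexp_fexpd hε hG⟩ hw⟩
  | step P instP hw hP I hI X hX h2 α hα χ hχ G instG _ ih =>
    choose h hh using ih
    have _ := Fintype.ofFinite I
    have hle : ∀ i, h i ≤ Finset.univ.sup h := fun i => Finset.le_sup (Finset.mem_univ i)
    exact ⟨Finset.univ.sup h + 1, Tc.step _ P instP ⟨hw.perfect, vexp_fexpd hε hP⟩ hw I hI X hX
      h2 χ α ⟨hα, hχ⟩ G instG (fun i => main4_tc_le (hle i) (hh i))⟩
  | iso G H instG instH e _ ih =>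
    obtain ⟨h, hh⟩ := ih
    exact ⟨h, Tc.iso h G H instG instH e hh⟩

theorem main4_zero {k m r : ℕ} {κ : ℝ} {c₀ : ℕ}
    (hc₀ : ∀ (G : Type) [Group G], FExpd G k κ → Cost c₀ G) {h : ℕ} {W : Type}
    {inst : Group W} (hW : Tc k m r κ h W inst) : h = 0 → Cost c₀ W := by
  induction hW with
  | base h G inst hG hw => intro _; exact hc₀ G hG.2
  | step h P instP hP hw I hI X hX h2 χ α hα G instG hG ih => intro h0; omega
  | iso h G H instG instH e hG ih => intro h0; exact Cost.iso e (ih h0)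

theorem main4_succ {k m r : ℕ} {κ : ℝ} (hκ : 0 < κ) {c₀ : ℕ}
    (hc₀ : ∀ (G : Type) [Group G], FExpd G k κ → Cost c₀ G) {n c c'' : ℕ}
    (hc : ∀ (W : Type) (inst : Group W), Tc k m r κ n W inst → Cost c W)
    (hc'' : ∀ (P I : Type) [Group P] [Finite I]
      (X : I → Type) [∀ i, Finite (X i)] (χ : I → Fin r) (α : ∀ i, P →* Equiv.Perm (X i)),
      Col χ α → ∀ (G : I → Type) [∀ i, Group (G i)], (∀ i, commutator (G i) = ⊤) →
      (∀ i, Wd (wdt k m) (G i)) → (∀ i, Cost c (G i)) → Cost c₀ P → Cost c'' (Wr α G))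
    {h : ℕ} {W : Type}
    {inst : Group W} (hW : Tc k m r κ h W inst) : h = n + 1 → Cost (max c₀ c'') W := by
  induction hW with
  | base h G inst hG hw => intro _; exact (hc₀ G hG.2).mono (le_max_left _ _)
  | step h P instP hP hw I hI X hX h2 χ α hα G instG hG ih =>
    intro h0
    have hn : h = n := by omega
    subst hn
    exact (hc'' P I X χ α hα G (fun i => (hG i).perfect) (fun i => (hG i).wd hκ)
      (fun i => hc (G i) (instG i) (hG i)) (hc₀ P hP.2)).mono (le_max_right _ _)
  | iso h G H instG instH e hG ih => intro h0; exact Cost.iso e (ih h0)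

/-- Uniform bounds for all towers.

Proof. As `tw_cost` in U/Main3: `M = wdt k m`, `C₀`, `C₁` from `reset4 M r`, `boot3`; `hex` by
induction on `h` with `crude4`; `hadd` with `split4`, `reset4`. -/
theorem tc_cost (k m r : ℕ) {κ : ℝ} (hκ : 0 < κ) : ∃ c : ℕ, ∀ (h : ℕ) (W : Type)
    (inst : Group W), Tc k m r κ h W inst → Cost c W := by
  obtain ⟨C₀, C₁, hC₁, hres⟩ := reset4 (wdt k m) (by unfold wdt; omega) r
  refine boot3 (fun h c => ∀ (W : Type) (inst : Group W), Tc k m r κ h W inst → Cost c W)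
    C₀ C₁ hC₁ ?_ ?_ ?_ ?_ |>.imp fun c hc h W inst hW => hc h W inst hW
  · intro h c c' hcc hB W inst hW
    exact (hB W inst hW).mono hcc
  · intro h h' c hh hB W inst hW
    exact hB W inst (main4_tc_le hh hW)
  · intro h
    obtain ⟨c₀, hc₀⟩ := exists_cost k hκ
    induction h with
    | zero => exact ⟨c₀, fun W inst hW => main4_zero hc₀ hW rfl⟩
    | succ h ih =>
      obtain ⟨c, hc⟩ := ih
      obtain ⟨c'', hc''⟩ := crude4 hres hC₁ c c₀
      exact ⟨max c₀ c'', fun W inst hW => main4_succ hκ hc₀ hc hc'' hW rfl⟩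
  · intro a b c c' hb0 hbc ha hb W inst hW
    obtain ⟨b', rfl⟩ : ∃ b', b = b' + 1 := ⟨b - 1, by omega⟩
    obtain ⟨B, instB, I, hI, X, hX, χ, α, A, instA, hB, hα, hcard, hA, ⟨e⟩⟩ :=
      split4 a b' W inst hW
    have h1 : Cost (c' + C₀) (Wr α A) := hres c (b' + 1) c' B I X χ α hα A
      (fun i => (hA i).perfect) (fun i => (hA i).wd hκ)
      (fun i => ha (A i) (instA i) (hA i)) (hb B instB hB) hcard hbc
    exact Cost.iso e.symm h1

/-- The main theorem.

Proof. `orbit_tc`, `tc_cost`, `Cost.fexpd`, `expd_vertex` as in `all_main` of U/Main3. -/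
theorem orbit_main (k m r : ℕ) {ε : ℝ} (hε : 0 < ε) :
    ∃ (k' : ℕ) (ε' : ℝ), 0 < ε' ∧ ∀ (G : Type) [inst : Group G] [Fintype G] [DecidableEq G],
      OrbitTowers k m r ε G inst →
      ∃ S : Finset G, S.card ≤ k' ∧ Subgroup.closure (S : Set G) = ⊤ ∧
        ∀ A : Finset G, 2 * A.card ≤ Fintype.card G →
          (1 + ε') * (A.card : ℝ) ≤ ((A ∪ S * A).card : ℝ) := by
  obtain ⟨c, hc⟩ := tc_cost k m r (κ := ε ^ 2 / (4 * ((k : ℝ) + 1))) (by positivity)
  refine ⟨2 ^ c, (1 / 2 ^ c) / (4 * (((2 ^ c : ℕ) : ℝ) + 1)), by positivity, ?_⟩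
  intro G inst _ _ hG
  obtain ⟨h, hh⟩ := orbit_tc hε hG
  have h2 : FExpd G (2 ^ c) (1 / 2 ^ c) := (hc h G inst hh).fexpd
  exact expd_vertex (by positivity) h2.expd

end Pool.Agent.MPfe8e9bT
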